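import Pool.Agent.MP_3ce0a0_al.H79.XD

/-
Identities in the automorphism group of a free group.
-/

set_option linter.unusedSimpArgs false

namespace Pool.Agent.MP_3ce0a0_al.H79.X

open Equiv FreeGroup Pool.Agent.MP_3ce0a0_al.H62.Inst

variable {ι : Type}

lemma of_mem_FS {S : Set ι} {a : ι} (h : a ∈ S) : of a ∈ FS S :=
  Subgroup.subset_closure ⟨a, h, rfl⟩

lemma FS_mono {S T : Set ι} (h : S ⊆ T) : FS S ≤ FS T :=
  Subgroup.closure_mono (Set.image_mono h)

lemma fix_FS {S : Set ι} {α : A ι} (h : ∀ c ∈ S, α (of c) = of c) {w : FreeGroup ι}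
    (hw : w ∈ FS S) : α w = w := by
  induction hw using Subgroup.closure_induction with
  | mem x hx => obtain ⟨c, hc, rfl⟩ := hx; exact h c hc
  | one => exact _root_.map_one _
  | mul x y _ _ h1 h2 => rw [_root_.map_mul, h1, h2]
  | inv x _ h1 => rw [_root_.map_inv, h1]

lemma map_FS {S T : Set ι} {α : A ι} (h : ∀ c ∈ S, α (of c) ∈ FS T) {w : FreeGroup ι}
    (hw : w ∈ FS S) : α w ∈ FS T := by
  induction hw using Subgroup.closure_induction with
  | mem x hx => obtain ⟨c, hc, rfl⟩ := hx; exact h c hc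
  | one => rw [_root_.map_one]; exact one_mem _
  | mul x y _ _ h1 h2 => rw [_root_.map_mul]; exact mul_mem h1 h2
  | inv x _ h1 => rw [_root_.map_inv]; exact inv_mem h1

lemma mem_IO_of {S : Set ι} {α : A ι} {w : FreeGroup ι} (h : ∀ c, c ∉ S → α (of c) = of c)
    (hw : w ∈ FS S) (h' : ∀ c ∈ S, α (of c) = w * of c * w⁻¹) : α ∈ IO S := by
  refine ⟨h, w, hw, fun x hx => ?_⟩
  induction hx using Subgroup.closure_induction with
  | mem x hx => obtain ⟨c, hc, rfl⟩ := hx; exact h' c hc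
  | one => simp
  | mul x y _ _ h1 h2 => rw [_root_.map_mul, h1, h2]; group
  | inv x _ h1 => rw [_root_.map_inv, h1]; group

/-- criterion for membership. -/
lemma mem_On_of {S : Set ι} {α : A ι} (h : ∀ c, c ∉ S → α (of c) = of c)
    (h1 : ∀ c ∈ S, α (of c) ∈ FS S) (h2 : ∀ c ∈ S, α⁻¹ (of c) ∈ FS S) : α ∈ On S :=
  ⟨h, fun x => ⟨fun hx => by
    have := map_FS h2 hx
    rwa [MulAut.inv_apply_self] at this, map_FS h1⟩⟩

lemma On_mono {S T : Set ι} (h : S ⊆ T) : On S ≤ On T := by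
  have key : ∀ α ∈ On S, ∀ c ∈ T, α (of c) ∈ FS T := fun α hα c hc => by
    by_cases k : c ∈ S
    · exact FS_mono h ((hα.2 _).2 (of_mem_FS k))
    · rw [hα.1 c k]
      exact of_mem_FS hc
  exact fun α hα => mem_On_of (fun c hc => hα.1 c fun k => hc (h k)) (key α hα)
    (key _ (inv_mem hα))

lemma IO_le_On (S : Set ι) : IO S ≤ On S := by
  have key : ∀ α ∈ IO S, ∀ c ∈ S, α (of c) ∈ FS S := fun α ⟨_, w, hw, e⟩ c hc => by
    rw [e _ (of_mem_FS hc)]
    exact mul_mem (mul_mem hw (of_mem_FS hc)) (inv_mem hw)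
  exact fun α hα => mem_On_of hα.1 (key α hα) (key _ (inv_mem hα))

lemma IO_conj {S : Set ι} {α β : A ι} (hβ : β ∈ On S) (hα : α ∈ IO S) : β * α * β⁻¹ ∈ IO S := by
  obtain ⟨h, w, hw, e⟩ := hα
  refine ⟨fun c hc => ?_, β w, (hβ.2 _).2 hw, fun x hx => ?_⟩
  · rw [MulAut.mul_apply, MulAut.mul_apply, (inv_mem hβ).1 c hc, h c hc, hβ.1 c hc]
  · rw [MulAut.mul_apply, MulAut.mul_apply, e _ (((inv_mem hβ).2 _).2 hx), _root_.map_mul, _root_.map_mul,
      _root_.map_inv, MulAut.apply_inv_self]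

lemma pm_IO_conj {S : Set ι} {α : A ι} (σ : Perm ι) (hα : α ∈ IO S) :
    pm σ * α * (pm σ)⁻¹ ∈ IO (σ '' S) := by
  obtain ⟨h, w, hw, e⟩ := hα
  refine ⟨fun c hc => ?_, pm σ w, map_FS (fun c hc => ?_) hw, fun x hx => ?_⟩
  · rw [MulAut.mul_apply, MulAut.mul_apply, ← _root_.map_inv, pm_of,
      h _ fun k => hc ⟨_, k, by simp⟩, pm_of]
    simp
  · rw [pm_of]
    exact of_mem_FS ⟨c, hc, rfl⟩
  · have : (pm σ)⁻¹ x ∈ FS S := by
      refine map_FS ?_ hx
      rintro _ ⟨c, hc, rfl⟩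
      rw [← _root_.map_inv, pm_of]
      exact of_mem_FS (by simpa using hc)
    rw [MulAut.mul_apply, MulAut.mul_apply, e _ this, _root_.map_mul, _root_.map_mul,
      _root_.map_inv, MulAut.apply_inv_self]

lemma commute_On {S T : Set ι} (h : Disjoint S T) {α β : A ι} (hα : α ∈ On S) (hβ : β ∈ On T) :
    Commute α β := by
  refine aut_ext fun c => ?_
  rw [MulAut.mul_apply, MulAut.mul_apply]
  by_cases k : c ∈ S
  · rw [hβ.1 c (Set.disjoint_left.1 h k), fix_FS (fun d hd => hβ.1 d (Set.disjoint_left.1 h hd))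
      ((hα.2 _).2 (of_mem_FS k))]
  · rw [hα.1 c k]
    by_cases l : c ∈ T
    · exact fix_FS (fun d hd => hα.1 d (Set.disjoint_right.1 h hd)) ((hβ.2 _).2 (of_mem_FS l))
    · rw [hβ.1 c l, hα.1 c k]

lemma pm_mem_On {S : Set ι} {σ : Perm ι} (h : ∀ c, c ∉ S → σ c = c) : pm σ ∈ On S := by
  refine mem_On_of (fun c hc => by rw [pm_of, h c hc]) (fun c hc => ?_) fun c hc => ?_
  · rw [pm_of]
    refine of_mem_FS (by_contra fun k => k ?_)
    rw [σ.injective (h _ k)]
    exact hc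
  · rw [← _root_.map_inv, pm_of]
    refine of_mem_FS (by_contra fun k => k ?_)
    have := h _ k
    rw [Perm.inv_def, apply_symm_apply] at this
    rw [Perm.inv_def, ← this]
    exact hc

lemma cage_option (σ : Perm ι) : cage (Equiv.optionCongr σ) = pm σ :=
  aut_ext fun c => by simp [cage_of, zz]

lemma exA_in {κ : Type} (f : κ ↪ ι) (α : A κ) (a : κ) :
    exA f α (of (f a)) = FreeGroup.map f (α (of a)) := by
  rw [← FreeGroup.map.of]
  exact exE_in f α.toMonoidHom (of a)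

lemma exA_out {κ : Type} (f : κ ↪ ι) (α : A κ) (c : ι) (h : ∀ a, f a ≠ c) :
    exA f α (of c) = of c := exE_out f α.toMonoidHom c h

lemma map_mem_FS {κ : Type} (f : κ ↪ ι) (x : FreeGroup κ) :
    FreeGroup.map f x ∈ FS (Set.range f) := by
  induction x using FreeGroup.induction_on with
  | C1 => rw [_root_.map_one]; exact one_mem _
  | of a => rw [FreeGroup.map.of]; exact of_mem_FS ⟨a, rfl⟩
  | inv_of a h => rw [_root_.map_inv]; exact inv_mem h
  | mul x y h1 h2 => rw [_root_.map_mul]; exact mul_mem h1 h2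

lemma exA_mem_On {κ : Type} (f : κ ↪ ι) (α : A κ) : exA f α ∈ On (Set.range f) := by
  have key : ∀ β : A κ, ∀ c ∈ Set.range f, exA f β (of c) ∈ FS (Set.range f) := by
    rintro β _ ⟨a, rfl⟩
    rw [exA_in]
    exact map_mem_FS f _
  refine mem_On_of (fun c hc => exA_out f α c fun a e => hc ⟨a, e⟩) (key α) ?_
  rw [← _root_.map_inv]
  exact key _

lemma exA_pm {κ : Type} (f : κ ↪ ι) (σ : Perm κ) : exA f (pm σ) = pm (σ.viaEmbedding f) :=
  aut_ext fun c => by
    by_cases h : c ∈ Set.range f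
    · obtain ⟨a, rfl⟩ := h
      rw [exA_in, pm_of, pm_of, Perm.viaEmbedding_apply, FreeGroup.map.of]
    · rw [exA_out f _ c fun a e => h ⟨a, e⟩, pm_of, Perm.viaEmbedding_apply_of_notMem _ _ _ h]

variable [DecidableEq ι]

lemma kill_of (e c : ι) : kill e (of c) = if c = e then 1 else of c := by simp [kill]

lemma ta_of (a b c : ι) : ta a b (of c) = of (swap a b c) := pm_of _ _

lemma kk_of {a b : ι} (h : a ≠ b) (c : ι) :
    kk a b (of c) = if c = a then (of b)⁻¹ * of a * of b else of c := by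
  by_cases k : c = a <;> simp [kk, k, la_inv h, rh_of h, h.symm, mul_assoc]

lemma kill_mem {S : Set ι} (e : ι) {w : FreeGroup ι} (hw : w ∈ FS S) : kill e w ∈ FS S := by
  induction hw using Subgroup.closure_induction with
  | mem x hx =>
    obtain ⟨c, hc, rfl⟩ := hx
    rw [kill_of]
    split_ifs
    exacts [one_mem _, of_mem_FS hc]
  | one => rw [_root_.map_one]; exact one_mem _
  | mul x y _ _ h1 h2 => rw [_root_.map_mul]; exact mul_mem h1 h2
  | inv x _ h1 => rw [_root_.map_inv]; exact inv_mem h1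

lemma kill_mem_compl (e : ι) (w : FreeGroup ι) : kill e w ∈ FS ({e}ᶜ : Set ι) := by
  induction w using FreeGroup.induction_on with
  | C1 => rw [_root_.map_one]; exact one_mem _
  | of a =>
    rw [kill_of]
    split_ifs with k
    exacts [one_mem _, of_mem_FS k]
  | inv_of a h => rw [_root_.map_inv]; exact inv_mem h
  | mul x y h1 h2 => rw [_root_.map_mul]; exact mul_mem h1 h2

lemma Rw_fix {S : Set ι} {e : ι} (he : e ∉ S) (u : FreeGroup ι) {w : FreeGroup ι}
    (hw : w ∈ FS S) : Rw e u w = w :=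
  fix_FS (fun c hc => by rw [Rw_of, if_neg (ne_of_mem_of_not_mem hc he)]) hw

lemma Lw_fix {S : Set ι} {e : ι} (he : e ∉ S) (u : FreeGroup ι) {w : FreeGroup ι}
    (hw : w ∈ FS S) : Lw e u w = w :=
  fix_FS (fun c hc => by rw [Lw_of, if_neg (ne_of_mem_of_not_mem hc he)]) hw

lemma Rw_kill (e : ι) (u w : FreeGroup ι) : Rw e u (kill e w) = kill e w :=
  Rw_fix (by simp) u (kill_mem_compl e w)

lemma Lw_kill (e : ι) (u w : FreeGroup ι) : Lw e u (kill e w) = kill e w :=
  Lw_fix (by simp) u (kill_mem_compl e w)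

lemma ep_kill (e : ι) (w : FreeGroup ι) : ep e (kill e w) = kill e w :=
  fix_FS (fun c hc => by rw [ep_of, if_neg (show c ≠ e from hc)]) (kill_mem_compl e w)

lemma pm_kill (σ : Perm ι) (e : ι) (w : FreeGroup ι) :
    pm σ (kill e w) = kill (σ e) (pm σ w) := by
  induction w using FreeGroup.induction_on with
  | C1 => simp
  | of a => by_cases k : a = e <;> simp [kill_of, k]
  | inv_of a h => rw [_root_.map_inv, _root_.map_inv, h, _root_.map_inv, _root_.map_inv]
  | mul x y h1 h2 => rw [_root_.map_mul, _root_.map_mul, h1, h2, _root_.map_mul, _root_.map_mul]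

lemma Rw_On {S : Set ι} {e : ι} {w : FreeGroup ι} (he : e ∈ S) (hw : w ∈ FS S) :
    Rw e w ∈ On S := by
  have key : ∀ u ∈ FS S, ∀ c ∈ S, Rw e u (of c) ∈ FS S := fun u hu c hc => by
    rw [Rw_of]
    split_ifs
    exacts [mul_mem (of_mem_FS he) (kill_mem e hu), of_mem_FS hc]
  refine mem_On_of (fun c hc => ?_) (key w hw) ?_
  · rw [Rw_of, if_neg (ne_of_mem_of_not_mem he hc).symm]
  · rw [← _root_.map_inv]
    exact key _ (inv_mem hw)

lemma Lw_On {S : Set ι} {e : ι} {w : FreeGroup ι} (he : e ∈ S) (hw : w ∈ FS S) :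
    Lw e w ∈ On S := by
  have key : ∀ u ∈ FS S, ∀ c ∈ S, Lw e u (of c) ∈ FS S := fun u hu c hc => by
    rw [Lw_of]
    split_ifs
    exacts [mul_mem (inv_mem (kill_mem e hu)) (of_mem_FS he), of_mem_FS hc]
  refine mem_On_of (fun c hc => ?_) (key w hw) ?_
  · rw [Lw_of, if_neg (ne_of_mem_of_not_mem he hc).symm]
  · rw [← _root_.map_inv]
    exact key _ (inv_mem hw)

lemma epJ_sq (J : Finset ι) : epJ J * epJ J = 1 := aut_ext fun c => by
  by_cases k : c ∈ J <;> simp [epJ_of, k]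

lemma prod_rh (a : ι) (L : List ι) (h : L.Nodup) (ha : a ∉ L) (x : ι) :
    (L.map fun b => rh b a).prod (of x) = if x ∈ L then of x * of a else of x := by
  induction L with
  | nil => simp
  | cons b L ih =>
    rw [List.nodup_cons] at h
    rw [List.mem_cons, not_or] at ha
    have hb : b ≠ a := fun k => ha.1 k.symm
    rw [List.map_cons, List.prod_cons, MulAut.mul_apply, ih h.2 ha.2]
    by_cases k : x = b
    · simp [k, h.1, rh_of hb]
    · by_cases l : x ∈ L <;> simp [k, l, rh_of hb, ha.1]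

lemma kill_of_mem {S : Set ι} {e : ι} {w : FreeGroup ι} (hw : w ∈ FS S) (he : e ∉ S) :
    kill e w = w := by
  induction hw using Subgroup.closure_induction with
  | mem x hx =>
    obtain ⟨c, hc, rfl⟩ := hx
    rw [kill_of, if_neg (ne_of_mem_of_not_mem hc he)]
  | one => exact _root_.map_one _
  | mul x y _ _ h1 h2 => rw [_root_.map_mul, h1, h2]
  | inv x _ h1 => rw [_root_.map_inv, h1]

lemma prod_RL {S : Set ι} {w : FreeGroup ι} (hw : w ∈ FS S) (L : List ι) (h : L.Nodup)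
    (hL : ∀ e ∈ L, e ∉ S) (x : ι) : (L.map fun e => Rw e w * Lw e w).prod (of x) =
      if x ∈ L then w⁻¹ * of x * w else of x := by
  induction L with
  | nil => simp
  | cons b L ih =>
    rw [List.nodup_cons] at h
    have hb : b ∉ S := hL b (by simp)
    have h1 := kill_of_mem hw hb
    have h2 := Rw_fix hb w hw
    have h3 := Lw_fix hb w hw
    rw [List.map_cons, List.prod_cons, MulAut.mul_apply,
      ih h.2 fun e he => hL e (List.mem_cons_of_mem _ he)]
    by_cases k : x = b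
    · simp [k, h.1, Rw_of, Lw_of, h1, h2, mul_assoc]
    · by_cases l : x ∈ L <;> simp [k, l, Rw_of, Lw_of, h2, h3]

lemma rh_eq {a b : ι} (h : a ≠ b) : rh a b = Rw a (of b) :=
  aut_ext fun c => by
    simp [rh_of h, Rw_of, kill_of, h.symm]

lemma la_eq {a b : ι} (h : a ≠ b) : la a b = (Lw a (of b))⁻¹ := by
  rw [← _root_.map_inv]
  refine aut_ext fun c => ?_
  rw [Lw_of]
  simp [la_of h, kill_of, h.symm]

lemma kk_eq {a b : ι} (h : a ≠ b) : kk a b = Rw a (of b) * Lw a (of b) := by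
  rw [kk, rh_eq h, la_eq h, inv_inv]

lemma ep_mem_On {S : Set ι} {a : ι} (h : a ∈ S) : ep a ∈ On S := by
  have key : ∀ c ∈ S, ep a (of c) ∈ FS S := fun c hc => by
    rw [ep_of]
    split_ifs
    exacts [inv_mem (of_mem_FS hc), of_mem_FS hc]
  refine mem_On_of (fun c hc => ?_) key ?_
  · rw [ep_of, if_neg (ne_of_mem_of_not_mem h hc).symm]
  · rw [inv_eq_of_mul_eq_one_right (show ep a * ep a = 1 from (N0 ι).ε_sq a)]
    exact key

lemma rh_mem_On {S : Set ι} {a b : ι} (ha : a ∈ S) (hb : b ∈ S) : rh a b ∈ On S := by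
  by_cases h : a = b
  · rw [rh, dif_pos h]
    exact one_mem _
  · rw [rh_eq h]
    exact Rw_On ha (of_mem_FS hb)

lemma la_mem_On {S : Set ι} {a b : ι} (ha : a ∈ S) (hb : b ∈ S) : la a b ∈ On S := by
  by_cases h : a = b
  · rw [la, dif_pos h]
    exact one_mem _
  · rw [la_eq h]
    exact inv_mem (Lw_On ha (of_mem_FS hb))

lemma ta_mem_On {S : Set ι} {a b : ι} (ha : a ∈ S) (hb : b ∈ S) : ta a b ∈ On S :=
  pm_mem_On fun _ hc => swap_apply_of_ne_of_ne (ne_of_mem_of_not_mem ha hc).symm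
    (ne_of_mem_of_not_mem hb hc).symm

lemma cc_mem_On {S : Set ι} {a b : ι} (ha : a ∈ S) (hb : b ∈ S) : cc a b ∈ On S :=
  mul_mem (mul_mem (ep_mem_On ha) (rh_mem_On hb ha)) (ta_mem_On ha hb)

lemma kk_mem_On {S : Set ι} {a b : ι} (ha : a ∈ S) (hb : b ∈ S) : kk a b ∈ On S :=
  mul_mem (rh_mem_On ha hb) (inv_mem (la_mem_On ha hb))

lemma epJ_mem_On {S : Set ι} {J : Finset ι} (h : (J : Set ι) ⊆ S) : epJ J ∈ On S := by
  have key : ∀ c ∈ S, epJ J (of c) ∈ FS S := fun c hc => by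
    rw [epJ_of]
    split_ifs
    exacts [inv_mem (of_mem_FS hc), of_mem_FS hc]
  refine mem_On_of (fun c hc => ?_) key ?_
  · rw [epJ_of, if_neg fun k : c ∈ J => hc (h k)]
  · rw [inv_eq_of_mul_eq_one_right (epJ_sq J)]
    exact key

lemma Rw_mem_On {S : Set ι} {e : ι} {w : FreeGroup ι} (he : e ∈ S) (hw : w ∈ FS S) :
    Rw e w ∈ On S :=
  Rw_On he hw

lemma Lw_mem_On {S : Set ι} {e : ι} {w : FreeGroup ι} (he : e ∈ S) (hw : w ∈ FS S) :
    Lw e w ∈ On S :=
  Lw_On he hw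

lemma kk_mem_IO {a b : ι} (h : a ≠ b) : kk a b ∈ IO ({a, b} : Set ι) := by
  refine mem_IO_of (w := (of b)⁻¹) (fun c hc => ?_) (inv_mem (of_mem_FS (by simp))) ?_
  · rw [kk_of h, if_neg fun k => hc (by simp [k])]
  · rintro c (rfl | rfl) <;> simp [kk_of h, h.symm]

lemma On_conj_Rw {S : Set ι} {α : A ι} {e : ι} {w : FreeGroup ι} (hα : α ∈ On S) (he : e ∉ S)
    (hw : w ∈ FS ({e}ᶜ : Set ι)) : α * Rw e w * α⁻¹ = Rw e (α w) := by
  have hα' : α ∈ On ({e}ᶜ : Set ι) := On_mono (fun c hc => ne_of_mem_of_not_mem hc he) hα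
  rw [mul_inv_eq_iff_eq_mul]
  refine aut_ext fun c => ?_
  rw [MulAut.mul_apply, MulAut.mul_apply, Rw_of]
  split_ifs with k
  · rw [k, _root_.map_mul, hα.1 e he, Rw_of, if_pos rfl, kill_of_mem hw (by simp),
      kill_of_mem ((hα'.2 _).2 hw) (by simp)]
  · rw [Rw_fix (S := {e}ᶜ) (by simp) _ ((hα'.2 _).2 (of_mem_FS k))]

lemma On_conj_Lw {S : Set ι} {α : A ι} {e : ι} {w : FreeGroup ι} (hα : α ∈ On S) (he : e ∉ S)
    (hw : w ∈ FS ({e}ᶜ : Set ι)) : α * Lw e w * α⁻¹ = Lw e (α w) := by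
  have hα' : α ∈ On ({e}ᶜ : Set ι) := On_mono (fun c hc => ne_of_mem_of_not_mem hc he) hα
  rw [mul_inv_eq_iff_eq_mul]
  refine aut_ext fun c => ?_
  rw [MulAut.mul_apply, MulAut.mul_apply, Lw_of]
  split_ifs with k
  · rw [k, _root_.map_mul, _root_.map_inv, hα.1 e he, Lw_of, if_pos rfl, kill_of_mem hw (by simp),
      kill_of_mem ((hα'.2 _).2 hw) (by simp)]
  · rw [Lw_fix (S := {e}ᶜ) (by simp) _ ((hα'.2 _).2 (of_mem_FS k))]

lemma pm_conj_Rw (σ : Perm ι) (e : ι) (w : FreeGroup ι) :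
    pm σ * Rw e w * (pm σ)⁻¹ = Rw (σ e) (pm σ w) := by
  rw [mul_inv_eq_iff_eq_mul]
  exact aut_ext fun c => by by_cases k : c = e <;> simp [Rw_of, k, pm_kill]

lemma pm_conj_Lw (σ : Perm ι) (e : ι) (w : FreeGroup ι) :
    pm σ * Lw e w * (pm σ)⁻¹ = Lw (σ e) (pm σ w) := by
  rw [mul_inv_eq_iff_eq_mul]
  exact aut_ext fun c => by by_cases k : c = e <;> simp [Lw_of, k, pm_kill]

lemma ep_conj_Rw (e : ι) (w : FreeGroup ι) : ep e * Rw e w * ep e = Lw e w :=
  aut_ext fun c => by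
    by_cases k : c = e <;> simp [Rw_of, Lw_of, ep_of, k, ep_kill]

lemma commute_Rw_Lw (e : ι) (u w : FreeGroup ι) : Commute (Rw e u) (Lw e w) :=
  aut_ext fun c => by
    by_cases k : c = e <;> simp [Rw_of, Lw_of, k, Rw_kill, Lw_kill, mul_assoc]

lemma commute_ne {S : Set ι} {e f : ι} {u w : FreeGroup ι} (h : e ≠ f) (he : e ∉ S) (hf : f ∉ S)
    (hu : u ∈ FS S) (hw : w ∈ FS S) : Commute (Rw e u) (Rw f w) ∧ Commute (Rw e u) (Lw f w) ∧
      Commute (Lw e u) (Lw f w) := by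
  have h1 := kill_of_mem hu he
  have h2 := kill_of_mem hw hf
  have h3 := Rw_fix he u hw
  have h4 := Lw_fix he u hw
  have h5 := Rw_fix hf w hu
  have h6 := Lw_fix hf w hu
  refine ⟨aut_ext fun c => ?_, aut_ext fun c => ?_, aut_ext fun c => ?_⟩ <;>
    by_cases k : c = e <;> by_cases l : c = f <;>
      simp_all [Rw_of, Lw_of, h.symm]

/-- the move. -/
lemma la_conj_Rw {S : Set ι} {a c : ι} {w : FreeGroup ι} (h : a ≠ c) (ha : a ∉ S) (hc : c ∉ S)
    (hw : w ∈ FS S) : la c a * Rw a w * (la c a)⁻¹ = Rw a w * Lw c w ∧ Commute (la c a) (Rw c w) ∧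
      ∀ e, e ∉ S → e ≠ a → e ≠ c → Commute (la c a) (Rw e w) ∧ Commute (la c a) (Lw e w) := by
  have h1 := kill_of_mem hw ha
  have h2 := kill_of_mem hw hc
  have h3 := Rw_fix ha w hw
  have h4 : la c a w = w := fix_FS (fun d hd => by
    rw [la_of h.symm, if_neg (ne_of_mem_of_not_mem hd hc)]) hw
  refine ⟨?_, aut_ext fun x => ?_, fun e he h5 h6 => ?_⟩
  · rw [mul_inv_eq_iff_eq_mul]
    refine aut_ext fun x => ?_
    by_cases k : x = a
    · simp [k, Rw_of, Lw_of, la_of h.symm, h, h1, h4]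
    · by_cases l : x = c
      · simp [l, Rw_of, Lw_of, la_of h.symm, h, h.symm, h1, h2, h3, h4, mul_assoc]
      · simp [k, l, Rw_of, Lw_of, la_of h.symm]
  · by_cases l : x = c
    · simp [l, Rw_of, la_of h.symm, h, h2, h4, mul_assoc]
    · simp [l, Rw_of, la_of h.symm]
  · have h7 := kill_of_mem hw he
    refine ⟨aut_ext fun x => ?_, aut_ext fun x => ?_⟩ <;>
      by_cases k : x = e <;> by_cases l : x = c <;>
        simp_all [Rw_of, Lw_of, la_of h.symm, h5.symm, h6.symm]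

lemma ep_sq (a : ι) : ep a * ep a = 1 :=
  (N0 ι).ε_sq a

lemma ep_comm (a b : ι) : Commute (ep a) (ep b) :=
  (N0 ι).ε_comm a b

lemma ta_sq (a b : ι) : ta a b * ta a b = 1 := by
  rw [ta, ← _root_.map_mul, swap_mul_self, _root_.map_one]

lemma pm_ep (σ : Perm ι) (a : ι) : pm σ * ep a = ep (σ a) * pm σ :=
  (N0 ι).π_ε σ a

lemma pm_rh (σ : Perm ι) (a b : ι) : pm σ * rh a b = rh (σ a) (σ b) * pm σ := by
  by_cases h : a = b
  · simp [rh, h]
  · exact (N0 ι).π_ρ σ a b h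

lemma pm_la (σ : Perm ι) (a b : ι) : pm σ * la a b = la (σ a) (σ b) * pm σ := by
  by_cases h : a = b
  · simp [la, h]
  · exact (N0 ι).π_lam σ a b h

lemma pm_ta (σ : Perm ι) (a b : ι) : pm σ * ta a b = ta (σ a) (σ b) * pm σ := by
  rw [ta, ta, ← _root_.map_mul, ← _root_.map_mul, mul_swap_eq_swap_mul]

lemma pm_cc (σ : Perm ι) (a b : ι) : pm σ * cc a b = cc (σ a) (σ b) * pm σ := by
  rw [cc, cc, ← mul_assoc, ← mul_assoc, pm_ep, mul_assoc (ep _), pm_rh, mul_assoc, mul_assoc,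
    pm_ta]
  simp only [mul_assoc]

lemma pm_kk (σ : Perm ι) (a b : ι) : pm σ * kk a b = kk (σ a) (σ b) * pm σ := by
  have : pm σ * (la a b)⁻¹ = (la (σ a) (σ b))⁻¹ * pm σ := by
    rw [mul_inv_eq_iff_eq_mul, mul_assoc, pm_la, inv_mul_cancel_left]
  rw [kk, kk, ← mul_assoc, pm_rh, mul_assoc, this, mul_assoc]

lemma ep_kk {a e b : ι} (h : e ≠ b) (h' : a ≠ b) : Commute (ep a) (kk e b) :=
  aut_ext fun c => by
    by_cases k : c = e <;> by_cases l : c = a <;>
      simp_all [kk_of h, ep_of, h.symm, h'.symm, mul_assoc]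

lemma ep_kk_inv {e b : ι} (h : e ≠ b) : ep b * kk e b * ep b = (kk e b)⁻¹ := by
  rw [eq_inv_iff_mul_eq_one]
  refine aut_ext fun c => ?_
  by_cases k : c = e
  · simp [k, kk_of h, ep_of, h, h.symm, mul_assoc]
  · by_cases l : c = b <;> simp [k, l, kk_of h, ep_of, h.symm]

lemma epep_rh {a b : ι} (h : a ≠ b) : ep a * ep b * rh a b * (ep a * ep b) = la a b :=
  aut_ext fun c => by
    by_cases k : c = a
    · simp [k, ep_of, rh_of h, rh_of h.symm, la_of h, la_of h.symm, rh_inv h, rh_inv h.symm, la_inv h,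
        la_inv h.symm, ta_of, h, h.symm, swap_apply_of_ne_of_ne, mul_assoc]
    · by_cases l : c = b <;> simp [k, l, ep_of, rh_of h, rh_of h.symm, la_of h, la_of h.symm, rh_inv h, rh_inv h.symm, la_inv h,
        la_inv h.symm, ta_of, h, h.symm, swap_apply_of_ne_of_ne, mul_assoc]

lemma commute_rh_la {a b c : ι} (h : a ≠ b) (h' : a ≠ c) : Commute (rh a b) (la a c) :=
  aut_ext fun x => by
    by_cases k : x = a <;> simp [k, rh_of h, la_of h', h.symm, h'.symm, mul_assoc]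

lemma cc_cube {a b : ι} (h : a ≠ b) : cc a b ^ 3 = 1 :=
  aut_ext fun c => by
    by_cases k : c = a
    · simp [k, pow_succ, cc, ep_of, rh_of h, rh_of h.symm, la_of h, la_of h.symm, rh_inv h, rh_inv h.symm, la_inv h,
        la_inv h.symm, ta_of, h, h.symm, swap_apply_of_ne_of_ne, mul_assoc]
    · by_cases l : c = b <;> simp [k, l, pow_succ, cc, ep_of, rh_of h, rh_of h.symm, la_of h, la_of h.symm, rh_inv h, rh_inv h.symm, la_inv h,
        la_inv h.symm, ta_of, h, h.symm, swap_apply_of_ne_of_ne, mul_assoc]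

lemma ta_cc {a b : ι} (h : a ≠ b) : ta a b * cc a b * ta a b = cc a b * cc a b :=
  aut_ext fun c => by
    by_cases k : c = a
    · simp [k, cc, ep_of, rh_of h, rh_of h.symm, la_of h, la_of h.symm, rh_inv h, rh_inv h.symm, la_inv h,
        la_inv h.symm, ta_of, h, h.symm, swap_apply_of_ne_of_ne, mul_assoc]
    · by_cases l : c = b <;> simp [k, l, cc, ep_of, rh_of h, rh_of h.symm, la_of h, la_of h.symm, rh_inv h, rh_inv h.symm, la_inv h,
        la_inv h.symm, ta_of, h, h.symm, swap_apply_of_ne_of_ne, mul_assoc]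

lemma cc_eq {a b : ι} (h : a ≠ b) : cc a b = ep a * ta a b * rh a b :=
  aut_ext fun c => by
    by_cases k : c = a
    · simp [k, cc, ep_of, rh_of h, rh_of h.symm, la_of h, la_of h.symm, rh_inv h, rh_inv h.symm, la_inv h,
        la_inv h.symm, ta_of, h, h.symm, swap_apply_of_ne_of_ne, mul_assoc]
    · by_cases l : c = b <;> simp [k, l, cc, ep_of, rh_of h, rh_of h.symm, la_of h, la_of h.symm, rh_inv h, rh_inv h.symm, la_inv h,
        la_inv h.symm, ta_of, h, h.symm, swap_apply_of_ne_of_ne, mul_assoc]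

lemma epta_sq {a b : ι} (h : a ≠ b) : ep a * ta a b * (ep a * ta a b) = ep a * ep b :=
  aut_ext fun c => by
    by_cases k : c = a
    · simp [k, ep_of, rh_of h, rh_of h.symm, la_of h, la_of h.symm, rh_inv h, rh_inv h.symm, la_inv h,
        la_inv h.symm, ta_of, h, h.symm, swap_apply_of_ne_of_ne, mul_assoc]
    · by_cases l : c = b <;> simp [k, l, ep_of, rh_of h, rh_of h.symm, la_of h, la_of h.symm, rh_inv h, rh_inv h.symm, la_inv h,
        la_inv h.symm, ta_of, h, h.symm, swap_apply_of_ne_of_ne, mul_assoc]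

lemma ep_rh_conj {a b : ι} (h : a ≠ b) :
    ep a * rh b a = ep a * la a b * ta a b * (ep a * la a b)⁻¹ := by
  rw [eq_mul_inv_iff_mul_eq]
  exact aut_ext fun c => by
    by_cases k : c = a
    · simp [k, ep_of, rh_of h, rh_of h.symm, la_of h, la_of h.symm, rh_inv h, rh_inv h.symm, la_inv h,
        la_inv h.symm, ta_of, h, h.symm, swap_apply_of_ne_of_ne, mul_assoc]
    · by_cases l : c = b <;> simp [k, l, ep_of, rh_of h, rh_of h.symm, la_of h, la_of h.symm, rh_inv h, rh_inv h.symm, la_inv h,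
        la_inv h.symm, ta_of, h, h.symm, swap_apply_of_ne_of_ne, mul_assoc]

lemma Rw_cc {a b e : ι} (h : [a, b, e].Nodup) : Rw e (of a)⁻¹ * cc a b =
    ep e * rh a e * rh b e * (ta a b * ta b e) * (ep e * rh a e * rh b e)⁻¹ := by
  have h1 : a ≠ b := by rintro rfl; simp at h
  have h2 : a ≠ e := by rintro rfl; simp at h
  have h3 : b ≠ e := by rintro rfl; simp at h
  rw [eq_mul_inv_iff_mul_eq, _root_.map_inv, ← rh_eq h2.symm]
  refine aut_ext fun c => ?_
  by_cases k : c = a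
  · simp [k, cc, rh_inv h2.symm, ep_of, rh_of h1.symm, rh_of h2, rh_of h3, ta_of, h1, h2, h3,
      h1.symm, h2.symm, h3.symm, swap_apply_of_ne_of_ne, mul_assoc]
  by_cases l : c = b
  · simp [l, cc, rh_inv h2.symm, ep_of, rh_of h1.symm, rh_of h2, rh_of h3, ta_of, h1, h2, h3,
      h1.symm, h2.symm, h3.symm, swap_apply_of_ne_of_ne, mul_assoc]
  by_cases m : c = e <;>
    simp [k, l, m, cc, rh_inv h2.symm, ep_of, rh_of h1.symm, rh_of h2, rh_of h3, ta_of, h1, h2,
      h3, h1.symm, h2.symm, h3.symm, swap_apply_of_ne_of_ne, mul_assoc]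

lemma epep_eq {a b : ι} (h : a ≠ b) :
    ep a * ep b = rh a b * (rh b a)⁻¹ * (la a b * la a b) * (la b a)⁻¹ * rh a b :=
  aut_ext fun c => by
    by_cases k : c = a
    · simp [k, ep_of, rh_of h, rh_of h.symm, la_of h, la_of h.symm, rh_inv h, rh_inv h.symm, la_inv h,
        la_inv h.symm, ta_of, h, h.symm, swap_apply_of_ne_of_ne, mul_assoc]
    · by_cases l : c = b <;> simp [k, l, ep_of, rh_of h, rh_of h.symm, la_of h, la_of h.symm, rh_inv h, rh_inv h.symm, la_inv h,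
        la_inv h.symm, ta_of, h, h.symm, swap_apply_of_ne_of_ne, mul_assoc]

lemma epJ_empty : epJ (∅ : Finset ι) = 1 :=
  aut_ext fun c => by simp [epJ_of]

lemma epJ_single (a : ι) : epJ {a} = ep a :=
  aut_ext fun c => by simp [epJ_of, ep_of]

lemma epJ_mul (I J : Finset ι) : epJ I * epJ J = epJ (symmDiff I J) :=
  aut_ext fun c => by
    by_cases k : c ∈ I <;> by_cases l : c ∈ J <;> simp [epJ_of, Finset.mem_symmDiff, k, l]

lemma epJ_insert {a : ι} {J : Finset ι} (h : a ∉ J) : epJ (insert a J) = ep a * epJ J :=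
  aut_ext fun c => by
    by_cases k : c = a
    · simp [epJ_of, ep_of, k, h]
    · by_cases l : c ∈ J <;> simp [epJ_of, ep_of, k, l]

lemma pm_epJ (σ : Perm ι) (J : Finset ι) :
    pm σ * epJ J = epJ (J.map σ.toEmbedding) * pm σ :=
  aut_ext fun c => by
    by_cases l : c ∈ J <;> simp [epJ_of, l]

lemma exA_ep {κ : Type} [DecidableEq κ] (f : κ ↪ ι) (a : κ) : exA f (ep a) = ep (f a) :=
  aut_ext fun c => by
    by_cases h : ∃ x, f x = c
    · obtain ⟨x, rfl⟩ := h
      by_cases k : x = a <;> simp [exA_in, ep_of, k]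
    · have h' : ∀ x, f x ≠ c := fun x e => h ⟨x, e⟩
      rw [exA_out f _ c h', ep_of, if_neg (h' a).symm]

lemma exA_rh {κ : Type} [DecidableEq κ] (f : κ ↪ ι) (a b : κ) :
    exA f (rh a b) = rh (f a) (f b) := by
  by_cases e : a = b
  · simp [rh, e]
  refine aut_ext fun c => ?_
  by_cases h : ∃ x, f x = c
  · obtain ⟨x, rfl⟩ := h
    by_cases k : x = a <;> simp [exA_in, rh_of e, rh_of (f.injective.ne e), k]
  · have h' : ∀ x, f x ≠ c := fun x e => h ⟨x, e⟩
    rw [exA_out f _ c h', rh_of (f.injective.ne e), if_neg (h' a).symm]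

lemma exA_la {κ : Type} [DecidableEq κ] (f : κ ↪ ι) (a b : κ) :
    exA f (la a b) = la (f a) (f b) := by
  by_cases e : a = b
  · simp [la, e]
  refine aut_ext fun c => ?_
  by_cases h : ∃ x, f x = c
  · obtain ⟨x, rfl⟩ := h
    by_cases k : x = a <;> simp [exA_in, la_of e, la_of (f.injective.ne e), k]
  · have h' : ∀ x, f x ≠ c := fun x e => h ⟨x, e⟩
    rw [exA_out f _ c h', la_of (f.injective.ne e), if_neg (h' a).symm]

lemma exA_ta {κ : Type} [DecidableEq κ] (f : κ ↪ ι) (a b : κ) :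
    exA f (ta a b) = ta (f a) (f b) :=
  aut_ext fun c => by
    by_cases h : ∃ x, f x = c
    · obtain ⟨x, rfl⟩ := h
      rw [exA_in, ta_of, ta_of, FreeGroup.map.of, f.injective.swap_apply]
    · have h' : ∀ x, f x ≠ c := fun x e => h ⟨x, e⟩
      rw [exA_out f _ c h', ta_of, swap_apply_of_ne_of_ne (h' a).symm (h' b).symm]

lemma exA_epJ {κ : Type} [DecidableEq κ] (f : κ ↪ ι) (J : Finset κ) :
    exA f (epJ J) = epJ (J.map f) :=
  aut_ext fun c => by
    by_cases h : ∃ x, f x = c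
    · obtain ⟨x, rfl⟩ := h
      by_cases k : x ∈ J <;> simp [exA_in, epJ_of, k]
    · have h' : ∀ x, f x ≠ c := fun x e => h ⟨x, e⟩
      rw [exA_out f _ c h', epJ_of, if_neg]
      rw [Finset.mem_map]
      exact fun ⟨x, _, e⟩ => h' x e

variable [Fintype ι]

lemma del_cage (s : Perm (Option ι)) : epJ Finset.univ * cage s =
    MulAut.conj (zz (s none))⁻¹ * (cage s * epJ Finset.univ) :=
  aut_ext fun c => by
    have hz : ∀ o : Option ι, epJ Finset.univ (zz o) = (zz o)⁻¹ := fun o => by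
      cases o <;> simp [zz, epJ_of]
    simp [cage_of, epJ_of, hz]

lemma cage_swap (a : ι) : cage (swap none (some a)) =
    ep a * ((Finset.univ.erase a).toList.map fun b => rh b a).prod :=
  aut_ext fun c => by
    rw [MulAut.mul_apply, prod_rh a _ (Finset.nodup_toList _) (by simp), cage_of]
    by_cases k : c = a
    · simp [k, zz, ep_of]
    · simp [k, zz, ep_of, swap_apply_of_ne_of_ne]

/-- an inner automorphism of a free factor, modulo the inner automorphisms. -/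
lemma IO_eq {S : Finset ι} {α : A ι} {w : FreeGroup ι} (hw : w ∈ FS (S : Set ι))
    (h : ∀ c, c ∉ S → α (of c) = of c) (h' : ∀ c ∈ S, α (of c) = w * of c * w⁻¹) :
    α = MulAut.conj w * (Sᶜ.toList.map fun e => Rw e w * Lw e w).prod :=
  aut_ext fun c => by
    rw [MulAut.mul_apply, prod_RL hw _ (Finset.nodup_toList _) (by simp)]
    by_cases k : c ∈ S
    · simp [k, h' c k]
    · simp [k, h c k, mul_assoc]

lemma prod_kk (b : ι) : MulAut.conj (of b) *
    ((Finset.univ.erase b).toList.map fun e => kk e b).prod = 1 := by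
  have := IO_eq (S := {b}) (α := 1) (w := of b) (of_mem_FS (by simp)) (fun _ _ => rfl)
    (by simp)
  rw [this, Finset.compl_singleton]
  congr 2
  exact List.map_congr_left fun e he => kk_eq (by simpa using he)

end Pool.Agent.MP_3ce0a0_al.H79.X
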