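import Pool.Agent.MP_3ce0a0_al.H79.XB
import Pool.Agent.MP_3ce0a0_al.H79.XG

/-
Joint eigenspaces of commuting involutions.
-/

namespace Pool.Agent.MP_3ce0a0_al.H79.X

open Equiv Module Finset Pool.Agent.MP_3ce0a0_al.H62.Inst

variable {H : Type} [AddCommGroup H] [Module ℂ H] [FiniteDimensional ℂ H] {f g : End ℂ H}
  {Q Q' : Submodule ℂ H}

section JE
variable {ι : Type} [DecidableEq ι] {x : ι → End ℂ H} {S : Finset ι}

/-- the sign of `a` in the pattern `I`. -/
def sgn (I : Finset ι) (a : ι) : ℂ := if a ∈ I then -1 else 1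

omit [FiniteDimensional ℂ H] in
lemma mem_JE' {I : Finset ι} {v : H} : v ∈ JE x S I ↔ ∀ a ∈ S, x a v = sgn I a • v := by
  simp only [JE, Submodule.mem_iInf, End.mem_eigenspace_iff, sgn]

lemma prod_sgn (I J : Finset ι) : ∏ a ∈ J, sgn I a = (-1) ^ (J ∩ I).card := by
  simp only [sgn]
  rw [prod_ite, prod_const, prod_const_one, mul_one, filter_mem_eq_inter]

lemma prod_sgn_ne {I J : Finset ι} (hI : I ⊆ S) (hJ : J ⊆ S) (h : J ≠ I) :
    ∏ a ∈ S, (1 + sgn I a * sgn J a) = 0 := by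
  by_contra h0
  refine h (Finset.ext fun a => ?_)
  by_cases ha : a ∈ S
  · have := (prod_ne_zero_iff.1 h0) a ha
    by_cases h1 : a ∈ I <;> by_cases h2 : a ∈ J <;> simp_all [sgn]
  · exact ⟨fun h => absurd (hJ h) ha, fun h => absurd (hI h) ha⟩

lemma prod_sgn_self (I : Finset ι) : ∏ a ∈ S, (1 + sgn I a * sgn I a) = 2 ^ S.card := by
  rw [← prod_const]
  refine prod_congr rfl fun a _ => ?_
  by_cases h : a ∈ I <;> simp [sgn, h, one_add_one_eq_two]

omit [FiniteDimensional ℂ H] [DecidableEq ι] in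
lemma list_prod_apply (y : ι → End ℂ H) (c : ι → ℂ) (v : H) (l : List ι)
    (h : ∀ a ∈ l, y a v = c a • v) : (l.map y).prod v = (l.map c).prod • v := by
  induction l with
  | nil => simp
  | cons a l ih =>
    rw [List.map_cons, List.prod_cons, List.map_cons, List.prod_cons, End.mul_apply,
      ih fun b hb => h b (List.mem_cons_of_mem _ hb), map_smul, h a List.mem_cons_self,
      smul_smul, mul_comm]

omit [FiniteDimensional ℂ H] in
lemma JE_indep (x : ι → End ℂ H) (S : Finset ι) :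
    iSupIndep fun I : {I // I ∈ S.powerset} => JE x S I.1 := by
  intro I
  let P : End ℂ H := (S.toList.map fun a => 1 + sgn I.1 a • x a).prod
  have hP : ∀ (J : Finset ι), ∀ v ∈ JE x S J,
      P v = (∏ a ∈ S, (1 + sgn I.1 a * sgn J a)) • v := fun J v hv => by
    rw [← prod_map_toList]
    refine list_prod_apply _ _ v _ fun a ha => ?_
    rw [LinearMap.add_apply, LinearMap.smul_apply, mem_JE'.1 hv a (mem_toList.1 ha), smul_smul,
      add_smul, one_smul, End.one_apply]
  have hk : (⨆ J : {I // I ∈ S.powerset}, ⨆ (_ : J ≠ I), JE x S J.1) ≤ LinearMap.ker P :=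
    iSup₂_le fun J hJ v hv => by
      rw [LinearMap.mem_ker, hP J.1 v hv, prod_sgn_ne (mem_powerset.1 I.2) (mem_powerset.1 J.2)
        fun e => hJ (Subtype.ext e), zero_smul]
  rw [Submodule.disjoint_def]
  intro v h1 h2
  have h3 := LinearMap.mem_ker.1 (hk h2)
  rw [hP I.1 v h1, prod_sgn_self] at h3
  exact (smul_eq_zero.1 h3).resolve_left (pow_ne_zero _ two_ne_zero)

omit [FiniteDimensional ℂ H] in
lemma JE_union {S T I J : Finset ι} (d : Disjoint S T) (hI : I ⊆ S) (hJ : J ⊆ T) :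
    JE x S I ⊓ JE x T J = JE x (S ∪ T) (I ∪ J) := by
  have e1 : ∀ a ∈ S, sgn (I ∪ J) a = sgn I a := fun a ha => by
    have : a ∉ J := fun h => disjoint_left.1 d ha (hJ h)
    simp [sgn, this]
  have e2 : ∀ a ∈ T, sgn (I ∪ J) a = sgn J a := fun a ha => by
    have : a ∉ I := fun h => disjoint_left.1 d (hI h) ha
    simp [sgn, this]
  ext v
  rw [Submodule.mem_inf, mem_JE', mem_JE', mem_JE']
  constructor
  · rintro ⟨h1, h2⟩ a ha
    rcases mem_union.1 ha with h | h
    · rw [e1 a h, h1 a h]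
    · rw [e2 a h, h2 a h]
  · intro h
    exact ⟨fun a ha => by rw [h a (mem_union_left _ ha), e1 a ha],
      fun a ha => by rw [h a (mem_union_right _ ha), e2 a ha]⟩

omit [FiniteDimensional ℂ H] in
/-- commuting involutions split an invariant subspace. -/
lemma JE_iSup (h1 : ∀ a ∈ S, ∀ v ∈ Q, x a (x a v) = v)
    (h2 : ∀ a ∈ S, ∀ b ∈ S, ∀ v ∈ Q, x a (x b v) = x b (x a v)) (h3 : ∀ a ∈ S, Keeps (x a) Q) :
    ⨆ I : {I // I ∈ S.powerset}, Q ⊓ JE x S I.1 = Q := by
  refine le_antisymm (iSup_le fun _ => inf_le_left) ?_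
  induction S using Finset.induction_on generalizing Q with
  | empty =>
    exact le_iSup_of_le ⟨∅, by simp⟩ (le_inf le_rfl fun v _ => mem_JE'.2 (by simp))
  | insert a S ha ih =>
    have key : ∀ c : ℂ, Q ⊓ End.eigenspace (x a) c ≤
        ⨆ I : {I // I ∈ S.powerset}, (Q ⊓ End.eigenspace (x a) c) ⊓ JE x S I.1 := fun c =>
      ih (fun b hb v hv => h1 b (mem_insert_of_mem hb) v hv.1)
        (fun b hb d hd v hv => h2 b (mem_insert_of_mem hb) d (mem_insert_of_mem hd) v hv.1)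
        fun b hb v hv => ⟨h3 b (mem_insert_of_mem hb) v hv.1, End.mem_eigenspace_iff.2 (by
          rw [h2 a (mem_insert_self _ _) b (mem_insert_of_mem hb) v hv.1,
            End.mem_eigenspace_iff.1 hv.2, map_smul])⟩
    have kp : Q ⊓ End.eigenspace (x a) 1 ≤
        ⨆ I : {I // I ∈ (insert a S).powerset}, Q ⊓ JE x (insert a S) I.1 :=
      (key 1).trans (iSup_le fun I => le_iSup_of_le
        ⟨I.1, mem_powerset.2 ((mem_powerset.1 I.2).trans (subset_insert _ _))⟩ fun v hv =>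
          ⟨hv.1.1, mem_JE'.2 fun b hb => by
            rcases mem_insert.1 hb with rfl | hb
            · have : b ∉ I.1 := fun h => ha (mem_powerset.1 I.2 h)
              rw [End.mem_eigenspace_iff.1 hv.1.2, sgn, if_neg this]
            · exact mem_JE'.1 hv.2 b hb⟩)
    have km : Q ⊓ End.eigenspace (x a) (-1) ≤
        ⨆ I : {I // I ∈ (insert a S).powerset}, Q ⊓ JE x (insert a S) I.1 :=
      (key (-1)).trans (iSup_le fun I => le_iSup_of_le
        ⟨insert a I.1, mem_powerset.2 (insert_subset_insert _ (mem_powerset.1 I.2))⟩ fun v hv =>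
          ⟨hv.1.1, mem_JE'.2 fun b hb => by
            rcases mem_insert.1 hb with rfl | hb
            · rw [End.mem_eigenspace_iff.1 hv.1.2, sgn, if_pos (mem_insert_self _ _)]
            · have : b ≠ a := fun e => ha (e ▸ hb)
              rw [mem_JE'.1 hv.2 b hb]
              simp [sgn, this]⟩)
    intro v hv
    have ha' := mem_insert_self a S
    have e : v = (2 : ℂ)⁻¹ • (v + x a v) + (2 : ℂ)⁻¹ • (v - x a v) := by module
    rw [e]
    refine add_mem (Submodule.smul_mem _ _ (kp ⟨add_mem hv (h3 a ha' v hv), ?_⟩))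
      (Submodule.smul_mem _ _ (km ⟨sub_mem hv (h3 a ha' v hv), ?_⟩))
    · exact End.mem_eigenspace_iff.2 (by rw [map_add, h1 a ha' v hv, one_smul, add_comm])
    · exact End.mem_eigenspace_iff.2 (by rw [map_sub, h1 a ha' v hv, neg_one_smul, neg_sub])

omit [FiniteDimensional ℂ H] in
lemma JE_indep' (Q : Submodule ℂ H) (x : ι → End ℂ H) (S : Finset ι) :
    iSupIndep fun I : {I // I ∈ S.powerset} => Q ⊓ JE x S I.1 :=
  (JE_indep x S).mono fun _ => inf_le_right

lemma JE_sum (h1 : ∀ a ∈ S, ∀ v ∈ Q, x a (x a v) = v)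
    (h2 : ∀ a ∈ S, ∀ b ∈ S, ∀ v ∈ Q, x a (x b v) = x b (x a v)) (h3 : ∀ a ∈ S, Keeps (x a) Q) :
    ∑ I ∈ S.powerset, finrank ℂ (Q ⊓ JE x S I : Submodule ℂ H) = finrank ℂ Q := by
  rw [← sum_coe_sort, ← finrank_iSup (JE_indep' Q x S), JE_iSup h1 h2 h3]

open Classical in
lemma JE_trOn (h1 : ∀ a ∈ S, ∀ v ∈ Q, x a (x a v) = v)
    (h2 : ∀ a ∈ S, ∀ b ∈ S, ∀ v ∈ Q, x a (x b v) = x b (x a v)) (h3 : ∀ a ∈ S, Keeps (x a) Q)
    (φ : Finset ι → Finset ι) (h4 : ∀ I ⊆ S, φ I ⊆ S)
    (h5 : ∀ I ⊆ S, ∀ v ∈ Q ⊓ JE x S I, f v ∈ Q ⊓ JE x S (φ I)) :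
    trOn f Q = ∑ I ∈ S.powerset with φ I = I, trOn f (Q ⊓ JE x S I) := by
  have := trOn_iSup (f := f) (JE_indep' Q x S)
    (fun I => ⟨φ I.1, mem_powerset.2 (h4 _ (mem_powerset.1 I.2))⟩)
    fun I => h5 I.1 (mem_powerset.1 I.2)
  rw [JE_iSup h1 h2 h3] at this
  rw [this, sum_filter, sum_filter, ← sum_coe_sort S.powerset]
  refine sum_congr rfl fun I _ => ?_
  by_cases h : φ I.1 = I.1
  · rw [if_pos h, if_pos (Subtype.ext h)]
  · rw [if_neg h, if_neg fun e => h (congrArg Subtype.val e)]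

/-- a family of patterns that occur is not larger than the dimension. -/
lemma JE_card_le (T : Finset (Finset ι)) (h : ∀ I ∈ T, I ⊆ S ∧ Q ⊓ JE x S I ≠ ⊥) :
    T.card ≤ finrank ℂ Q := by
  have h1 : finrank ℂ (⨆ I : {I // I ∈ S.powerset}, Q ⊓ JE x S I.1 : Submodule ℂ H) ≤
      finrank ℂ Q := Submodule.finrank_mono (iSup_le fun _ => inf_le_left)
  rw [finrank_iSup (JE_indep' Q x S),
    sum_coe_sort S.powerset fun I => finrank ℂ (Q ⊓ JE x S I : Submodule ℂ H)] at h1
  refine le_trans ?_ ((sum_le_sum_of_subset fun I hI => mem_powerset.2 (h I hI).1).trans h1)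
  rw [card_eq_sum_ones]
  exact sum_le_sum fun I hI =>
    Nat.one_le_iff_ne_zero.2 fun e => (h I hI).2 (Submodule.finrank_eq_zero.1 e)

lemma trOn_sum_keeps {κ : Type} (T : Finset κ) (y : κ → End ℂ H) (h : ∀ i ∈ T, Keeps (y i) Q) :
    Keeps (∑ i ∈ T, y i) Q ∧ trOn (∑ i ∈ T, y i) Q = ∑ i ∈ T, trOn (y i) Q := by
  classical
  induction T using Finset.induction_on with
  | empty =>
    rw [sum_empty, sum_empty]
    exact ⟨fun v _ => Q.zero_mem, by rw [trOn_scalar (c := 0) fun v _ => by simp, zero_mul]⟩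
  | insert a T ha ih =>
    obtain ⟨k, e⟩ := ih fun i hi => h i (mem_insert_of_mem hi)
    have k' := h a (mem_insert_self _ _)
    rw [sum_insert ha, sum_insert ha, trOn_add k' k, e]
    exact ⟨fun v hv => add_mem (k' v hv) (k v hv), rfl⟩

omit [FiniteDimensional ℂ H] in
lemma epJ_apply (r : Rep ι H) {K J : Finset ι} (hJ : J ⊆ S) {v : H} (hv : v ∈ Sec r S K) :
    r (epJ J) v = (∏ a ∈ J, sgn K a) • v := by
  induction J using Finset.induction_on with
  | empty => rw [epJ_empty, map_one, prod_empty, one_smul, End.one_apply]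
  | insert a J ha ih =>
    rw [epJ_insert ha, map_mul, End.mul_apply, ih ((subset_insert _ _).trans hJ), map_smul,
      mem_JE'.1 hv a (hJ (mem_insert_self _ _)), prod_insert ha, smul_smul, mul_comm]

omit [FiniteDimensional ℂ H] in
lemma keeps_epJ (r : Rep ι H) {J : Finset ι} (h : ∀ a ∈ J, Keeps (r (ep a)) Q) :
    Keeps (r (epJ J)) Q := by
  induction J using Finset.induction_on with
  | empty => rw [epJ_empty, map_one]; exact fun v hv => hv
  | insert a J ha ih =>
    rw [epJ_insert ha, map_mul]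
    exact (h a (mem_insert_self _ _)).mul (ih fun b hb => h b (mem_insert_of_mem hb))

omit [FiniteDimensional ℂ H] in
lemma r_ep_ep (r : Rep ι H) (a : ι) (v : H) : r (ep a) (r (ep a) v) = v := by
  rw [← End.mul_apply, ← map_mul, ep_sq, map_one, End.one_apply]

omit [FiniteDimensional ℂ H] in
lemma r_ep_comm (r : Rep ι H) (a b : ι) (v : H) :
    r (ep a) (r (ep b) v) = r (ep b) (r (ep a) v) := by
  rw [← End.mul_apply, ← map_mul, (ep_comm a b).eq, map_mul, End.mul_apply]

/-- the Fourier formula for sectors. -/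
lemma Sec_fourier (r : Rep ι H) (S I : Finset ι) (hI : I ⊆ S) (h1 : ∀ a ∈ S, Keeps (r (ep a)) Q)
    (h2 : Keeps f Q) (h3 : Keeps f (Sec r S I)) :
    2 ^ S.card * trOn f (Q ⊓ Sec r S I) =
      ∑ J ∈ S.powerset, (-1) ^ (J ∩ I).card * trOn (f * r (epJ J)) Q := by
  classical
  have kJ : ∀ J ∈ S.powerset, Keeps (f * r (epJ J)) Q := fun J hJ =>
    h2.mul (keeps_epJ r fun a ha => h1 a (mem_powerset.1 hJ ha))
  let y : Finset ι → End ℂ H := fun J => ((-1 : ℂ) ^ (J ∩ I).card) • (f * r (epJ J))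
  have hs := (trOn_sum_keeps (Q := Q) S.powerset y fun J hJ v hv => Q.smul_mem _ (kJ J hJ v hv)).2
  have hR : ∑ J ∈ S.powerset, (-1) ^ (J ∩ I).card * trOn (f * r (epJ J)) Q =
      trOn (∑ J ∈ S.powerset, y J) Q := by
    rw [hs]
    exact sum_congr rfl fun J hJ => (trOn_smul (kJ J hJ) _).symm
  have hy : ∀ K : Finset ι, ∀ v ∈ Sec r S K, (∑ J ∈ S.powerset, y J) v =
      (∏ a ∈ S, (1 + sgn I a * sgn K a)) • f v := fun K v hv => by
    rw [prod_one_add, LinearMap.sum_apply, sum_smul]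
    refine sum_congr rfl fun J hJ => ?_
    rw [LinearMap.smul_apply, End.mul_apply, epJ_apply r (mem_powerset.1 hJ) hv, map_smul,
      smul_smul, ← prod_sgn, prod_mul_distrib]
  have h0 : ∀ K ⊆ S, K ≠ I → ∀ v ∈ Sec r S K, (∑ J ∈ S.powerset, y J) v = 0 :=
    fun K hK hne v hv => by rw [hy K v hv, prod_sgn_ne hI hK hne, zero_smul]
  rw [hR, JE_trOn (x := fun a => r (ep a)) (S := S) (fun a _ v _ => r_ep_ep r a v)
    (fun a _ b _ v _ => r_ep_comm r a b v) h1 id (fun _ h => h) fun K hK v hv => ?_,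
    sum_eq_single_of_mem I (by simpa using hI) fun K hK hne => ?_]
  · rw [← trOn_smul (h2.inf h3)]
    exact trOn_congr fun v hv => by rw [hy I v hv.2, prod_sgn_self, LinearMap.smul_apply]
  · rw [trOn_scalar (c := 0) fun v hv => ?_, zero_mul]
    rw [h0 K (mem_powerset.1 (mem_filter.1 hK).1) hne v hv.2, zero_smul]
  · by_cases e : K = I
    · subst e
      rw [hy K v hv.2]
      exact Submodule.smul_mem _ _ ((h2.inf h3) v hv)
    · rw [h0 K hK e v hv.2]
      exact Submodule.zero_mem _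

omit [FiniteDimensional ℂ H] in
lemma r_pm_inv (r : Rep ι H) (σ : Perm ι) : r (pm σ⁻¹) * r (pm σ) = 1 := by
  rw [← map_mul, ← map_mul, inv_mul_cancel, map_one, map_one]

omit [FiniteDimensional ℂ H] in
lemma Sec_map (r : Rep ι H) (σ : Perm ι) (S I : Finset ι) :
    (Sec r S I).map (r (pm σ)) = Sec r (S.map σ.toEmbedding) (I.map σ.toEmbedding) := by
  have e1 : ∀ v, r (pm σ⁻¹) (r (pm σ) v) = v := fun v => by
    rw [← End.mul_apply, r_pm_inv, End.one_apply]
  have e2 : ∀ v, r (pm σ) (r (pm σ⁻¹) v) = v := fun v => by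
    have := r_pm_inv r σ⁻¹
    rw [inv_inv] at this
    rw [← End.mul_apply, this, End.one_apply]
  have e3 : ∀ a v, r (ep (σ a)) (r (pm σ) v) = r (pm σ) (r (ep a) v) := fun a v => by
    rw [← End.mul_apply, ← map_mul, ← pm_ep, map_mul, End.mul_apply]
  have e4 : ∀ a, sgn (I.map σ.toEmbedding) (σ a) = sgn I a := fun a => by simp [sgn]
  have key : ∀ v, r (pm σ) v ∈ Sec r (S.map σ.toEmbedding) (I.map σ.toEmbedding) ↔
      v ∈ Sec r S I := fun v => by
    rw [Sec, Sec, mem_JE', mem_JE']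
    constructor
    · intro h a ha
      have := h (σ a) (mem_map_of_mem _ ha)
      rw [e3, e4, ← map_smul] at this
      rw [← e1 (r (ep a) v), this, e1]
    · intro h b hb
      obtain ⟨a, ha, rfl⟩ := mem_map.1 hb
      change r (ep (σ a)) _ = sgn _ (σ a) • _
      rw [e3, e4, h a ha, map_smul]
  ext w
  constructor
  · rintro ⟨v, hv, rfl⟩
    exact (key v).2 hv
  · intro hw
    exact ⟨r (pm σ⁻¹) w, (key _).1 (by rwa [e2]), e2 w⟩

variable [Fintype ι]

omit [FiniteDimensional ℂ H] in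
lemma mu_congr (r : Rep ι H) {I J : Finset ι} (h : I.card = J.card) : mu r I = mu r J := by
  obtain ⟨σ, rfl⟩ := Equiv.Perm.exists_map_finset_eq I J h
  rw [mu, mu, ← finrank_map_unit (r_pm_inv r σ), Sec_map, map_univ_equiv]

lemma choose_mul_mu_le (r : Rep ι H) (I : Finset ι) :
    (Fintype.card ι).choose I.card * mu r I ≤ finrank ℂ H := by
  have h := JE_sum (x := fun a => r (ep a)) (S := univ) (Q := ⊤) (fun a _ v _ => r_ep_ep r a v)
    (fun a _ b _ v _ => r_ep_comm r a b v) fun a _ v _ => Submodule.mem_top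
  rw [finrank_top] at h
  rw [← h, ← card_univ, ← card_powersetCard, ← smul_eq_mul, ← sum_const]
  refine le_trans (le_of_eq (sum_congr rfl fun J hJ => ?_))
    (sum_le_sum_of_subset fun J hJ => mem_powerset.2 (mem_powersetCard.1 hJ).1)
  rw [top_inf_eq, mu_congr r (mem_powersetCard.1 hJ).2.symm]
  rfl

omit [FiniteDimensional ℂ H] in
/-- a sector is the sum of the full sectors above it. -/
lemma Sec_eq_iSup (r : Rep ι H) {S I : Finset ι} (h : I ⊆ S) :
    Sec r S I = ⨆ J : {J // J ∈ Sᶜ.powerset}, Sec r univ (I ∪ J.1) := by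
  rw [← JE_iSup (x := fun a => r (ep a)) (S := Sᶜ) (Q := Sec r S I) (fun a _ v _ => r_ep_ep r a v)
    (fun a _ b _ v _ => r_ep_comm r a b v) fun a _ => keeps_Sec r I fun b _ => ep_comm a b]
  refine iSup_congr fun J => ?_
  rw [Sec, JE_union disjoint_compl_right h (mem_powerset.1 J.2), union_compl]
  rfl

end JE

end Pool.Agent.MP_3ce0a0_al.H79.X
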