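import Mathlib

namespace Pool.Agent.MP_3ce0a0_al.H79

/-- The group of inner automorphisms of `G`. -/
def Inn (G : Type) [Group G] : Subgroup (MulAut G) := (MulAut.conj : G →* MulAut G).range

instance Inn.normal (G : Type) [Group G] : (Inn G).Normal where
  conj_mem := by
    rintro _ ⟨x, rfl⟩ g
    exact ⟨g x, by ext y; simp⟩

/-- The outer automorphism group `Aut G / Inn G`. -/
abbrev Out (G : Type) [Group G] : Type := MulAut G ⧸ Inn G

end Pool.Agent.MP_3ce0a0_al.H79
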