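import Pool.Agent.MP_3ce0a0_al.H79.XD

/-
Traces on subspaces and joint eigenspaces.
-/

namespace Pool.Agent.MP_3ce0a0_al.H79.X

open Equiv Module Finset Pool.Agent.MP_3ce0a0_al.H62.Inst

variable {H : Type} [AddCommGroup H] [Module ℂ H] {f g : End ℂ H} {Q Q' : Submodule ℂ H}

lemma Keeps.mul (h : Keeps f Q) (k : Keeps g Q) : Keeps (f * g) Q := fun v hv => h _ (k v hv)

lemma Keeps.inf (h : Keeps f Q) (k : Keeps f Q') : Keeps f (Q ⊓ Q') :=
  fun v hv => ⟨h v hv.1, k v hv.2⟩

lemma Keeps.sup (h : Keeps f Q) (k : Keeps f Q') : Keeps f (Q ⊔ Q') := by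
  intro v hv
  obtain ⟨a, ha, b, hb, rfl⟩ := Submodule.mem_sup.1 hv
  rw [map_add]
  exact Submodule.add_mem_sup (h a ha) (k b hb)

lemma Keeps.iSup {κ : Sort*} {P : κ → Submodule ℂ H} (h : ∀ i, Keeps f (P i)) :
    Keeps f (⨆ i, P i) := by
  intro v hv
  refine Submodule.iSup_induction P (motive := fun v => f v ∈ ⨆ i, P i) hv ?_ ?_ ?_
  · intro i x hx
    exact Submodule.mem_iSup_of_mem i (h i x hx)
  · rw [map_zero]
    exact zero_mem _
  · intro x y hx hy
    rw [map_add]
    exact add_mem hx hy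

lemma keeps_one (Q : Submodule ℂ H) : Keeps (1 : End ℂ H) Q := fun _ hv => hv

lemma keeps_top (f : End ℂ H) : Keeps f ⊤ := fun _ _ => Submodule.mem_top

lemma Keeps.add (h : Keeps f Q) (k : Keeps g Q) : Keeps (f + g) Q :=
  fun v hv => add_mem (h v hv) (k v hv)

lemma Keeps.sub (h : Keeps f Q) (k : Keeps g Q) : Keeps (f - g) Q :=
  fun v hv => sub_mem (h v hv) (k v hv)

lemma Keeps.smul (h : Keeps f Q) (c : ℂ) : Keeps (c • f) Q :=
  fun v hv => Q.smul_mem c (h v hv)

lemma Keeps.pow (h : Keeps f Q) (k : ℕ) : Keeps (f ^ k) Q := by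
  induction k with
  | zero => rw [pow_zero]; exact keeps_one Q
  | succ k ih => rw [pow_succ]; exact ih.mul h

lemma Keeps.adjoin {X : Set (End ℂ H)} (h : ∀ x ∈ X, Keeps x Q) (hf : f ∈ Algebra.adjoin ℂ X) :
    Keeps f Q := by
  induction hf using Algebra.adjoin_induction with
  | mem x hx => exact h x hx
  | algebraMap c =>
    intro v hv
    rw [Module.algebraMap_end_apply]
    exact Q.smul_mem c hv
  | add x y _ _ hx hy => exact hx.add hy
  | mul x y _ _ hx hy => exact hx.mul hy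

lemma Keeps.aeval (h : Keeps f Q) (p : Polynomial ℂ) : Keeps (Polynomial.aeval f p) Q :=
  Keeps.adjoin (X := {f}) (fun x hx => by rw [Set.mem_singleton_iff.1 hx]; exact h)
    (Polynomial.aeval_mem_adjoin_singleton ℂ f)

lemma keeps_eig (h : Commute f g) (c : ℂ) : Keeps f (End.eigenspace g c) := by
  intro v hv
  rw [End.mem_eigenspace_iff] at hv ⊢
  rw [← End.mul_apply, ← h.eq, End.mul_apply, hv, map_smul]

lemma keeps_JE {ι : Type} [DecidableEq ι] {x : ι → End ℂ H} {S : Finset ι} (I : Finset ι)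
    (h : ∀ a ∈ S, Commute f (x a)) : Keeps f (JE x S I) := by
  intro v hv
  simp only [JE, Submodule.mem_iInf] at hv ⊢
  exact fun a ha => keeps_eig (h a ha) _ v (hv a ha)

lemma keeps_Sec {ι : Type} [DecidableEq ι] (r : Rep ι H) {S : Finset ι} (I : Finset ι) {α : A ι}
    (h : ∀ a ∈ S, Commute α (ep a)) : Keeps (r α) (Sec r S I) :=
  keeps_JE I fun a ha => (h a ha).map r

lemma Uni.on (h : Uni f) (Q : Submodule ℂ H) : UniOn f Q := by
  obtain ⟨k, hk⟩ := h
  exact ⟨k, fun v _ => by rw [hk]; rfl⟩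

lemma uniOn_top : UniOn f ⊤ ↔ Uni f :=
  ⟨fun ⟨k, hk⟩ => ⟨k, LinearMap.ext fun v => hk v Submodule.mem_top⟩, fun h => h.on ⊤⟩

lemma UniOn.mono (h : UniOn f Q) (k : Q' ≤ Q) : UniOn f Q' := by
  obtain ⟨n, hn⟩ := h
  exact ⟨n, fun v hv => hn v (k hv)⟩

lemma pow_apply_zero_of_le {a : End ℂ H} {k m : ℕ} (le : k ≤ m) {v : H} (e : (a ^ k) v = 0) :
    (a ^ m) v = 0 := by
  obtain ⟨d, rfl⟩ := Nat.exists_eq_add_of_le' le
  rw [pow_add, End.mul_apply, e, map_zero]

lemma UniOn.mul (h : UniOn f Q) (k : UniOn g Q) (c : Commute f g) (hg : Keeps g Q) :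
    UniOn (f * g) Q := by
  obtain ⟨n, hn⟩ := h
  obtain ⟨m, hm⟩ := k
  have c1 : Commute (f - 1) g := c.sub_left (Commute.one_left g)
  have c2 : Commute ((f - 1) * g) (g - 1) :=
    (c1.sub_right (Commute.one_right _)).mul_left ((Commute.refl g).sub_right (Commute.one_right g))
  have e : f * g - 1 = (f - 1) * g + (g - 1) := by noncomm_ring
  refine ⟨n + m, fun v hv => ?_⟩
  rw [e, c2.add_pow', LinearMap.sum_apply]
  refine Finset.sum_eq_zero fun x hx => ?_
  have hx' : x.1 + x.2 = n + m := by simpa using hx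
  rw [LinearMap.smul_apply, End.mul_apply]
  by_cases l : m ≤ x.2
  · rw [pow_apply_zero_of_le l (hm v hv), map_zero, smul_zero]
  · have l' : n ≤ x.1 := by omega
    rw [c1.mul_pow, End.mul_apply,
      pow_apply_zero_of_le l' (hn _ (hg.pow _ _ ((hg.sub (keeps_one Q)).pow _ v hv))), smul_zero]

lemma Uni.mul (h : Uni f) (k : Uni g) (c : Commute f g) : Uni (f * g) :=
  uniOn_top.1 ((h.on ⊤).mul (k.on ⊤) c (keeps_top g))

lemma Uni.conj (h : Uni f) {u u' : End ℂ H} (e : u' * u = 1) (e' : u * u' = 1) :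
    Uni (u * f * u') := by
  obtain ⟨k, hk⟩ := h
  have p : ∀ n : ℕ, (u * f * u' - 1) ^ n = u * (f - 1) ^ n * u' := by
    intro n
    induction n with
    | zero => rw [pow_zero, pow_zero, mul_one, e']
    | succ n ih =>
      have q : u * f * u' - 1 = u * (f - 1) * u' := by rw [mul_sub, sub_mul, mul_one, e']
      rw [pow_succ, ih, q, pow_succ]
      calc u * (f - 1) ^ n * u' * (u * (f - 1) * u')
          = u * (f - 1) ^ n * (u' * u) * (f - 1) * u' := by simp only [mul_assoc]
        _ = _ := by rw [e, mul_one]; simp only [mul_assoc]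
  exact ⟨k, by rw [p, hk, mul_zero, zero_mul]⟩

lemma Uni.inv (h : Uni f) (e : f * g = 1) (e' : g * f = 1) : Uni g := by
  have c : Commute g f := e'.trans e.symm
  have q : g - 1 = -(g * (f - 1)) := by rw [mul_sub, e', mul_one, neg_sub]
  unfold Uni
  rw [q]
  exact ((c.sub_right (Commute.one_right g)).isNilpotent_mul_left h).neg

lemma UniOn.eig (h : UniOn f Q) {v : H} (hv : v ∈ Q) {c : ℂ} (e : f v = c • v) (hc : c ≠ 1) :
    v = 0 := by
  obtain ⟨k, hk⟩ := h
  have p : ∀ n : ℕ, ((f - 1) ^ n) v = (c - 1) ^ n • v := by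
    intro n
    induction n with
    | zero => simp
    | succ n ih =>
      rw [pow_succ', End.mul_apply, ih, map_smul, LinearMap.sub_apply, e, End.one_apply, pow_succ,
        mul_smul, sub_smul, one_smul]
  have := hk v hv
  rw [p] at this
  exact (smul_eq_zero.1 this).resolve_left (pow_ne_zero _ (sub_ne_zero.2 hc))

/-- unipotent and of finite order. -/
lemma UniOn.eq_of_pow (h : UniOn f Q) (hf : Keeps f Q) {k : ℕ} (hk : 0 < k)
    (e : ∀ v ∈ Q, (f ^ k) v = v) : ∀ v ∈ Q, f v = v := by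
  obtain ⟨n, hn⟩ := h
  have two : ∀ u ∈ Q, (f - 1) ((f - 1) u) = 0 → (f - 1) u = 0 := by
    intro u hu h2
    set w := (f - 1) u with hw
    have fw : f w = w := by simpa [sub_eq_zero] using h2
    have fu : f u = u + w := by simp [hw]
    have p : ∀ j : ℕ, (f ^ j) u = u + (j : ℂ) • w := by
      intro j
      induction j with
      | zero => simp
      | succ j ih =>
        rw [pow_succ', End.mul_apply, ih, map_add, map_smul, fw, fu, Nat.cast_succ, add_smul,
          one_smul]
        abel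
    have q := e u hu
    rw [p, add_eq_left] at q
    exact (smul_eq_zero.1 q).resolve_left (Nat.cast_ne_zero.2 hk.ne')
  have key : ∀ m : ℕ, ∀ v ∈ Q, ((f - 1) ^ m) v = 0 → (f - 1) v = 0 := by
    intro m
    induction m with
    | zero =>
      intro v _ hv
      rw [pow_zero, End.one_apply] at hv
      rw [hv, map_zero]
    | succ m ih =>
      intro v hv h0
      rw [pow_succ, End.mul_apply] at h0
      exact two v hv (ih _ (hf.sub (keeps_one Q) v hv) h0)
  intro v hv
  simpa [sub_eq_zero] using key n v hv (hn v hv)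

lemma trOn_eq (h : Keeps f Q) : trOn f Q = LinearMap.trace ℂ Q (f.restrict h) := dif_pos h

lemma trOn_not (h : ¬ Keeps f Q) : trOn f Q = 0 := dif_neg h

lemma re_mul_nat (z : ℂ) (n : ℕ) : (z * n).re = z.re * n := by simp

lemma trOn_top : trOn f ⊤ = LinearMap.trace ℂ H f := by
  rw [trOn_eq (keeps_top f), ← LinearMap.trace_conj' _ (Submodule.topEquiv (R := ℂ) (M := H))]
  refine congrArg _ (LinearMap.ext fun v => ?_)
  rfl

lemma trOn_bot : trOn f ⊥ = 0 := by
  have h : Keeps f ⊥ := fun v hv => by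
    rw [(Submodule.mem_bot ℂ).1 hv, map_zero]
    exact zero_mem _
  rw [trOn_eq h, Subsingleton.elim (f.restrict h) 0, map_zero]

lemma trOn_congr (e : ∀ v ∈ Q, f v = g v) : trOn f Q = trOn g Q := by
  by_cases h : Keeps f Q
  · have k : Keeps g Q := fun v hv => e v hv ▸ h v hv
    rw [trOn_eq h, trOn_eq k]
    exact congrArg _ (LinearMap.ext fun v => Subtype.ext (e v v.2))
  · have k : ¬ Keeps g Q := fun k => h fun v hv => (e v hv).symm ▸ k v hv
    rw [trOn_not h, trOn_not k]

lemma trOn_add (h : Keeps f Q) (k : Keeps g Q) : trOn (f + g) Q = trOn f Q + trOn g Q := by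
  rw [trOn_eq h, trOn_eq k, trOn_eq (h.add k), ← map_add]
  exact congrArg _ (LinearMap.ext fun v => Subtype.ext rfl)

lemma trOn_sub (h : Keeps f Q) (k : Keeps g Q) : trOn (f - g) Q = trOn f Q - trOn g Q := by
  rw [trOn_eq h, trOn_eq k, trOn_eq (h.sub k), ← map_sub]
  exact congrArg _ (LinearMap.ext fun v => Subtype.ext rfl)

lemma trOn_smul (h : Keeps f Q) (c : ℂ) : trOn (c • f) Q = c * trOn f Q := by
  rw [trOn_eq h, trOn_eq (h.smul c), ← smul_eq_mul, ← map_smul]
  exact congrArg _ (LinearMap.ext fun v => Subtype.ext rfl)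

lemma trOn_mul_comm (h : Keeps f Q) (k : Keeps g Q) : trOn (f * g) Q = trOn (g * f) Q := by
  rw [trOn_eq (h.mul k), trOn_eq (k.mul h)]
  have a : (f * g).restrict (h.mul k) = f.restrict h * g.restrict k :=
    LinearMap.ext fun v => Subtype.ext rfl
  have b : (g * f).restrict (k.mul h) = g.restrict k * f.restrict h :=
    LinearMap.ext fun v => Subtype.ext rfl
  rw [a, b, LinearMap.trace_mul_comm]

lemma trOn_zero : trOn (0 : End ℂ H) Q = 0 := by
  have h : Keeps (0 : End ℂ H) Q := fun _ _ => zero_mem _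
  have a : (0 : End ℂ H).restrict h = 0 := LinearMap.ext fun v => Subtype.ext rfl
  rw [trOn_eq h, a, map_zero]

lemma trOn_sum {κ : Type} (s : Finset κ) {F : κ → End ℂ H} (h : ∀ i ∈ s, Keeps (F i) Q) :
    trOn (∑ i ∈ s, F i) Q = ∑ i ∈ s, trOn (F i) Q := by
  classical
  induction s using Finset.induction_on with
  | empty => rw [Finset.sum_empty, Finset.sum_empty, trOn_zero]
  | insert a s ha ih =>
    have h' : ∀ i ∈ s, Keeps (F i) Q := fun i hi => h i (Finset.mem_insert_of_mem hi)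
    have k : Keeps (∑ i ∈ s, F i) Q := fun v hv => by
      rw [LinearMap.sum_apply]
      exact Q.sum_mem fun i hi => h' i hi v hv
    rw [Finset.sum_insert ha, Finset.sum_insert ha, trOn_add (h a (Finset.mem_insert_self a s)) k,
      ih h']

lemma inj_of_unit {u u' : End ℂ H} (e : u' * u = 1) : Function.Injective u :=
  Function.LeftInverse.injective (g := u') fun v => by rw [← End.mul_apply, e, End.one_apply]

lemma trOn_conj {u u' : End ℂ H} (e : u' * u = 1) (e' : u * u' = 1) :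
    trOn (u * f * u') (Q.map u) = trOn f Q := by
  have i : ∀ v, u' (u v) = v := fun v => by rw [← End.mul_apply, e, End.one_apply]
  have _ := e'
  by_cases h : Keeps f Q
  · have k : Keeps (u * f * u') (Q.map u) := by
      rintro _ ⟨v, hv, rfl⟩
      exact ⟨f v, h v hv, by rw [End.mul_apply, End.mul_apply, i]⟩
    rw [trOn_eq h, trOn_eq k,
      ← LinearMap.trace_conj' _ (Submodule.equivMapOfInjective u (inj_of_unit e) Q)]
    refine congrArg _ (LinearMap.ext fun w => ?_)
    obtain ⟨v, rfl⟩ := (Submodule.equivMapOfInjective u (inj_of_unit e) Q).surjective w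
    rw [LinearEquiv.conj_apply_apply, LinearEquiv.symm_apply_apply]
    refine Subtype.ext ?_
    change u (f (u' (u v))) = u (f v)
    rw [i]
  · have k : ¬ Keeps (u * f * u') (Q.map u) := fun k => h fun v hv => by
      obtain ⟨w, hw, q⟩ := k (u v) ⟨v, hv, rfl⟩
      rw [End.mul_apply, End.mul_apply, i] at q
      exact inj_of_unit e q ▸ hw
    rw [trOn_not h, trOn_not k]

lemma finrank_map_unit {u u' : End ℂ H} (e : u' * u = 1) :
    finrank ℂ (Q.map u) = finrank ℂ Q :=
  (Submodule.equivMapOfInjective u (inj_of_unit e) Q).finrank_eq.symm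

lemma exists_proj (d : Disjoint Q Q') :
    ∃ p : End ℂ H, (∀ v, p v ∈ Q) ∧ (∀ v ∈ Q, p v = v) ∧ ∀ v ∈ Q', p v = 0 := by
  obtain ⟨C, le, hC⟩ := d.symm.exists_isCompl
  exact ⟨Q.projection C hC.symm, Submodule.projection_apply_mem _,
    fun v hv => Submodule.projection_apply_of_mem_left _ hv,
    fun v hv => Submodule.projection_apply_of_mem_right _ (le hv)⟩

/-- a vector killed by a split separable polynomial is a sum of eigenvectors. -/
lemma mem_iSup_eig (h : Keeps f Q) (s : Finset ℂ) : ∀ v ∈ Q,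
    Polynomial.aeval f (∏ z ∈ s, (Polynomial.X - Polynomial.C z)) v = 0 →
      v ∈ ⨆ z : s, Q ⊓ End.eigenspace f z := by
  classical
  induction s using Finset.induction_on with
  | empty =>
    intro v _ e
    rw [Finset.prod_empty, map_one, End.one_apply] at e
    rw [e]
    exact zero_mem _
  | insert a s ha ih =>
    intro v hv e
    rw [Finset.prod_insert ha] at e
    set P := ∏ z ∈ s, (Polynomial.X - Polynomial.C z) with hP
    have c0 : P.eval a ≠ 0 := by
      rw [hP, Polynomial.eval_prod]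
      refine Finset.prod_ne_zero_iff.2 fun z hz => ?_
      rw [Polynomial.eval_sub, Polynomial.eval_X, Polynomial.eval_C]
      exact sub_ne_zero.2 fun q => ha (q ▸ hz)
    obtain ⟨R, hR⟩ : Polynomial.X - Polynomial.C a ∣ P - Polynomial.C (P.eval a) :=
      Polynomial.dvd_iff_isRoot.2 (by simp)
    have m1 : Polynomial.aeval f P v ∈ ⨆ z : (insert a s : Finset ℂ), Q ⊓ End.eigenspace f z := by
      refine Submodule.mem_iSup_of_mem ⟨a, Finset.mem_insert_self a s⟩ ⟨h.aeval P v hv, ?_⟩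
      rw [map_mul, End.mul_apply, map_sub, Polynomial.aeval_X, Polynomial.aeval_C,
        LinearMap.sub_apply, Module.algebraMap_end_apply, sub_eq_zero] at e
      exact End.mem_eigenspace_iff.2 e
    have m2 : Polynomial.aeval f ((Polynomial.X - Polynomial.C a) * R) v ∈
        ⨆ z : (insert a s : Finset ℂ), Q ⊓ End.eigenspace f z := by
      have q := ih _ (h.aeval ((Polynomial.X - Polynomial.C a) * R) v hv) (by
        rw [← End.mul_apply, ← map_mul,
          show P * ((Polynomial.X - Polynomial.C a) * R) = R * ((Polynomial.X - Polynomial.C a) * P)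
            by ring, map_mul, End.mul_apply, e, map_zero])
      refine (iSup_le fun z : s => ?_ :
        (⨆ z : s, Q ⊓ End.eigenspace f z) ≤ _) q
      exact le_iSup (fun z : (insert a s : Finset ℂ) => Q ⊓ End.eigenspace f z)
        ⟨z, Finset.mem_insert_of_mem z.2⟩
    have q := sub_mem m1 m2
    rw [← hR, map_sub, LinearMap.sub_apply, sub_sub_cancel, Polynomial.aeval_C,
      Module.algebraMap_end_apply] at q
    exact (Submodule.smul_mem_iff _ c0).1 q

lemma eq_iSup_eig (h : Keeps f Q) (s : Finset ℂ)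
    (e : ∀ v ∈ Q, Polynomial.aeval f (∏ z ∈ s, (Polynomial.X - Polynomial.C z)) v = 0) :
    Q = ⨆ z : s, Q ⊓ End.eigenspace f z :=
  le_antisymm (fun v hv => mem_iSup_eig h s v hv (e v hv)) (iSup_le fun _ => inf_le_left)

lemma aeval_roots {k : ℕ} (hk : 0 < k) (e : ∀ v ∈ Q, (f ^ k) v = v) : ∀ v ∈ Q,
    Polynomial.aeval f (∏ z ∈ Polynomial.nthRootsFinset k (1 : ℂ),
      (Polynomial.X - Polynomial.C z)) v = 0 := by
  intro v hv
  rw [← Polynomial.X_pow_sub_one_eq_prod hk (Complex.isPrimitiveRoot_exp k hk.ne'), map_sub, map_pow,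
    Polynomial.aeval_X, map_one, LinearMap.sub_apply, e v hv, End.one_apply, sub_self]

variable [FiniteDimensional ℂ H]

lemma trOn_scalar {c : ℂ} (e : ∀ v ∈ Q, f v = c • v) : trOn f Q = c * finrank ℂ Q := by
  have h : Keeps f Q := fun v hv => (e v hv).symm ▸ Q.smul_mem c hv
  have a : f.restrict h = c • LinearMap.id := LinearMap.ext fun v => Subtype.ext (e v v.2)
  rw [trOn_eq h, a, map_smul, LinearMap.trace_id, smul_eq_mul]

lemma trOn_one : trOn (1 : End ℂ H) Q = finrank ℂ Q := by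
  rw [trOn_scalar (c := 1) fun v _ => (one_smul ℂ v).symm, one_mul]

lemma trOn_nil (h : Keeps f Q) {k : ℕ} (e : ∀ v ∈ Q, (f ^ k) v = 0) : trOn f Q = 0 := by
  rw [trOn_eq h]
  refine (LinearMap.isNilpotent_trace_of_isNilpotent ⟨k, ?_⟩).eq_zero
  rw [End.pow_restrict]
  exact LinearMap.ext fun v => Subtype.ext (e v v.2)

/-- a map of `Q` into a smaller subspace. -/
lemma trOn_of_range (le : Q' ≤ Q) (e : ∀ v ∈ Q, f v ∈ Q') : trOn f Q = trOn f Q' := by
  have h : Keeps f Q := fun v hv => le (e v hv)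
  have k : Keeps f Q' := fun v hv => e v (le hv)
  have a : f.restrict h = Submodule.inclusion le ∘ₗ f.restrict e :=
    LinearMap.ext fun v => Subtype.ext rfl
  have b : f.restrict k = f.restrict e ∘ₗ Submodule.inclusion le :=
    LinearMap.ext fun v => Subtype.ext rfl
  rw [trOn_eq h, trOn_eq k, a, b, LinearMap.trace_comp_comm']

lemma trOn_sup (h : Keeps f Q) (k : Keeps f Q') (d : Disjoint Q Q') :
    trOn f (Q ⊔ Q') = trOn f Q + trOn f Q' := by
  obtain ⟨p, p1, p2, p3⟩ := exists_proj d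
  have a : ∀ v ∈ Q ⊔ Q', (f * p) v ∈ Q := fun v _ => h _ (p1 v)
  have b : ∀ v ∈ Q ⊔ Q', (f * (1 - p)) v ∈ Q' := by
    intro v hv
    obtain ⟨x, hx, y, hy, rfl⟩ := Submodule.mem_sup.1 hv
    refine k _ ?_
    rw [LinearMap.sub_apply, End.one_apply, map_add, p2 x hx, p3 y hy, add_zero,
      add_sub_cancel_left]
    exact hy
  have c : f = f * p + f * (1 - p) := by noncomm_ring
  have a' : trOn (f * p) Q = trOn f Q := trOn_congr fun v hv => by rw [End.mul_apply, p2 v hv]
  have b' : trOn (f * (1 - p)) Q' = trOn f Q' := trOn_congr fun v hv => by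
    rw [End.mul_apply, LinearMap.sub_apply, End.one_apply, p3 v hv, sub_zero]
  rw [← a', ← b', ← trOn_of_range le_sup_left a, ← trOn_of_range le_sup_right b,
    ← trOn_add (fun v hv => Submodule.mem_sup_left (a v hv))
      (fun v hv => Submodule.mem_sup_right (b v hv)), ← c]

open Classical in
/-- a map that permutes independent subspaces. -/
lemma trOn_iSup {κ : Type} [Fintype κ] {P : κ → Submodule ℂ H} (d : iSupIndep P) (φ : κ → κ)
    (h : ∀ i, ∀ v ∈ P i, f v ∈ P (φ i)) :
    trOn f (⨆ i, P i) = ∑ i with φ i = i, trOn f (P i) := by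
  choose p p1 p2 p3 using fun i => exists_proj (d i)
  have p4 : ∀ i j, j ≠ i → ∀ v ∈ P j, p i v = 0 := fun i j hj v hv =>
    p3 i v (Submodule.mem_iSup_of_mem j (Submodule.mem_iSup_of_mem hj hv))
  have s : ∀ v ∈ ⨆ i, P i, f v = (∑ i, f * p i) v := by
    intro v hv
    refine Submodule.iSup_induction P (motive := fun v => f v = (∑ i, f * p i) v) hv ?_ ?_ ?_
    · intro j x hx
      rw [LinearMap.sum_apply, Finset.sum_eq_single j, End.mul_apply, p2 j x hx]
      · intro i _ hi
        rw [End.mul_apply, p4 i j hi.symm x hx, map_zero]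
      · exact fun q => absurd (Finset.mem_univ j) q
    · rw [map_zero, map_zero]
    · intro x y hx hy
      rw [map_add, map_add, hx, hy]
  have a : ∀ i, ∀ v ∈ ⨆ i, P i, (f * p i) v ∈ P (φ i) := fun i v _ => h i _ (p1 i v)
  rw [trOn_congr s, trOn_sum _ fun i _ v hv => Submodule.mem_iSup_of_mem (φ i) (a i v hv),
    Finset.sum_filter]
  refine Finset.sum_congr rfl fun i _ => ?_
  rw [trOn_of_range (le_iSup P (φ i)) (a i)]
  split_ifs with q
  · rw [q]
    exact trOn_congr fun v hv => by rw [End.mul_apply, p2 i v hv]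
  · rw [← trOn_zero (Q := P (φ i))]
    exact trOn_congr fun v hv => by rw [End.mul_apply, p4 i _ q v hv, map_zero]; rfl

lemma trOn_iSup' {κ : Type} [Fintype κ] {P : κ → Submodule ℂ H} (d : iSupIndep P)
    (h : ∀ i, Keeps f (P i)) : trOn f (⨆ i, P i) = ∑ i, trOn f (P i) := by
  classical
  rw [trOn_iSup d id h, Finset.sum_filter]
  exact Finset.sum_congr rfl fun _ _ => if_pos rfl

lemma finrank_iSup {κ : Type} [Fintype κ] {P : κ → Submodule ℂ H} (d : iSupIndep P) :
    finrank ℂ (⨆ i, P i : Submodule ℂ H) = ∑ i, finrank ℂ (P i) := by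
  have q := trOn_iSup' (f := 1) d fun i => keeps_one (P i)
  simp only [trOn_one] at q
  exact_mod_cast q

/-- trace and dimension through eigenspaces. -/
lemma trOn_spec (h : Keeps f Q) (s : Finset ℂ)
    (e : ∀ v ∈ Q, Polynomial.aeval f (∏ z ∈ s, (Polynomial.X - Polynomial.C z)) v = 0) :
    trOn f Q = ∑ z ∈ s, z * finrank ℂ (Q ⊓ End.eigenspace f z : Submodule ℂ H) ∧
      finrank ℂ Q = ∑ z ∈ s, finrank ℂ (Q ⊓ End.eigenspace f z : Submodule ℂ H) := by
  have d : iSupIndep fun z : s => Q ⊓ End.eigenspace f z :=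
    (f.eigenspaces_iSupIndep.comp Subtype.val_injective).mono fun _ => inf_le_right
  have q := eq_iSup_eig h s e
  constructor
  · have t := trOn_iSup' (f := f) d fun z => h.inf (keeps_eig (Commute.refl f) _)
    rw [← q] at t
    rw [t, ← Finset.sum_coe_sort s]
    exact Finset.sum_congr rfl fun z _ => trOn_scalar fun v hv => End.mem_eigenspace_iff.1 hv.2
  · have t := finrank_iSup d
    rw [← q] at t
    rw [t, ← Finset.sum_coe_sort s]

lemma norm_trOn_le (h : Keeps f Q) {k : ℕ} (hk : 0 < k) (e : ∀ v ∈ Q, (f ^ k) v = v) :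
    ‖trOn f Q‖ ≤ finrank ℂ Q := by
  obtain ⟨a, b⟩ := trOn_spec h _ (aeval_roots hk e)
  rw [a, b, Nat.cast_sum]
  refine (norm_sum_le _ _).trans (Finset.sum_le_sum fun z hz => ?_)
  rw [norm_mul, Complex.norm_eq_one_of_pow_eq_one ((Polynomial.mem_nthRootsFinset hk 1).1 hz) hk.ne',
    one_mul, Complex.norm_natCast]

/-- the trace on a quotient. -/
lemma re_trOn_sub_le (h : Keeps f Q) (h' : Keeps f Q') (le : Q' ≤ Q) {k : ℕ} (hk : 0 < k)
    (e : ∀ v ∈ Q, (f ^ k) v = v) :
    (trOn f Q - trOn f Q').re + finrank ℂ Q' ≤ finrank ℂ Q ∧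
      ((trOn f Q - trOn f Q').re + finrank ℂ Q' = finrank ℂ Q → ∀ v ∈ Q, f v - v ∈ Q') := by
  obtain ⟨a, b⟩ := trOn_spec h _ (aeval_roots hk e)
  obtain ⟨a', b'⟩ := trOn_spec h' _ (aeval_roots hk fun v hv => e v (le hv))
  set s := Polynomial.nthRootsFinset k (1 : ℂ) with hs
  have n1 : ∀ z ∈ s, ‖z‖ = 1 := fun z hz =>
    Complex.norm_eq_one_of_pow_eq_one ((Polynomial.mem_nthRootsFinset hk 1).1 hz) hk.ne'
  have r1 : ∀ z ∈ s, z.re ≤ 1 := fun z hz => (Complex.re_le_norm z).trans (n1 z hz).le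
  have m : ∀ z, (Q' ⊓ End.eigenspace f z : Submodule ℂ H) ≤ Q ⊓ End.eigenspace f z :=
    fun z => inf_le_inf_right _ le
  have dl : ∀ z, (finrank ℂ (Q' ⊓ End.eigenspace f z : Submodule ℂ H) : ℝ) ≤
      finrank ℂ (Q ⊓ End.eigenspace f z : Submodule ℂ H) :=
    fun z => Nat.cast_le.2 (Submodule.finrank_mono (m z))
  have key : (finrank ℂ Q : ℝ) - ((trOn f Q - trOn f Q').re + finrank ℂ Q') =
      ∑ z ∈ s, (1 - z.re) * ((finrank ℂ (Q ⊓ End.eigenspace f z : Submodule ℂ H) : ℝ) -
        finrank ℂ (Q' ⊓ End.eigenspace f z : Submodule ℂ H)) := by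
    rw [a, a', b, b', Complex.sub_re, Complex.re_sum, Complex.re_sum, Nat.cast_sum, Nat.cast_sum,
      ← Finset.sum_sub_distrib, ← Finset.sum_add_distrib, ← Finset.sum_sub_distrib]
    refine Finset.sum_congr rfl fun z _ => ?_
    rw [re_mul_nat, re_mul_nat]
    ring
  have nn : ∀ z ∈ s, 0 ≤ (1 - z.re) *
      ((finrank ℂ (Q ⊓ End.eigenspace f z : Submodule ℂ H) : ℝ) -
        finrank ℂ (Q' ⊓ End.eigenspace f z : Submodule ℂ H)) :=
    fun z hz => mul_nonneg (sub_nonneg.2 (r1 z hz)) (sub_nonneg.2 (dl z))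
  refine ⟨by linarith [Finset.sum_nonneg nn], fun q v hv => ?_⟩
  rw [q, sub_self] at key
  have z0 := (Finset.sum_eq_zero_iff_of_nonneg nn).1 key.symm
  have hv' := mem_iSup_eig h s v hv (aeval_roots hk e v hv)
  refine Submodule.iSup_induction _ (motive := fun v => f v - v ∈ Q') hv' ?_ ?_ ?_
  · intro z x hx
    rw [End.mem_eigenspace_iff.1 hx.2]
    rcases mul_eq_zero.1 (z0 z z.2) with t | t
    · have : (z : ℂ) = 1 := by
        have u := Complex.sq_norm z
        rw [n1 z z.2, Complex.normSq_apply] at u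
        have w : (z : ℂ).re = 1 := by linarith
        refine Complex.ext w ?_
        rw [w] at u
        rw [Complex.one_im]
        exact mul_self_eq_zero.1 (by linarith)
      rw [this, one_smul, sub_self]
      exact zero_mem _
    · have := Submodule.eq_of_le_of_finrank_eq (m z) (Nat.cast_injective (R := ℝ) (by linarith))
      rw [← this] at hx
      exact sub_mem (Q'.smul_mem _ hx.1) hx.1
  · rw [map_zero, sub_zero]
    exact zero_mem _
  · intro x y hx hy
    rw [map_add, add_sub_add_comm]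
    exact add_mem hx hy

lemma trOn_sub_eq (h' : Keeps f Q') (le : Q' ≤ Q) (e : ∀ v ∈ Q, f v - v ∈ Q') :
    trOn f Q - trOn f Q' = finrank ℂ Q - finrank ℂ Q' := by
  have h : Keeps f Q := fun v hv => by
    have := add_mem (le (e v hv)) hv
    rwa [sub_add_cancel] at this
  have q : trOn (f - 1) Q = trOn (f - 1) Q' := trOn_of_range le e
  rw [trOn_sub h (keeps_one Q), trOn_sub h' (keeps_one Q'), trOn_one, trOn_one] at q
  linear_combination q

lemma trOn_invol (h : Keeps f Q) (e : ∀ v ∈ Q, f (f v) = v) :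
    trOn f Q = finrank ℂ Q - 2 * finrank ℂ (Q ⊓ End.eigenspace f (-1) : Submodule ℂ H) ∧
    finrank ℂ Q = finrank ℂ (Q ⊓ End.eigenspace f 1 : Submodule ℂ H) +
      finrank ℂ (Q ⊓ End.eigenspace f (-1) : Submodule ℂ H) := by
  have n : (1 : ℂ) ≠ -1 := by norm_num
  obtain ⟨a, b⟩ := trOn_spec h {1, -1} fun v hv => by
    rw [Finset.prod_pair n]
    simp [e v hv, add_comm]
  rw [Finset.sum_pair n] at a b
  refine ⟨?_, b⟩
  rw [a, b]
  push_cast
  ring

lemma re_trOn_cube (h : Keeps f Q) (e : ∀ v ∈ Q, (f ^ 3) v = v) :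
    2 * (trOn f Q).re = 3 * finrank ℂ (Q ⊓ End.eigenspace f 1 : Submodule ℂ H) - finrank ℂ Q := by
  have hk : 0 < 3 := by norm_num
  obtain ⟨a, b⟩ := trOn_spec h _ (aeval_roots hk e)
  have o : (1 : ℂ) ∈ Polynomial.nthRootsFinset 3 (1 : ℂ) :=
    (Polynomial.mem_nthRootsFinset hk 1).2 (one_pow 3)
  rw [a, b, Complex.re_sum, Nat.cast_sum, Finset.mul_sum, eq_sub_iff_add_eq,
    ← Finset.sum_add_distrib, Finset.sum_eq_single_of_mem 1 o]
  · rw [re_mul_nat, Complex.one_re]
    ring
  · intro z hz z1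
    have z3 := (Polynomial.mem_nthRootsFinset hk 1).1 hz
    have z2 : z ^ 2 + z + 1 = 0 :=
      (mul_eq_zero.1 (show (z - 1) * (z ^ 2 + z + 1) = 0 by linear_combination z3)).resolve_left
        (sub_ne_zero.2 z1)
    have r := congrArg Complex.re z2
    have i := congrArg Complex.im z2
    simp [pow_two] at r i
    have w : z.re = -1 / 2 := by
      rcases mul_eq_zero.1 (show z.im * (2 * z.re + 1) = 0 by linear_combination i) with t | t
      · rw [t] at r
        nlinarith [sq_nonneg (z.re + 1 / 2)]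
      · linarith
    rw [re_mul_nat, w]
    ring

lemma trace_idem {p : End ℂ H} (hp : p * p = p) (h : Keeps p Q) :
    trOn p Q = finrank ℂ (Q ⊓ End.eigenspace p 1 : Submodule ℂ H) := by
  have n : (1 : ℂ) ≠ 0 := one_ne_zero
  obtain ⟨a, -⟩ := trOn_spec h {1, 0} fun v _ => by
    have q : p (p v) = p v := by rw [← End.mul_apply, hp]
    rw [Finset.prod_pair n]
    simp [q]
  rw [a, Finset.sum_pair n, one_mul, zero_mul, add_zero]

end Pool.Agent.MP_3ce0a0_al.H79.X
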