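import Pool.Agent.MP_3ce0a0_al.H79.Main
import Pool.Agent.MP_3ce0a0_al.H3.Cut
import Pool.Agent.MP_3ce0a0_al.H5.LI
import Pool.Agent.MP_3ce0a0_al.H15.Tree
import Pool.Agent.MP_3ce0a0_al.H16.RC
import Pool.Agent.MP_3ce0a0_al.H19.Unip
import Pool.Agent.MP_3ce0a0_al.H21.QA
import Pool.Agent.MP_3ce0a0_al.H33.Top
import Pool.Agent.MP_3ce0a0_al.H41.X
import Pool.Agent.MP_3ce0a0_al.H57.DegC
import Pool.Agent.MP_3ce0a0_al.H62.Comp
import Pool.Agent.MP_3ce0a0_al.H62.Inst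
import Pool.Agent.MP_3ce0a0_al.H70.Fix
import Pool.Agent.MP_3ce0a0_al.H70.Trace
import Pool.Agent.MP_3ce0a0_al.H76.RBD
import Pool.Agent.MP_3ce0a0_al.H81.Gr
import Pool.Agent.MP_3ce0a0_al.H84.Log
import Pool.Agent.MP_3ce0a0_al.H85.Deg
import Pool.Agent.MP_3ce0a0_al.H87.Orb
import Pool.Agent.MP_3ce0a0_al.H87.Real
import Pool.Agent.MP_3ce0a0_al.H90.Y
import Pool.Agent.MP_3ce0a0_al.H97.Conn

/-
All the steps put together.
-/

namespace Pool.Agent.MP_3ce0a0_al.H79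

theorem allReal : SReal :=
  H87.sreal H3.scut H15.stree H21.sqa H62.sra (H76.srb H70.sfix (H62.scomp H70.sfix))
    (H16.src H70.sfix (H62.scomp H70.sfix)) (H76.srd H70.sfix (H62.scomp H70.sfix))

theorem allDegC : SDegC := H57.sdegc H19.sunip (H85.sdeg H84.slog)

theorem allTop : STop := H33.stop allDegC

theorem allY : SY := H90.sy H97.sconn allTop (H33.ssmall H5.ssupp allTop) H81.sgr

theorem allGap (n m : ℕ) (hm1 : 1 ≤ m) (hm : m ≠ n) (hr : 6 * m < 2 ^ ((n - 17) / 30))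
    (φ : Out (FG n) →* Out (FG m)) : ¬ Function.Injective φ :=
  main H21.srep allReal H5.sli H5.ssupp H87.sorb allY allDegC H70.strace
    (H41.sx H97.sconn H81.sgr H81.slef) H62.sinst n m hm1 hm hr φ

end Pool.Agent.MP_3ce0a0_al.H79
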