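import Mathlib

/-
Nielsen's theorem on generators of the automorphism group of a free group.
-/

namespace Pool.Agent.MP_3ce0a0_al.H79

open FreeGroup

/-- the elementary Nielsen transformations generate. -/
def SNiel : Prop :=
  ∀ (ι : Type) [Fintype ι] [DecidableEq ι] (H : Subgroup (MulAut (FreeGroup ι))),
    (∀ (α : MulAut (FreeGroup ι)) (a b : ι), a ≠ b → α (of a) = of a * of b →
      (∀ c, c ≠ a → α (of c) = of c) → α ∈ H) →
    (∀ (α : MulAut (FreeGroup ι)) (a : ι), α (of a) = (of a)⁻¹ →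
      (∀ c, c ≠ a → α (of c) = of c) → α ∈ H) →
    (∀ (α : MulAut (FreeGroup ι)) (σ : Equiv.Perm ι), (∀ c, α (of c) = of (σ c)) → α ∈ H) →
    H = ⊤

end Pool.Agent.MP_3ce0a0_al.H79
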