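import Pool.Agent.MP_3ce0a0_al.H62.Inst
import Pool.Agent.MP_3ce0a0_al.H79.SpecG

/-
The Nielsen relations in the outer automorphism group, with generation.
-/

namespace Pool.Agent.MP_3ce0a0_al.H79

open Equiv FreeGroup Sum

/-- the relations hold in the outer automorphism group of a free group, and generate it. -/
def SInst2 : Prop :=
  ∀ (A B : Type) [Fintype A] [DecidableEq A] [Fintype B] [DecidableEq B] (τ : Perm B) (n : ℕ),
    Shape A B τ → Fintype.card (A ⊕ B) = n →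
    ∃ (N : NS (A ⊕ B) (Out (FG n))) (G : Type) (_ : Group G) (_ : Finite G) (w : WS (A ⊕ B) G)
      (β : G →* Out (FG n)) (κ : Perm (Option A) →* Out (FG n)),
      (∀ a, β (w.ε a) = N.ε a) ∧ (∀ σ, β (w.π σ) = N.π σ) ∧
      (∀ σ, κ (Equiv.optionCongr σ) = N.π (Perm.sumCongr σ 1)) ∧
      (∀ σ, Commute (xi N.toWS τ) (κ σ)) ∧ xi w τ * xi w τ = 1 ∧
      ∀ K : Subgroup (Out (FG n)), (∀ a b, a ≠ b → N.ρ a b ∈ K) → (∀ a, N.ε a ∈ K) →
        (∀ σ, N.π σ ∈ K) → K = ⊤

open H62 H62.Inst in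
theorem sinst2 (hN : SNiel) : SInst2 := by
  intro A B _ _ _ _ τ n hs hn
  let φ : FreeGroup (A ⊕ B) ≃* FG n := freeGroupCongr (Fintype.equivFinOfCardEq hn)
  let Φ : MulAut (FreeGroup (A ⊕ B)) →* Out (FG n) :=
    (QuotientGroup.mk' (Inn (FG n))).comp (MulAut.congr φ).toMonoidHom
  have hΦ : ∀ g, Φ g = 1 ↔ ∃ u, MulAut.conj u = g := fun g => by
    refine (QuotientGroup.eq_one_iff _).trans ⟨fun ⟨x, hx⟩ => ⟨φ.symm x, ?_⟩, ?_⟩
    · ext y
      have := congrArg φ.symm (DFunLike.congr_fun hx (φ y))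
      simpa using this
    · rintro ⟨u, rfl⟩
      exact ⟨φ u, by ext y; simp⟩
  obtain ⟨c, _, h1, h2⟩ : ∃ (c : B → Prop) (_ : DecidablePred c), (∀ b, c (τ b) ↔ ¬c b) ∧
      ∀ b, τ (τ b) = b := by
    rcases hs with ⟨h, -⟩ | ⟨y, y', h1, h2, rfl, -⟩
    · exact ⟨fun _ => True, inferInstance, isEmptyElim, isEmptyElim⟩
    · refine ⟨(· = y'), inferInstance, fun b => ?_, by simp⟩
      rcases h2 b with rfl | rfl <;> simp [h1]
  refine ⟨(N0 _).map Φ, _, inferInstance, inferInstance, w0 _, Φ.comp (Subgroup.subtype _),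
    Φ.comp (kA c), fun _ => rfl, fun _ => rfl, fun σ => congrArg Φ (aut_ext ?_), fun σ => ?_,
    Subtype.ext ?_, fun K k1 k2 k3 => ?_⟩
  · rintro (a | b) <;> simp [kA_apply, kE, z, N0]
  · change xi ((N0 _).toWS.map Φ) τ * Φ _ = Φ _ * xi ((N0 _).toWS.map Φ) τ
    rw [xi_map, ← Φ.map_mul, xi_kA c τ h1, Φ.map_mul, (hΦ _).2 ⟨_, rfl⟩, one_mul, Φ.map_mul]
  · have : (xi (w0 (A ⊕ B)) τ).1 = xi (N0 (A ⊕ B)).toWS τ :=
      (xi_map (w0 _) (Subgroup.subtype _) τ).symm
    rw [Subgroup.coe_mul, this]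
    refine aut_ext ?_
    rintro (a | b) <;> simp [xi_of, h2]
  · have h : K.comap Φ = ⊤ := by
      refine hN _ _ (fun α a b hab e1 e2 => ?_) (fun α a e1 e2 => ?_) fun α σ e => ?_
      · have : α = rh a b := aut_ext fun c => by
          by_cases k : c = a
          · simp [rh_of hab, k, e1]
          · simp [rh_of hab, k, e2 c k]
        rw [this]
        exact k1 a b hab
      · have : α = ep a := aut_ext fun c => by
          by_cases k : c = a
          · simp [ep_of, k, e1]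
          · simp [ep_of, k, e2 c k]
        rw [this]
        exact k2 a
      · have : α = pm σ := aut_ext fun c => by simp [e]
        rw [this]
        exact k3 σ
    rw [eq_top_iff]
    intro x _
    obtain ⟨y, rfl⟩ := QuotientGroup.mk_surjective x
    have h3 : (MulAut.congr φ).symm y ∈ K.comap Φ := h ▸ Subgroup.mem_top _
    have h4 : Φ ((MulAut.congr φ).symm y) = QuotientGroup.mk y :=
      congrArg QuotientGroup.mk ((MulAut.congr φ).apply_symm_apply y)
    rw [← h4]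
    exact h3

end Pool.Agent.MP_3ce0a0_al.H79
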