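import Pool.Agent.MP_3ce0a0_al.H79.All
import Pool.Agent.MP_3ce0a0_al.H79.Main3
import Pool.Agent.MP_3ce0a0_al.H16.X2
import Pool.Agent.MP_3ce0a0_al.H51.Y2
import Pool.Agent.MP_3ce0a0_al.H57.Top2
import Pool.Agent.MP_3ce0a0_al.H59.Conn2
import Pool.Agent.MP_3ce0a0_al.H60.Bar
import Pool.Agent.MP_3ce0a0_al.H85.GL
import Pool.Agent.MP_3ce0a0_al.H87.TB
import Pool.Agent.MP_3ce0a0_al.H90.LI2

/-
All the sharper steps put together.
-/

namespace Pool.Agent.MP_3ce0a0_al.H79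

theorem allLI2 : SLI2 := H90.sli2 (H85.sgl H87.stb)

theorem allTop2 : STop2 := H57.stop2 allDegC H60.sbar

theorem allSmall2 : SSmall2 := H57.ssmall2 H5.ssupp allTop2

theorem allY2 : SY2 := H51.sy2 H59.sconn2 allTop2 allSmall2 H81.sgr

theorem allX2 : SX2 := H16.sx2 H59.sconn2 H81.sgr H81.slef

theorem allGap2 (n m : ℕ) (hm1 : 1 ≤ m) (hm : m ≠ n) (hr : 24 * m < (n - 1).choose (n / 2 - 5))
    (φ : Out (FG n) →* Out (FG m)) : ¬ Function.Injective φ :=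
  main2 H21.srep allReal allLI2 H5.ssupp H87.sorb allY2 allDegC H70.strace allX2 H62.sinst
    n m hm1 hm hr φ

theorem allGap3 (hN : SNiel) (n m : ℕ) (hm1 : 1 ≤ m) (hm : m ≠ n)
    (hr : 24 * m < (n - 1).choose (n / 2 - 5)) (φ : Out (FG n) →* Out (FG m)) :
    (Set.range φ).encard ≤ 2 :=
  main3 H21.srep allReal allLI2 H5.ssupp H87.sorb allY2 allDegC H70.strace allX2 (sinst2 hN)
    n m hm1 hm hr φ

end Pool.Agent.MP_3ce0a0_al.H79
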