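import Pool.Agent.MP_3ce0a0_al.H15.Pres
import Pool.Agent.MP_3ce0a0_al.H79.Defs

/-! The presentation in Nielsen generators, with an explicit list of relations, and tables of
substitutions on free groups. -/

namespace Pool.Agent.MP_3ce0a0_al.H15.C

open FreeGroup

/-- words -/
abbrev Wd (ι : Type) : Type := List (ι × Bool)

/-- codes of generators: the move `y ↦ a y`, and three involutions -/
abbrev Gm : Type := (L × L) ⊕ Fin 3

/-- the inverse generator -/
def ginv : Gm → Gm
  | .inl p => .inl (p.1, iv p.2)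
  | .inr k => .inr k

lemma ginv_ginv (γ : Gm) : ginv (ginv γ) = γ := by
  rcases γ with p | k <;> simp [ginv]

/-- all codes -/
def allG : List Gm :=
  (lets.flatMap fun y => lets.map fun a => .inl (y, a)) ++ [.inr 0, .inr 1, .inr 2]

lemma mem_allG (γ : Gm) : γ ∈ allG := by
  rcases γ with ⟨y, a⟩ | k
  · exact List.mem_append_left _
      (List.mem_flatMap.2 ⟨y, mem_lets y, List.mem_map.2 ⟨a, mem_lets a, rfl⟩⟩)
  · refine List.mem_append_right _ ?_
    fin_cases k <;> simp

lemma all_G {p : Gm → Bool} (h : allG.all p = true) (γ : Gm) : p γ = true :=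
  List.all_eq_true.1 h γ (mem_allG γ)

section Sub

variable {ι κ : Type}

/-- a substitution on letters -/
def xt (f : ι → Wd κ) (y : ι × Bool) : Wd κ := if y.2 then f y.1 else invRev (f y.1)

/-- the homomorphism of a substitution -/
def hm (f : ι → Wd κ) : FreeGroup ι →* FreeGroup κ := FreeGroup.lift fun i => FreeGroup.mk (f i)

lemma hm_of (f : ι → Wd κ) (i : ι) : hm f (of i) = FreeGroup.mk (f i) := lift_apply_of

lemma hm_mk (f : ι → Wd κ) (w : Wd ι) :
    hm f (FreeGroup.mk w) = FreeGroup.mk (w.flatMap (xt f)) := by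
  induction w with
  | nil => exact _root_.map_one _
  | cons y w ih =>
    have e : FreeGroup.mk (y :: w) = FreeGroup.mk [y] * FreeGroup.mk w := by rw [mul_mk]; rfl
    rw [e, _root_.map_mul, ih, List.flatMap_cons, ← mul_mk]
    congr 1
    obtain ⟨i, b⟩ := y
    cases b
    · have : FreeGroup.mk [(i, false)] = (of i)⁻¹ := rfl
      rw [this, _root_.map_inv, hm_of, inv_mk]; rfl
    · exact hm_of f i

variable [DecidableEq ι]

/-- the image of a word under a product of generators -/
def evT (tb : Gm → ι → Wd ι) : List Gm → Wd ι → Wd ι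
  | [], w => w
  | γ :: g, w => reduce ((evT tb g w).flatMap (xt (tb γ)))

/-- the table respects inverses -/
def InvT (tb : Gm → ι → Wd ι) : Prop := ∀ γ i, evT tb [γ, ginv γ] [(i, true)] = [(i, true)]

lemma InvT.comp {tb : Gm → ι → Wd ι} (h : InvT tb) (γ : Gm) :
    (hm (tb γ)).comp (hm (tb (ginv γ))) = MonoidHom.id _ := by
  refine FreeGroup.ext_hom _ _ fun i => ?_
  have := congrArg FreeGroup.mk (h γ i)
  rw [evT, evT, evT, reduce.self, ← hm_mk, reduce.self, ← hm_mk] at this
  exact this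

/-- the automorphism of a generator -/
def au {tb : Gm → ι → Wd ι} (h : InvT tb) (γ : Gm) : MulAut (FreeGroup ι) :=
  MonoidHom.toMulEquiv (hm (tb γ)) (hm (tb (ginv γ)))
    (by have := h.comp (ginv γ); rwa [ginv_ginv] at this) (h.comp γ)

/-- the value of a word in the generators -/
def evQ {Q : Type} [Group Q] (u : Gm → Q) (g : List Gm) : Q := (g.map u).prod

lemma evQ_nil {Q : Type} [Group Q] (u : Gm → Q) : evQ u [] = 1 := rfl

lemma evQ_cons {Q : Type} [Group Q] (u : Gm → Q) (γ : Gm) (g : List Gm) :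
    evQ u (γ :: g) = u γ * evQ u g := rfl

lemma evQ_append {Q : Type} [Group Q] (u : Gm → Q) (g g' : List Gm) :
    evQ u (g ++ g') = evQ u g * evQ u g' := by simp [evQ]

lemma evQ_map {Q Q' : Type} [Group Q] [Group Q'] (f : Q →* Q') (u : Gm → Q) (g : List Gm) :
    f (evQ u g) = evQ (fun γ => f (u γ)) g := by
  induction g with
  | nil => exact _root_.map_one f
  | cons γ g ih => rw [evQ_cons, evQ_cons, _root_.map_mul, ih]

lemma evQ_au {tb : Gm → ι → Wd ι} (h : InvT tb) (g : List Gm) (w : Wd ι) :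
    evQ (au h) g (FreeGroup.mk w) = FreeGroup.mk (evT tb g w) := by
  induction g with
  | nil => rfl
  | cons γ g ih =>
    rw [evQ_cons, MulAut.mul_apply, ih, evT, reduce.self, ← hm_mk]; rfl

lemma au_mk {tb : Gm → ι → Wd ι} (h : InvT tb) (γ : Gm) (w : Wd ι) :
    au h γ (FreeGroup.mk w) = FreeGroup.mk (w.flatMap (xt (tb γ))) := hm_mk _ w

lemma au_of {tb : Gm → ι → Wd ι} (h : InvT tb) (γ : Gm) (i : ι) :
    au h γ (of i) = FreeGroup.mk (tb γ i) := hm_of _ i

lemma au_ginv {tb : Gm → ι → Wd ι} (h : InvT tb) (γ : Gm) : au h (ginv γ) = (au h γ)⁻¹ := by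
  rw [eq_inv_iff_mul_eq_one]
  refine MulEquiv.ext fun x => ?_
  have := h.comp (ginv γ)
  rw [ginv_ginv] at this
  exact DFunLike.congr_fun this x

/-- the inverse word -/
def winv (g : List Gm) : List Gm := (g.map ginv).reverse

lemma evQ_winv {Q : Type} [Group Q] {u : Gm → Q} (h : ∀ γ, u (ginv γ) = (u γ)⁻¹)
    (g : List Gm) : evQ u (winv g) = (evQ u g)⁻¹ := by
  induction g with
  | nil => simp [winv, evQ]
  | cons γ g ih =>
    have : winv (γ :: g) = winv g ++ [ginv γ] := by simp [winv]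
    rw [this, evQ_append, ih, evQ_cons, evQ_cons, evQ_nil, h, mul_one, mul_inv_rev]

omit [DecidableEq ι] in
lemma aut_ext {α β : MulAut (FreeGroup ι)} (h : ∀ i, α (of i) = β (of i)) : α = β :=
  MulEquiv.toMonoidHom_injective (FreeGroup.ext_hom _ _ h)

end Sub

/-- the word of a Whitehead move -/
def wE (A : St) (a : L) : List Gm :=
  (lets.filter fun y => A y && y.1 != a.1).map fun y => .inl (y, a)

/-- the word of a signed permutation -/
def wS (σ : SP) : List Gm := ((wds.find? fun w => evS w == σ).getD []).map .inr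

/-- the relations -/
def relW : List (List Gm × List Gm) :=
  ([0, 1, 2].flatMap fun k => (allSP.filter okS).map fun σ =>
    (wS (mulS (t k) σ), wS (t k) ++ wS σ)) ++
  (([0, 1, 2].flatMap fun k => allSt.flatMap fun A => (lets.filter (ok A)).map fun a =>
    (wE (tr k A) (act (t k) a) ++ wS (t k), wS (t k) ++ wE A a)) ++
  ((allSt.flatMap fun A => (lets.filter (ok A)).map fun a =>
    (wE (flip A a) (iv a) ++ wE A a, [])) ++
  ((bb.flatMap fun c => (allSt.filter fun A => ok A x0).flatMap fun A =>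
    (allSt.filter fun B => ok B (0, c) && compat A B).map fun B =>
    (wE A x0, wE (qS A B (0, c)) (qL A B (0, c)) ++ wE B (0, c))) ++
  (((allSt.filter fun A => ok A x0 && ok A x1).map fun A =>
    (wE A x0, wS (t 1) ++ (wS (t 0) ++ (wE (flip A x1) x0 ++ wE A x1)))) ++
  (((allSt.filter fun A => ok A x0).flatMap fun A =>
    (allSt.filter fun B => ok B x1 && (compat A B && !(sep A x1 && sep B x0))).map fun B =>
    (wE (tS A x0 B) (tL A x0 B x1) ++ wE A x0, wE (tS B x1 A) (tL B x1 A x0) ++ wE B x1)) ++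
  (lets.flatMap fun y => [([.inl (y, y)], []), ([.inl (y, iv y)], [])]))))))

lemma mem3 (k : Fin 3) : k ∈ [0, 1, 2] := by revert k; decide

lemma rel_of {Q : Type} [Group Q] (u : Gm → Q) (h : ∀ r ∈ relW, evQ u r.1 = evQ u r.2) :
    Rel (fun A a => evQ u (wE A a)) (fun σ => evQ u (wS σ)) := by
  simp only [relW, List.mem_append, List.mem_flatMap, List.mem_map, List.mem_filter] at h
  refine ⟨fun k σ hσ => ?_, fun k A a hA => ?_, fun a => ?_, fun A a hA => ?_,
    fun A B c hA hB hc => ?_, fun A h0 h1 => ?_, fun A B hA hB hc hs => ?_⟩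
  · rw [← evQ_append]
    exact h _ (Or.inl ⟨k, mem3 k, σ, ⟨mem_allSP σ, hσ⟩, rfl⟩)
  · rw [← evQ_append, ← evQ_append]
    exact h _ (Or.inr (Or.inl ⟨k, mem3 k, A, mem_allSt A, a, ⟨mem_lets a, hA⟩, rfl⟩))
  · have : wE (sg a) a = [] := by revert a; decide
    simp only [this, evQ_nil]
  · rw [← evQ_append]
    exact h _ (Or.inr (Or.inr (Or.inl ⟨A, mem_allSt A, a, ⟨mem_lets a, hA⟩, rfl⟩)))
  · rw [← evQ_append]
    exact h _ (Or.inr (Or.inr (Or.inr (Or.inl ⟨c, mem_bb c, A, ⟨mem_allSt A, hA⟩, B,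
      ⟨mem_allSt B, by rw [hB, hc]; rfl⟩, rfl⟩))))
  · rw [← evQ_append, ← evQ_append, ← evQ_append]
    exact h _ (Or.inr (Or.inr (Or.inr (Or.inr (Or.inl
      ⟨A, ⟨mem_allSt A, by rw [h0, h1]; rfl⟩, rfl⟩)))))
  · rw [← evQ_append, ← evQ_append]
    exact h _ (Or.inr (Or.inr (Or.inr (Or.inr (Or.inr (Or.inl ⟨A, ⟨mem_allSt A, hA⟩, B,
      ⟨mem_allSt B, by rw [hB, hc, hs]; rfl⟩, rfl⟩))))))

lemma junk_of {Q : Type} [Group Q] (u : Gm → Q) (h : ∀ r ∈ relW, evQ u r.1 = evQ u r.2)
    {y a : L} (hy : a.1 = y.1) : u (.inl (y, a)) = 1 := by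
  have k : ([Sum.inl (y, a)], []) ∈ relW := by
    simp only [relW, List.mem_append]
    refine Or.inr (Or.inr (Or.inr (Or.inr (Or.inr (Or.inr ?_)))))
    refine List.mem_flatMap.2 ⟨y, mem_lets y, ?_⟩
    rcases eq_or_iv hy with rfl | rfl <;> simp
  simpa [evQ] using h _ k

/-- the set with two elements -/
def pr (y a : L) : St := fun z => z == y || z == a

/-- the table for the free group of rank three -/
def tb3 : Gm → Fin 3 → Wd (Fin 3)
  | .inl p, i => if p.2.1 = p.1.1 then [(i, true)] else wV (pr p.1 p.2) p.2 (i, true)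
  | .inr k, i => [gen (t k) i]

lemma inv3 : InvT tb3 := by
  unfold InvT
  decide +kernel

/-- the generators of `Aut F_3` -/
def au3 : Gm → MulAut F3 := au inv3

theorem pres2 {Q : Type} [Group Q] (u : Gm → Q) (h : ∀ r ∈ relW, evQ u r.1 = evQ u r.2) :
    ∃ φ : MulAut F3 →* Q, ∀ g, φ (evQ au3 g) = evQ u g := by
  obtain ⟨φ, h1, h2⟩ := spres Q _ _ (rel_of u h)
  have k : ∀ γ, φ (au3 γ) = u γ := by
    rintro (⟨y, a⟩ | k)
    · by_cases hy : a.1 = y.1
      · have : au3 (.inl (y, a)) = 1 := aut_ext fun i => by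
          rw [au3, au_of]; simp [tb3, hy, of]
        rw [this, _root_.map_one, junk_of u h hy]
      · have e : ∀ y a : L, ¬ a.1 = y.1 →
            ok (pr y a) a = true ∧ wE (pr y a) a = [.inl (y, a)] := by decide +kernel
        rw [h1 _ (pr y a) a (e y a hy).1 fun i => by rw [au3, au_of]; simp [tb3, hy]]
        simp [(e y a hy).2, evQ]
    · have e : ∀ k, wS (t k) = [.inr k] := by decide +kernel
      rw [h2 _ (t k) (ok_t k) fun i => by rw [au3, au_of]; rfl]
      simp [e, evQ]
  exact ⟨φ, fun g => by rw [evQ_map]; simp only [k]⟩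

lemma evQ_S (w : List (Fin 3)) : toE (evQ au3 (w.map .inr)) = S (evS w) := by
  induction w with
  | nil => exact S_one.symm
  | cons k w ih =>
    rw [List.map_cons, evQ_cons, toE_mul, ih, evS, ← S_mul,
      toE_S (σ := t k) fun i => by rw [au3, au_of]; rfl]

lemma word_S {α : MulAut F3} {σ : SP} (hσ : okS σ = true)
    (h : ∀ i, α (of i) = FreeGroup.mk [gen σ i]) : ∃ g, evQ au3 g = α := by
  obtain ⟨w, rfl⟩ := exists_word hσ
  exact ⟨w.map .inr, MulEquiv.toMonoidHom_injective ((evQ_S w).trans (toE_S h).symm)⟩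

theorem exists_word3 (α : MulAut F3) : ∃ g, evQ au3 g = α := by
  let H : Subgroup (MulAut F3) :=
    { carrier := {α | ∃ g, evQ au3 g = α}
      one_mem' := ⟨[], rfl⟩
      mul_mem' := by
        rintro _ _ ⟨g, rfl⟩ ⟨g', rfl⟩
        exact ⟨g ++ g', evQ_append _ _ _⟩
      inv_mem' := by
        rintro _ ⟨g, rfl⟩
        exact ⟨winv g, evQ_winv (au_ginv inv3) g⟩ }
  have : H = ⊤ := by
    refine H28.sniel (Fin 3) _ ?_ ?_ ?_
    · intro α a b hab h1 h2
      refine ⟨[.inl ((a, false), (b, false))], aut_ext fun i => ?_⟩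
      rw [evQ_cons, evQ_nil, mul_one, au3, au_of]
      by_cases hi : i = a
      · subst hi
        rw [h1]
        simp [tb3, pr, wV, iv, hab, hab.symm, of]
      · rw [h2 i hi]
        by_cases hb : i = b
        · subst hb
          simp [tb3, pr, wV, iv, hi, of]
        · simp [tb3, pr, wV, iv, hi, hb, hab.symm, of]
    · intro α a h1 h2
      refine word_S (σ := ((0, a != 0), (1, a != 1), (2, a != 2))) rfl fun i => ?_
      by_cases hi : i = a
      · subst hi
        rw [h1]
        fin_cases i <;> rfl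
      · rw [h2 i hi]
        fin_cases i <;> fin_cases a <;> first | rfl | exact absurd rfl hi
    · intro α σ h
      refine word_S (σ := ((σ 0, true), (σ 1, true), (σ 2, true))) (by simp [okS]) fun i => ?_
      rw [h]
      fin_cases i <;> rfl
  exact (show α ∈ H by rw [this]; trivial)

/-- the word of the conjugation by a generator -/
def wI (i : Fin 3) : List Gm := wE (fun y => y != (i, false)) (i, true)

lemma evQ_wI (i : Fin 3) : evQ au3 (wI i) = MulAut.conj (of i) := by
  have e : ∀ i j : Fin 3, evT tb3 (wI i) [(j, true)] =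
      reduce ([(i, true)] ++ [(j, true)] ++ invRev [(i, true)]) := by decide +kernel
  refine aut_ext fun j => ?_
  change evQ (au inv3) (wI i) (FreeGroup.mk [(j, true)]) = _
  rw [evQ_au, e, reduce.self, ← mul_mk, ← mul_mk, ← inv_mk]
  rfl

open H79 in
/-- descent to the outer automorphism group -/
theorem descend {Q : Type} [Group Q] (u : Gm → Q) (h : ∀ r ∈ relW, evQ u r.1 = evQ u r.2)
    (hI : ∀ i, evQ u (wI i) = 1) (hK : ∀ g, evQ u g = 1 → evQ au3 g ∈ Inn F3) :
    ∃ f : Out F3 →* Q, Function.Injective f := by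
  obtain ⟨φ, hφ⟩ := pres2 u h
  have k : φ.comp MulAut.conj = 1 := FreeGroup.ext_hom _ _ fun i => by
    rw [MonoidHom.comp_apply, ← evQ_wI, hφ, hI]; rfl
  have k1 : Inn F3 ≤ φ.ker := by
    rintro _ ⟨x, rfl⟩
    exact DFunLike.congr_fun k x
  refine ⟨QuotientGroup.lift _ φ k1, (injective_iff_map_eq_one _).2 fun x hx => ?_⟩
  obtain ⟨α, rfl⟩ := QuotientGroup.mk_surjective x
  obtain ⟨g, rfl⟩ := exists_word3 α
  rw [QuotientGroup.lift_mk, hφ] at hx
  exact (QuotientGroup.eq_one_iff _).2 (hK g hx)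

end Pool.Agent.MP_3ce0a0_al.H15.C
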