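import Pool.Agent.MP_3ce0a0_al.H79.CNiel3

/-! `Out F_3` acts on the free group of rank ten, hence embeds in `Out F_m` for `m ≥ 10`. -/

namespace Pool.Agent.MP_3ce0a0_al.H15.C

open FreeGroup H79

/-- position of a generator in the tables -/
def ix : Gm → ℕ
  | .inl p => 6 * (2 * p.1.1.1 + p.1.2.toNat) + (2 * p.2.1.1 + p.2.2.toNat)
  | .inr k => 36 + k.1

/-- read a sparse table -/
def rd {n : ℕ} (tab : List (List (Fin n × Wd (Fin n)))) (γ : Gm) (i : Fin n) : Wd (Fin n) :=
  ((tab.getD (ix γ) []).lookup i).getD [(i, true)]

/-- images of the ten generators -/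
def tab10 : List (List (Fin 10 × Wd (Fin 10))) :=
  [[],
   [],
   [(0, [(4, false), (1, true), (0, true), (4, true)]), (1, [(4, false), (1, true), (4, true)]),
    (2, [(4, false), (1, true), (2, true), (1, false), (4, true)]),
    (3, [(4, false), (1, true), (3, true)]), (4, [(4, false), (1, true)]),
    (5, [(4, false), (1, true), (5, true)]), (6, [(4, false), (8, true)]),
    (7, [(4, false), (1, true), (7, true)]), (8, [(4, false), (1, true), (6, true)]),
    (9, [(4, false), (1, true), (9, true)])],
   [(0, [(4, false), (0, true), (1, false), (4, true)]), (1, [(4, false), (1, true), (4, true)]),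
    (2, [(4, false), (2, true), (4, true)]), (3, [(4, false), (3, true)]),
    (4, [(4, false), (1, true)]), (5, [(4, false), (5, true)]), (6, [(4, false), (8, true)]),
    (7, [(4, false), (7, true)]), (8, [(4, false), (1, true), (6, true)]),
    (9, [(4, false), (9, true)])],
   [(0, [(6, false), (2, true), (0, true), (6, true)]),
    (1, [(6, false), (2, true), (1, true), (2, false), (6, true)]),
    (2, [(6, false), (2, true), (6, true)]), (3, [(6, false), (2, true), (3, true)]),
    (4, [(6, false), (8, true)]), (5, [(6, false), (2, true), (5, true)]),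
    (6, [(6, false), (2, true)]), (7, [(6, false), (2, true), (7, true)]),
    (8, [(6, false), (2, true), (4, true)]), (9, [(6, false), (2, true), (9, true)])],
   [(0, [(6, false), (0, true), (2, false), (6, true)]), (1, [(6, false), (1, true), (6, true)]),
    (2, [(6, false), (2, true), (6, true)]), (3, [(6, false), (3, true)]),
    (4, [(6, false), (8, true)]), (5, [(6, false), (5, true)]), (6, [(6, false), (2, true)]),
    (7, [(6, false), (7, true)]), (8, [(6, false), (2, true), (4, true)]),
    (9, [(6, false), (9, true)])],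
   [],
   [],
   [(0, [(1, false), (0, true)]), (3, [(1, false), (5, true)]), (5, [(3, true)]),
    (7, [(1, false), (9, true)]), (9, [(7, true)])],
   [(0, [(1, true), (0, true)]), (3, [(5, true)]), (5, [(1, true), (3, true)]), (7, [(9, true)]),
    (9, [(1, true), (7, true)])],
   [(0, [(2, false), (0, true)]), (3, [(2, false), (7, true)]), (5, [(2, false), (9, true)]),
    (7, [(3, true)]), (9, [(5, true)])],
   [(0, [(2, true), (0, true)]), (3, [(7, true)]), (5, [(9, true)]), (7, [(2, true), (3, true)]),
    (9, [(2, true), (5, true)])],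
   [(0, [(3, false), (0, true), (3, true)]), (1, [(3, false), (0, true), (1, true), (3, true)]),
    (2, [(3, false), (0, true), (2, true), (0, false), (3, true)]), (3, [(3, false), (0, true)]),
    (4, [(3, false), (0, true), (4, true)]), (5, [(3, false), (0, true), (5, true)]),
    (6, [(3, false), (7, true)]), (7, [(3, false), (0, true), (6, true)]),
    (8, [(3, false), (0, true), (8, true)]), (9, [(3, false), (0, true), (9, true)])],
   [(0, [(3, false), (0, true), (3, true)]), (1, [(3, false), (1, true), (0, false), (3, true)]),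
    (2, [(3, false), (2, true), (3, true)]), (3, [(3, false), (0, true)]),
    (4, [(3, false), (4, true)]), (5, [(3, false), (5, true)]), (6, [(3, false), (7, true)]),
    (7, [(3, false), (0, true), (6, true)]), (8, [(3, false), (8, true)]),
    (9, [(3, false), (9, true)])],
   [],
   [],
   [(0, [(6, false), (2, true), (0, true), (2, false), (6, true)]),
    (1, [(6, false), (2, true), (1, true), (6, true)]), (2, [(6, false), (2, true), (6, true)]),
    (3, [(6, false), (7, true)]), (4, [(6, false), (2, true), (4, true)]),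
    (5, [(6, false), (2, true), (5, true)]), (6, [(6, false), (2, true)]),
    (7, [(6, false), (2, true), (3, true)]), (8, [(6, false), (2, true), (8, true)]),
    (9, [(6, false), (2, true), (9, true)])],
   [(0, [(6, false), (0, true), (6, true)]), (1, [(6, false), (1, true), (2, false), (6, true)]),
    (2, [(6, false), (2, true), (6, true)]), (3, [(6, false), (7, true)]),
    (4, [(6, false), (4, true)]), (5, [(6, false), (5, true)]), (6, [(6, false), (2, true)]),
    (7, [(6, false), (2, true), (3, true)]), (8, [(6, false), (8, true)]),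
    (9, [(6, false), (9, true)])],
   [(1, [(0, false), (1, true)]), (4, [(0, false), (5, true)]), (5, [(4, true)]),
    (8, [(0, false), (9, true)]), (9, [(8, true)])],
   [(1, [(0, true), (1, true)]), (4, [(5, true)]), (5, [(0, true), (4, true)]), (8, [(9, true)]),
    (9, [(0, true), (8, true)])],
   [],
   [],
   [(1, [(2, false), (1, true)]), (4, [(2, false), (8, true)]), (5, [(2, false), (9, true)]),
    (8, [(4, true)]), (9, [(5, true)])],
   [(1, [(2, true), (1, true)]), (4, [(8, true)]), (5, [(9, true)]), (8, [(2, true), (4, true)]),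
    (9, [(2, true), (5, true)])],
   [(0, [(3, false), (0, true), (3, true)]),
    (1, [(3, false), (0, true), (1, true), (0, false), (3, true)]),
    (2, [(3, false), (0, true), (2, true), (3, true)]), (3, [(3, false), (0, true)]),
    (4, [(3, false), (5, true)]), (5, [(3, false), (0, true), (4, true)]),
    (6, [(3, false), (0, true), (6, true)]), (7, [(3, false), (0, true), (7, true)]),
    (8, [(3, false), (0, true), (8, true)]), (9, [(3, false), (0, true), (9, true)])],
   [(0, [(3, false), (0, true), (3, true)]), (1, [(3, false), (1, true), (3, true)]),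
    (2, [(3, false), (2, true), (0, false), (3, true)]), (3, [(3, false), (0, true)]),
    (4, [(3, false), (5, true)]), (5, [(3, false), (0, true), (4, true)]),
    (6, [(3, false), (6, true)]), (7, [(3, false), (7, true)]), (8, [(3, false), (8, true)]),
    (9, [(3, false), (9, true)])],
   [(0, [(4, false), (1, true), (0, true), (1, false), (4, true)]),
    (1, [(4, false), (1, true), (4, true)]), (2, [(4, false), (1, true), (2, true), (4, true)]),
    (3, [(4, false), (5, true)]), (4, [(4, false), (1, true)]),
    (5, [(4, false), (1, true), (3, true)]), (6, [(4, false), (1, true), (6, true)]),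
    (7, [(4, false), (1, true), (7, true)]), (8, [(4, false), (1, true), (8, true)]),
    (9, [(4, false), (1, true), (9, true)])],
   [(0, [(4, false), (0, true), (4, true)]), (1, [(4, false), (1, true), (4, true)]),
    (2, [(4, false), (2, true), (1, false), (4, true)]), (3, [(4, false), (5, true)]),
    (4, [(4, false), (1, true)]), (5, [(4, false), (1, true), (3, true)]),
    (6, [(4, false), (6, true)]), (7, [(4, false), (7, true)]), (8, [(4, false), (8, true)]),
    (9, [(4, false), (9, true)])],
   [],
   [],
   [(2, [(0, false), (2, true)]), (6, [(0, false), (7, true)]), (7, [(6, true)]),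
    (8, [(0, false), (9, true)]), (9, [(8, true)])],
   [(2, [(0, true), (2, true)]), (6, [(7, true)]), (7, [(0, true), (6, true)]), (8, [(9, true)]),
    (9, [(0, true), (8, true)])],
   [(2, [(1, false), (2, true)]), (6, [(1, false), (8, true)]), (7, [(1, false), (9, true)]),
    (8, [(6, true)]), (9, [(7, true)])],
   [(2, [(1, true), (2, true)]), (6, [(8, true)]), (7, [(9, true)]), (8, [(1, true), (6, true)]),
    (9, [(1, true), (7, true)])],
   [],
   [],
   [(0, [(3, false), (0, false), (3, true)]), (1, [(3, false), (1, true), (3, true)]),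
    (2, [(3, false), (2, true), (3, true)]), (3, [(3, false)]), (4, [(3, false), (5, true)]),
    (5, [(3, false), (4, true)]), (6, [(3, false), (7, true)]), (7, [(3, false), (6, true)]),
    (8, [(3, false), (9, true)]), (9, [(3, false), (8, true)])],
   [(0, [(1, true)]), (1, [(0, true)]), (3, [(4, true)]), (4, [(3, true)]), (7, [(8, true)]),
    (8, [(7, true)])],
   [(1, [(2, true)]), (2, [(1, true)]), (4, [(6, true)]), (5, [(7, true)]), (6, [(4, true)]),
    (7, [(5, true)])]]

/-- conjugating words -/
def con10 : List (Wd (Fin 10)) :=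
  [[], [], [(4, false), (1, true)], [(4, false)], [(6, false), (2, true)], [(6, false)], [], [],
   [], [], [], [], [(3, false), (0, true)], [(3, false)], [], [], [(6, false), (2, true)],
   [(6, false)], [], [], [], [], [], [], [(3, false), (0, true)], [(3, false)],
   [(4, false), (1, true)], [(4, false)], [], [], [], [], [], [], [], [], [(3, false)], [], []]

/-- the table -/
def tb10 : Gm → Fin 10 → Wd (Fin 10) := rd tab10

/-- the ten indices -/
def l10 : List (Fin 10) := [0, 1, 2, 3, 4, 5, 6, 7, 8, 9]

lemma mem10 (i : Fin 10) : i ∈ l10 := by revert i; decide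

lemma inv10 : InvT tb10 := by
  have h : allG.all (fun γ => l10.all fun i =>
      evT tb10 [γ, ginv γ] [(i, true)] == [(i, true)]) = true := by decide +kernel
  intro γ i
  simpa using List.all_eq_true.1 (all_G h γ) i (mem10 i)

/-- equality test -/
def eq10 (r : List Gm × List Gm) : Bool :=
  l10.all fun i => evT tb10 r.1 [(i, true)] == evT tb10 r.2 [(i, true)]

lemma eq10_sound {r : List Gm × List Gm} (h : eq10 r = true) :
    evQ (au inv10) r.1 = evQ (au inv10) r.2 := by
  refine aut_ext fun i => ?_
  change evQ (au inv10) r.1 (FreeGroup.mk [(i, true)]) =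
    evQ (au inv10) r.2 (FreeGroup.mk [(i, true)])
  rw [evQ_au, evQ_au]
  exact congrArg _ (by simpa using List.all_eq_true.1 h i (mem10 i))

lemma rel10 : relW.all eq10 = true := by decide +kernel

lemma inn10 : ∀ i, eq10 (wI i, []) = true := by decide +kernel

/-- the inclusion of free groups -/
def inc {n m : ℕ} (h : n ≤ m) : FreeGroup (Fin n) →* FreeGroup (Fin m) :=
  FreeGroup.map (Fin.castLE h)

/-- the inclusion on words -/
def up (w : Wd (Fin 3)) : Wd (Fin 10) := w.map fun x => (Fin.castLE (by decide) x.1, x.2)

lemma inc_mk (w : Wd (Fin 3)) : inc (by decide) (FreeGroup.mk w) = FreeGroup.mk (up w) :=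
  map.mk

/-- `Ψ` restricts to `α` up to conjugation -/
def Ext (α : MulAut F3) (Ψ : MulAut (FreeGroup (Fin 10))) : Prop :=
  ∃ w, ∀ x, Ψ (inc (by decide) x) = w * inc (by decide) (α x) * w⁻¹

lemma ext_gen (γ : Gm) : Ext (au3 γ) (au inv10 γ) := by
  have h : allG.all (fun γ => [0, 1, 2].all fun i : Fin 3 =>
      reduce (tb10 γ (Fin.castLE (by decide) i)) ==
      reduce (con10.getD (ix γ) [] ++ up (tb3 γ i) ++ invRev (con10.getD (ix γ) []))) = true := by
    decide +kernel
  refine ⟨FreeGroup.mk (con10.getD (ix γ) []), fun x => ?_⟩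
  have : (au inv10 γ).toMonoidHom.comp (inc (by decide)) =
      (MulAut.conj (FreeGroup.mk (con10.getD (ix γ) []))).toMonoidHom.comp
        ((inc (by decide)).comp (au3 γ).toMonoidHom) := by
    refine FreeGroup.ext_hom _ _ fun i => ?_
    change au inv10 γ (of (Fin.castLE (by decide) i)) =
      FreeGroup.mk (con10.getD (ix γ) []) * inc (by decide) (au inv3 γ (of i)) *
        (FreeGroup.mk (con10.getD (ix γ) []))⁻¹
    rw [au_of, au_of, inc_mk, inv_mk, mul_mk, mul_mk]
    exact reduce.exact (by simpa using List.all_eq_true.1 (all_G h γ) i (mem3 i))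
  exact DFunLike.congr_fun this x

lemma ext_word (g : List Gm) : Ext (evQ au3 g) (evQ (au inv10) g) := by
  induction g with
  | nil => exact ⟨1, fun x => by simp [evQ_nil]⟩
  | cons γ g ih =>
    obtain ⟨w, hw⟩ := ih
    obtain ⟨v, hv⟩ := ext_gen γ
    refine ⟨au inv10 γ w * v, fun x => ?_⟩
    simp only [evQ_cons, MulAut.mul_apply, hw, _root_.map_mul, _root_.map_inv, hv]
    group

/-- extension of a homomorphism by the identity on the new generators -/
def exH {n m : ℕ} (h : n ≤ m) (X : FreeGroup (Fin n) →* FreeGroup (Fin n)) :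
    FreeGroup (Fin m) →* FreeGroup (Fin m) :=
  FreeGroup.lift fun k => if hk : k.1 < n then inc h (X (of ⟨k.1, hk⟩)) else of k

lemma exH_inc {n m : ℕ} (h : n ≤ m) (X : FreeGroup (Fin n) →* FreeGroup (Fin n))
    (x : FreeGroup (Fin n)) : exH h X (inc h x) = inc h (X x) := by
  have : (exH h X).comp (inc h) = (inc h).comp X :=
    FreeGroup.ext_hom _ _ fun i => by simp [exH, inc]
  exact DFunLike.congr_fun this x

lemma exH_comp {n m : ℕ} (h : n ≤ m) (X Y : FreeGroup (Fin n) →* FreeGroup (Fin n)) :
    (exH h X).comp (exH h Y) = exH h (X.comp Y) := by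
  refine FreeGroup.ext_hom _ _ fun k => ?_
  by_cases hk : k.1 < n
  · have e : ∀ Z, exH h Z (of k) = inc h (Z (of ⟨k.1, hk⟩)) := fun Z => by simp [exH, hk]
    rw [MonoidHom.comp_apply, e, e, exH_inc]; rfl
  · have e : ∀ Z, exH h Z (of k) = of k := fun Z => by simp [exH, hk]
    rw [MonoidHom.comp_apply, e, e, e]

lemma exH_id {n m : ℕ} (h : n ≤ m) : exH h (MonoidHom.id _) = MonoidHom.id _ := by
  refine FreeGroup.ext_hom _ _ fun k => ?_
  by_cases hk : k.1 < n <;> simp [exH, hk, inc]

/-- extension of automorphisms -/
def exA {n m : ℕ} (h : n ≤ m) : MulAut (FreeGroup (Fin n)) →* MulAut (FreeGroup (Fin m)) :=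
  MonoidHom.mk' (fun α => MonoidHom.toMulEquiv (exH h α.toMonoidHom) (exH h α.symm.toMonoidHom)
      (by rw [exH_comp, ← exH_id h]; congr 1; ext; simp)
      (by rw [exH_comp, ← exH_id h]; congr 1; ext; simp))
    fun α β => MulEquiv.toMonoidHom_injective (exH_comp h α.toMonoidHom β.toMonoidHom).symm

lemma exA_inc {n m : ℕ} (h : n ≤ m) (α : MulAut (FreeGroup (Fin n))) (x : FreeGroup (Fin n)) :
    exA h α (inc h x) = inc h (α x) := exH_inc h α.toMonoidHom x

/-- the retraction onto the first three generators -/
def ret (m : ℕ) : FreeGroup (Fin m) →* F3 :=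
  FreeGroup.lift fun k => if hk : k.1 < 3 then of ⟨k.1, hk⟩ else 1

lemma ret_inc {m : ℕ} (h : 10 ≤ m) (x : F3) : ret m (inc h (inc (by decide) x)) = x := by
  have : (ret m).comp ((inc h).comp (inc (n := 3) (by decide))) = MonoidHom.id _ :=
    FreeGroup.ext_hom _ _ fun i => by simp [ret, inc]
  exact DFunLike.congr_fun this x

theorem emb10 (m : ℕ) (h : 10 ≤ m) :
    ∃ f : Out F3 →* Out (FreeGroup (Fin m)), Function.Injective f := by
  let π : MulAut (FreeGroup (Fin 10)) →* Out (FreeGroup (Fin m)) :=
    (QuotientGroup.mk' (Inn _)).comp (exA h)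
  refine descend (fun γ => π (au inv10 γ)) (fun r hr => ?_) (fun i => ?_) fun g hg => ?_
  · rw [← evQ_map, ← evQ_map, eq10_sound (List.all_eq_true.1 rel10 r hr)]
  · rw [← evQ_map, eq10_sound (inn10 i), evQ_nil, _root_.map_one]
  · rw [← evQ_map] at hg
    obtain ⟨v, hv⟩ := (QuotientGroup.eq_one_iff _).1 hg
    obtain ⟨w, hw⟩ := ext_word g
    refine ⟨(ret m (inc h w))⁻¹ * ret m v, MulEquiv.ext fun x => ?_⟩
    have k := congrArg (ret m) (exA_inc h (evQ (au inv10) g) (inc (by decide) x))
    rw [← hv, hw] at k
    simp only [MulAut.conj_apply, _root_.map_mul, _root_.map_inv, ret_inc] at k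
    rw [MulAut.conj_apply, mul_inv_rev, inv_inv, mul_assoc _ (ret m v), mul_assoc,
      ← mul_assoc (ret m v * x), k]
    group

end Pool.Agent.MP_3ce0a0_al.H15.C
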