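import Pool.Agent.MP_3ce0a0_al.H79.MainA

/-
Assembly of the steps.
-/

namespace Pool.Agent.MP_3ce0a0_al.H79

open Equiv

/-- what the graph realising the signed permutation group gives. -/
theorem stepY (hReal : SReal) (hLI : SLI) (hSupp : SSupp) (hOrb : SOrb) (hY : SY)
    (hDegC : SDegC) (hTr : STrace) {A B G : Type} [Fintype A] [DecidableEq A] [Fintype B]
    [DecidableEq B] [Group G] [Finite G] (τ : Perm B) (hS : Shape A B τ) (m r : ℕ) (hm : 2 ≤ m)
    (hr : 6 * m < 2 ^ r) (hA : 10 ≤ Fintype.card A) (hbig : 30 * r + 17 ≤ Fintype.card (A ⊕ B))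
    (π : Out (FG m) →* (HV m ≃ₗ[ℂ] HV m)) (hπ : IsRep π) (ψ : G →* Out (FG m))
    (w : WS (A ⊕ B) G) (N : NS (A ⊕ B) (Out (FG m))) (hε : ∀ a, ψ (w.ε a) = N.ε a)
    (hσ : ∀ σ, ψ (w.π σ) = N.π σ) (hξ : xi w τ * xi w τ = 1) :
    ∃ h d : ℕ, m = h + d * Fintype.card (A ⊕ B) ∧
      Module.finrank ℂ (FixSpan (ψ (xi w τ))) ≤ h ∧
      (∀ σ : Perm A, Perm.sign σ = 1 →
        LinearMap.trace ℂ (HV m) (π (ψ (xi w τ) * N.π (Perm.sumCongr σ 1))).toLinearMap =
          h - d * (Nat.card {a // σ a = a} : ℂ)) ∧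
      (d = 0 → ∀ a b, N.ε a * N.ε b = 1) := by
  classical
  obtain ⟨V, E, _, _, _, _, o, t, j, hA', hB, hC, hD⟩ := hReal G m hm π ψ hπ
  obtain ⟨a1, a2, a3, a4, a5, a6, a7, a8, a9⟩ := id hA'
  obtain ⟨oV, oE⟩ := hOrb G V E o t m j hm a1 a2 a3 a4 a5 a6 a7
  obtain ⟨sV, hsV⟩ := supp_of hLI hSupp w r m oV hr (by omega)
  obtain ⟨sE, hsE⟩ := supp_of hLI hSupp w r m oE hr (by omega)
  obtain ⟨y1, y2, y3⟩ := hY (A ⊕ B) G V E m π ψ o t j w N (6 * r) sV sE hε hσ hA' hB hC hsV hsE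
    (by omega)
  have hEmb : Emb (N.map π).toWS (w.map (MulAction.toPermHom G E)) j := by
    refine ⟨a6, fun σ z ω => ?_, fun a z ω => ?_⟩
    · have := a8 (w.π σ) z ω
      rw [hσ] at this
      exact this
    · have := a8 (w.ε a) z ω
      rw [hε] at this
      exact this
  obtain ⟨d1, d2, -, d4, d5⟩ := hDegC (A ⊕ B) (HV m) E (N.map π)
    (w.map (MulAction.toPermHom G E)) j (labOf sE) (by omega) hEmb
    (fun σ ω => labOf_map sE _ _ σ (hsE.2.2.2.1 σ ω))
    (fun a ω => labOf_congr sE _ _ (hsE.2.2.2.2 a ω))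
    (fun z ω hz => by rw [compl_lab sE ω (y1 z ω hz)]; exact hsE.2.1 ω)
  have d6 : ∀ z a, ∃ y ∈ Ea (N.map π).toWS a,
      ∀ ω, j y ω = if labOf sE ω = some a then j z ω else 0 := fun z a =>
    d5 z a fun ω f h1 h2 => y2 z ω a f ((labOf_eq_some sE ω a).1 h1) h2
  have hne : Nonempty A := Fintype.card_pos_iff.1 (by omega)
  obtain ⟨a₀⟩ := hne
  obtain ⟨t1, t2, t3, t4⟩ := hTr A B (HV m) (N.map π).toWS τ (Sum.inl a₀) hA hS d1 d2
  have hx : π (ψ (xi w τ)) = xi (N.map π).toWS τ :=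
    xi_hom w (N.map π).toWS (π.comp ψ) τ (fun a => congrArg π (hε a)) fun σ => congrArg π (hσ σ)
  refine ⟨Module.finrank ℂ (E0 (N.map π).toWS), Module.finrank ℂ (Ea (N.map π).toWS (Sum.inl a₀)),
    ?_, ?_, ?_, ?_⟩
  · rw [← t1]; simp
  · refine Submodule.finrank_mono fun z hz => d4 z fun e he => ?_
    have hfix := (hD (xi w τ) hξ z).2 hz e he
    rcases hl : labOf sE e with _ | a
    · rfl
    exfalso
    rcases a with a | b
    · obtain ⟨y, hy, hy'⟩ := d6 z (Sum.inl a)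
      have h1 := a8 (xi w τ) y e
      rw [hx, t3 a y hy, hfix, map_neg, Pi.neg_apply, hy', if_pos hl] at h1
      exact he (by linear_combination (-1 / 2 : ℂ) * h1)
    · have h1 := supp_xi w τ _ sE hsE e
      rw [hfix, (labOf_eq_some sE e _).1 hl] at h1
      have h2 : τ b = b := by simpa using h1.symm
      rcases hS with ⟨h3, -⟩ | ⟨y, y', h3, h4, h5, -⟩
      · exact h3.false b
      · rcases h4 b with rfl | rfl
        · rw [h5, swap_apply_left] at h2
          exact h3 h2.symm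
        · rw [h5, swap_apply_right] at h2
          exact h3 h2
  · intro σ hs
    rw [map_mul, hx]
    exact t4 σ hs
  · intro h0 a b
    have hall := y3 fun z e he => by
      by_contra hne
      obtain ⟨c, hc⟩ := Finset.card_eq_one.1
        (le_antisymm (y1 z e he) (Finset.card_pos.2 (Finset.nonempty_iff_ne_empty.2 hne)))
      obtain ⟨y, hy, hy'⟩ := d6 z c
      have h1 : Ea (N.map π).toWS c = ⊥ := Submodule.finrank_eq_zero.1 ((t2 c).trans h0)
      rw [h1, Submodule.mem_bot] at hy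
      have h2 := hy' e
      rw [hy, if_pos ((labOf_eq_some sE e c).2 hc), map_zero] at h2
      exact he h2.symm
    rw [← hε, ← hε, ← map_mul]
    refine a9 _ fun e => ?_
    rw [mul_smul]
    exact (hsE.2.1 e).2 a (by simp [hall e]) b (by simp [hall e])

theorem out_one_comm (x y : Out (FG 1)) : x * y = y * x := by
  have hc : IsCyclic (FG 1) := by
    refine ⟨FreeGroup.of 0, fun z => ?_⟩
    show z ∈ Subgroup.zpowers (FreeGroup.of 0)
    induction z using FreeGroup.induction_on with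
    | C1 => exact one_mem _
    | of i => rw [Subsingleton.elim i 0]; exact Subgroup.mem_zpowers _
    | inv_of i h => exact inv_mem h
    | mul u v hu hv => exact mul_mem hu hv
  obtain ⟨x, rfl⟩ := QuotientGroup.mk_surjective x
  obtain ⟨y, rfl⟩ := QuotientGroup.mk_surjective y
  rw [← QuotientGroup.mk_mul, ← QuotientGroup.mk_mul]
  congr 1
  apply (IsCyclic.mulAutMulEquiv (FG 1)).injective
  rw [map_mul, map_mul, mul_comm]

theorem core (hRep : SRep) (hReal : SReal) (hLI : SLI) (hSupp : SSupp) (hOrb : SOrb) (hY : SY)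
    (hDegC : SDegC) (hTr : STrace) (hX : SX) (hInst : SInst) {A B : Type} [Fintype A]
    [DecidableEq A] [Fintype B] [DecidableEq B] (τ : Perm B) (hS : Shape A B τ) (n m r : ℕ)
    (hn : Fintype.card (A ⊕ B) = n) (hAn : n ≤ Fintype.card A + 2) (hm1 : 1 ≤ m) (hm : m ≠ n)
    (hr : 6 * m < 2 ^ r) (hbig : 30 * r + 17 ≤ n) (φ : Out (FG n) →* Out (FG m)) :
    ¬ Function.Injective φ := by
  classical
  intro hφ
  have hr0 : r ≠ 0 := by
    rintro rfl
    omega
  obtain ⟨N, G, _, _, w, β, κ, i1, i2, i3, i4, i5, i6⟩ := hInst A B τ n hS hn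
  have : Nontrivial (A ⊕ B) := Fintype.one_lt_card_iff_nontrivial.1 (by omega)
  obtain ⟨a, b, hab⟩ := exists_pair_ne (A ⊕ B)
  rcases eq_or_lt_of_le hm1 with rfl | hm2
  · refine i6 a b hab (hφ ?_)
    have h1 := congrArg φ (N.π_ε (swap a b) a)
    rw [map_mul, map_mul, swap_apply_left, out_one_comm, mul_left_inj] at h1
    rw [map_mul, h1, ← map_mul, N.ε_sq]
  obtain ⟨π, hπ⟩ := hRep m
  obtain ⟨h, d, s1, s2, s3, s4⟩ := stepY hReal hLI hSupp hOrb hY hDegC hTr τ hS m r (by omega) hr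
    (by omega) (by omega) π hπ (φ.comp β) w (N.map φ) (fun a => congrArg φ (i1 a))
    (fun σ => congrArg φ (i2 σ)) i5
  have hx : β (xi w τ) = xi N.toWS τ := xi_hom w N.toWS β τ i1 i2
  have hcomm : ∀ (σ : Perm (Option A)) (x : Subgroup.zpowers (xi w τ)),
      Commute (κ σ) ((β.comp (Subgroup.zpowers (xi w τ)).subtype) x) := by
    rintro σ ⟨_, k, rfl⟩
    simp only [MonoidHom.comp_apply, Subgroup.coe_subtype, map_zpow, hx]
    exact ((i4 σ).symm).zpow_right k
  let ψ : Perm (Option A) × Subgroup.zpowers (xi w τ) →* Out (FG m) :=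
    φ.comp (MonoidHom.noncommCoprod κ (β.comp (Subgroup.zpowers (xi w τ)).subtype) hcomm)
  let wc : WS (Option A) (Perm (Option A) × Subgroup.zpowers (xi w τ)) :=
    { ε := fun _ => 1
      π := MonoidHom.inl _ _
      ε_sq := fun _ => one_mul _
      ε_comm := fun _ _ => rfl
      π_ε := fun _ _ => by rw [mul_one, one_mul] }
  let ξ : Perm (Option A) × Subgroup.zpowers (xi w τ) := (1, ⟨xi w τ, Subgroup.mem_zpowers _⟩)
  have hψξ : ψ ξ = φ (β (xi w τ)) := by simp [ψ, ξ]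
  have hψπ : ∀ σ, ψ (wc.π σ) = φ (κ σ) := fun σ => by simp [ψ, wc]
  obtain ⟨V, E, _, _, _, _, o, t, j, hA', -, -, hD⟩ := hReal _ m (by omega) π ψ hπ
  obtain ⟨a1, a2, a3, a4, a5, a6, a7, -, -⟩ := id hA'
  obtain ⟨oV, oE⟩ := hOrb _ V E o t m j (by omega) a1 a2 a3 a4 a5 a6 a7
  have hc : 12 * r + 3 ≤ Fintype.card (Option A) := by rw [Fintype.card_option]; omega
  obtain ⟨sV, hsV⟩ := supp_of hLI hSupp wc r m oV hr hc
  obtain ⟨sE, hsE⟩ := supp_of hLI hSupp wc r m oE hr hc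
  have key := hX A _ V E m π ψ o t j wc ξ (6 * r) h d sV sE (fun _ => rfl)
    (fun σ => by
      show ξ * wc.π σ = wc.π σ * ξ
      ext <;> simp [ξ, wc])
    (by ext <;> simp [ξ, i5]) hA' hD hsV hsE (by omega) (by omega) (by rw [hψξ]; exact s2)
    (fun σ hσ => by
      rw [map_mul, hψξ, hψπ, i3]
      exact s3 σ hσ)
  rw [hn] at s1
  rcases key with h0 | h1
  · refine i6 a b hab (hφ ?_)
    rw [map_mul, map_one]
    exact s4 h0 a b
  · rcases Nat.eq_zero_or_pos d with h2 | h2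
    · rw [h2] at s1 h1
      omega
    · have h3 : d = 1 := by omega
      rw [h3] at s1 h1
      omega

theorem main (hRep : SRep) (hReal : SReal) (hLI : SLI) (hSupp : SSupp) (hOrb : SOrb) (hY : SY)
    (hDegC : SDegC) (hTr : STrace) (hX : SX) (hInst : SInst) (n m : ℕ) (hm1 : 1 ≤ m) (hm : m ≠ n)
    (hr : 6 * m < 2 ^ ((n - 17) / 30)) (φ : Out (FG n) →* Out (FG m)) :
    ¬ Function.Injective φ := by
  have hr0 : (n - 17) / 30 ≠ 0 := by
    intro h
    rw [h] at hr
    omega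
  have hbig : 30 * ((n - 17) / 30) + 17 ≤ n := by omega
  have hn : 47 ≤ n := by omega
  rcases Nat.even_or_odd n with he | ho
  · exact core hRep hReal hLI hSupp hOrb hY hDegC hTr hX hInst (A := Fin n) (B := Empty) 1
      (Or.inl ⟨inferInstance, by simpa using he⟩) n m _ (by simp) (by simp) hm1 hm hr hbig φ
  · refine core hRep hReal hLI hSupp hOrb hY hDegC hTr hX hInst (A := Fin (n - 2)) (B := Bool)
      (swap true false) (Or.inr ⟨true, false, by simp, by simp, rfl, ?_⟩) n m _ ?_ ?_ hm1 hm hr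
      hbig φ
    · rw [Fintype.card_fin]
      obtain ⟨k, rfl⟩ := ho
      exact ⟨k - 1, by omega⟩
    · simp only [Fintype.card_sum, Fintype.card_fin, Fintype.card_bool]
      omega
    · rw [Fintype.card_fin]
      omega

end Pool.Agent.MP_3ce0a0_al.H79
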