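import Pool.Agent.MP_3ce0a0_al.H79.SpecN

/-
Statements of the sharper steps: supports of size up to about one half of the rank.
-/

namespace Pool.Agent.MP_3ce0a0_al.H79

open Equiv

/-- transitive groups that do not contain the alternating group are small. -/
def STB : Prop :=
  ∀ (α : Type) [Fintype α] [DecidableEq α] (G : Subgroup (Perm α)), 11 ≤ Fintype.card α →
    MulAction.IsPretransitive G α → ¬ alternatingGroup α ≤ G →
    Nat.card G ≤
      2 * (Fintype.card α / 2).factorial * (Fintype.card α - Fintype.card α / 2).factorial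

/-- large subgroups of a symmetric group contain a large alternating group. -/
def SGL : Prop :=
  ∀ (α : Type) [Fintype α] [DecidableEq α] (G : Subgroup (Perm α)) (k : ℕ), 1 ≤ k →
    2 * k + 9 ≤ Fintype.card α →
    2 * k.factorial * (Fintype.card α - k).factorial < Nat.card G →
    ∃ X : Finset α, Xᶜ.card < k ∧ (∀ g ∈ G, ∀ x ∈ X, g x ∈ X) ∧
      ∀ σ : Perm α, Perm.sign σ = 1 → (∀ a, a ∉ X → σ a = a) → σ ∈ G

/-- points with a small orbit are fixed by a large alternating group. -/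
def SLI2 : Prop :=
  ∀ (ι Ω : Type) [Fintype ι] [DecidableEq ι] (P : WS ι (Perm Ω)) (ω : Ω) (T : Finset Ω) (k : ℕ),
    ω ∈ T → (∀ σ, ∀ x ∈ T, P.π σ x ∈ T) → (∀ a, ∀ x ∈ T, P.ε a x ∈ T) →
    4 * T.card < (Fintype.card ι).choose k → 2 * k + 9 ≤ Fintype.card ι →
    ∃ X : Finset ι, Xᶜ.card < k ∧ Fx P ω X

/-- the subgraph of cells supported in a large set is connected. -/
def SConn2 : Prop :=
  ∀ (ι V E : Type) [Fintype ι] [DecidableEq ι] (o t : E → V) (PV : WS ι (Perm V))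
    (PE : WS ι (Perm E)) (k : ℕ) (sV : V → Finset ι) (sE : E → Finset ι),
    2 * k + 3 ≤ Fintype.card ι → GrW o t PV PE → Supp PV k sV → Supp PE k sE →
    (∀ u v, Lnk o t (fun _ => True) u v) →
    (∀ e, sV (o e) ⊆ sE e ∧ sV (t e) ⊆ sE e) ∧
    ∀ S : Finset ι, 2 * k ≤ S.card → ∀ u v, sV u ⊆ S → sV v ⊆ S →
      Lnk o t (fun e => sE e ⊆ S) u v

/-- transpositions off the support act by the sign `η`. -/
def Sg {ι Ω : Type} [DecidableEq ι] (P : WS ι (Perm Ω)) (s : Ω → Finset ι) (η : ℂ)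
    (y : Ω → ℂ) : Prop :=
  ∀ ω a b, a ≠ b → a ∉ s ω → b ∉ s ω → y (P.π (swap a b) ω) = η * y ω

/-- the image of `j` is stable under the involution given by transpositions off the support. -/
def Splits {ι H Ω : Type} [DecidableEq ι] [AddCommGroup H] [Module ℂ H] (P : WS ι (Perm Ω))
    (s : Ω → Finset ι) (j : H →ₗ[ℂ] (Ω → ℂ)) : Prop :=
  ∀ h, ∃ h', ∀ ω a b, a ≠ b → a ∉ s ω → b ∉ s ω → j h' ω = j h (P.π (swap a b) ω)

/-- maps commuting with most transpositions keep the sign. -/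
def SBar : Prop :=
  ∀ (ι H Ω : Type) [Fintype ι] [DecidableEq ι] [AddCommGroup H] [Module ℂ H]
    (Q : WS ι (H ≃ₗ[ℂ] H)) (P : WS ι (Perm Ω)) (j : H →ₗ[ℂ] (Ω → ℂ)) (k : ℕ)
    (s : Ω → Finset ι), Emb Q P j → Supp P k s → 2 * k + 3 ≤ Fintype.card ι → Splits P s j →
    ∀ η : ℂ, η = 1 ∨ η = -1 → ∀ (u : H ≃ₗ[ℂ] H) (a b : ι),
      (∀ c e, c ≠ a → c ≠ b → e ≠ a → e ≠ b → Commute u (Q.π (swap c e))) →
      ∀ h, Sg P s η (j h) → Sg P s η (j (u h))

/-- the top cross effect is odd. -/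
def STop2 : Prop :=
  ∀ (ι H Ω : Type) [Fintype ι] [DecidableEq ι] [AddCommGroup H] [Module ℂ H]
    [FiniteDimensional ℂ H] (N : NS ι (H ≃ₗ[ℂ] H)) (P : WS ι (Perm Ω)) (j : H →ₗ[ℂ] (Ω → ℂ))
    (k : ℕ) (s : Ω → Finset ι) (I : Finset ι) (i : ι), Emb N.toWS P j → Supp P k s →
    2 * k + 8 ≤ Fintype.card ι → Splits P s j → I.card < k → i ∈ I →
    (∀ h ω, j h ω ≠ 0 → (s ω).card ≤ I.card) →
    ∃ (a' : ι) (b : ι → ι), a' ∉ I ∧ (∀ t, b t ∉ I) ∧ ∀ h,
      (∀ ω, j h ω ≠ 0 → a' ∉ s ω ∧ (s ω = I ∨ ∃ t ∈ I, t ∉ s ω ∧ b t ∉ s ω)) →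
      ∀ ω f, s ω = I → f ∉ I → j h (P.ε i (P.ε f ω)) = -j h ω

/-- actions with small supports are trivial on the even permutations. -/
def SSmall2 : Prop :=
  ∀ (ι Ω : Type) [Fintype ι] [DecidableEq ι] [Finite Ω] (N : NS ι (Perm Ω)) (k : ℕ),
    2 * k + 8 ≤ Fintype.card ι → (∀ ω, ∃ X : Finset ι, Xᶜ.card < k ∧ Fx N.toWS ω X) →
    ∀ σ : Perm ι, Perm.sign σ = 1 → ∀ ω, N.π σ ω = ω

/-- only edges with support of size at most one carry cycles. -/
def SY2 : Prop :=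
  ∀ (ι G V E : Type) [Fintype ι] [DecidableEq ι] [Group G] [MulAction G V] [MulAction G E]
    [Fintype V] [Fintype E] (m : ℕ) (π : Out (FG m) →* (HV m ≃ₗ[ℂ] HV m)) (ψ : G →* Out (FG m))
    (o t : E → V) (j : HV m →ₗ[ℂ] (E → ℂ)) (w : WS ι G) (N : NS ι (Out (FG m))) (k : ℕ)
    (sV : V → Finset ι) (sE : E → Finset ι), (∀ a, ψ (w.ε a) = N.ε a) →
    (∀ σ, ψ (w.π σ) = N.π σ) → RealA π ψ o t j → RealC ψ o t →
    Supp (w.map (MulAction.toPermHom G V)) k sV → Supp (w.map (MulAction.toPermHom G E)) k sE →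
    2 * k + 10 ≤ Fintype.card ι →
    (∀ h e, j h e ≠ 0 → (sE e).card ≤ 1) ∧
    (∀ h e i f, sE e = {i} → f ≠ i → j h (w.ε i • w.ε f • e) = -j h e) ∧
    ((∀ h e, j h e ≠ 0 → sE e = ∅) → ∀ e, sE e = ∅)

/-- the count on the graph realising the cage group. -/
def SX2 : Prop :=
  ∀ (A G V E : Type) [Fintype A] [DecidableEq A] [Group G] [MulAction G V] [MulAction G E]
    [Fintype V] [Fintype E] (m : ℕ) (π : Out (FG m) →* (HV m ≃ₗ[ℂ] HV m)) (ψ : G →* Out (FG m))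
    (o t : E → V) (j : HV m →ₗ[ℂ] (E → ℂ)) (w : WS (Option A) G) (ξ : G) (k h r : ℕ)
    (sV : V → Finset (Option A)) (sE : E → Finset (Option A)), (∀ a, w.ε a = 1) →
    (∀ σ, Commute ξ (w.π σ)) → ξ * ξ = 1 → RealA π ψ o t j → RealD ψ j →
    Supp (w.map (MulAction.toPermHom G V)) k sV → Supp (w.map (MulAction.toPermHom G E)) k sE →
    12 ≤ Fintype.card A → 2 * k + 8 ≤ Fintype.card A → Module.finrank ℂ (FixSpan (ψ ξ)) ≤ h →
    (∀ σ : Perm A, Perm.sign σ = 1 →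
      LinearMap.trace ℂ (HV m) (π (ψ (ξ * w.π (Equiv.optionCongr σ)))).toLinearMap =
        h - r * (Nat.card {a // σ a = a} : ℂ)) →
    (∀ σ τ : Perm A, Perm.sign σ = 1 → Perm.sign τ = 1 → Perm.Disjoint σ τ → ∀ z,
      π (ψ (w.π (Equiv.optionCongr τ))) (z - π (ψ (w.π (Equiv.optionCongr σ))) z) =
        z - π (ψ (w.π (Equiv.optionCongr σ))) z) →
    r = 0 ∨ h + r = 1

end Pool.Agent.MP_3ce0a0_al.H79
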