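import Pool.Agent.MP_3ce0a0_al.H79.SpecN

/-
Small lemmas for the assembly.
-/

namespace Pool.Agent.MP_3ce0a0_al.H79

open Equiv

theorem supp_of (hLI : SLI) (hSupp : SSupp) {ι G Ω : Type} [Fintype ι] [DecidableEq ι] [Group G]
    [MulAction G Ω] [Fintype Ω] (w : WS ι G) (r m : ℕ)
    (horb : ∀ x : Ω, Nat.card (MulAction.orbit G x) ≤ 6 * m) (hr : 6 * m < 2 ^ r)
    (h2 : 12 * r + 3 ≤ Fintype.card ι) :
    ∃ s, Supp (w.map (MulAction.toPermHom G Ω)) (6 * r) s := by
  classical
  refine hSupp ι Ω _ (6 * r) (by omega) fun ω => ?_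
  refine hLI ι Ω _ ω (MulAction.orbit G ω).toFinset r ?_ ?_ ?_ ?_ (by omega)
  · simp
  · intro σ x hx
    rw [Set.mem_toFinset] at hx ⊢
    exact MulAction.mem_orbit_of_mem_orbit (w.π σ) hx
  · intro a x hx
    rw [Set.mem_toFinset] at hx ⊢
    exact MulAction.mem_orbit_of_mem_orbit (w.ε a) hx
  · have := horb ω
    rw [Nat.card_eq_fintype_card, ← Set.toFinset_card] at this
    omega

theorem xi_hom {A B W W' : Type} [Fintype A] [Group W] [Group W'] (P : WS (A ⊕ B) W)
    (Q : WS (A ⊕ B) W') (f : W →* W') (τ : Perm B) (h1 : ∀ a, f (P.ε a) = Q.ε a)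
    (h2 : ∀ σ, f (P.π σ) = Q.π σ) : f (xi P τ) = xi Q τ := by
  unfold xi
  rw [map_mul, h2, map_list_prod, List.map_map]
  congr 2
  exact List.map_congr_left fun a _ => h1 _

theorem supp_xi {A B G Ω : Type} [Fintype A] [DecidableEq A] [Fintype B] [DecidableEq B] [Group G]
    [MulAction G Ω] (w : WS (A ⊕ B) G) (τ : Perm B) (k : ℕ) (s : Ω → Finset (A ⊕ B))
    (hs : Supp (w.map (MulAction.toPermHom G Ω)) k s) (e : Ω) :
    s (xi w τ • e) = (s e).map (Perm.sumCongr 1 τ).toEmbedding := by
  have h1 : ∀ (l : List A) (x : Ω), s ((l.map fun a : A => w.ε (Sum.inl a)).prod • x) = s x := by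
    intro l
    induction l with
    | nil => intro x; simp
    | cons a l ih =>
      intro x
      rw [List.map_cons, List.prod_cons, mul_smul]
      exact (hs.2.2.2.2 (Sum.inl a) _).trans (ih x)
  unfold xi
  rw [mul_smul, h1]
  exact hs.2.2.2.1 _ e

open Classical in
/-- the label of a cell whose support is a single index. -/
noncomputable def labOf {ι Ω : Type} (s : Ω → Finset ι) (e : Ω) : Option ι :=
  if h : ∃ a, s e = {a} then some h.choose else none

theorem labOf_eq_some {ι Ω : Type} (s : Ω → Finset ι) (e : Ω) (a : ι) :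
    labOf s e = some a ↔ s e = {a} := by
  unfold labOf
  split_ifs with h
  · constructor
    · intro h1
      rw [← Option.some.inj h1]
      exact h.choose_spec
    · intro h1
      have h2 := h.choose_spec
      rw [Finset.singleton_inj.1 (h2.symm.trans h1)]
  · constructor
    · intro h1; cases h1
    · intro h1; exact absurd ⟨a, h1⟩ h

theorem labOf_map {ι Ω : Type} (s : Ω → Finset ι) (e e' : Ω) (σ : Perm ι)
    (h : s e' = (s e).map σ.toEmbedding) : labOf s e' = (labOf s e).map σ := by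
  refine Option.ext fun a => ?_
  rw [labOf_eq_some, Option.map_eq_some_iff, h]
  constructor
  · intro h1
    refine ⟨σ.symm a, ?_, by simp⟩
    rw [labOf_eq_some]
    apply Finset.map_injective σ.toEmbedding
    rw [h1]
    simp
  · rintro ⟨b, hb, rfl⟩
    rw [labOf_eq_some] at hb
    rw [hb]
    simp

theorem labOf_congr {ι Ω : Type} (s : Ω → Finset ι) (e e' : Ω) (h : s e' = s e) :
    labOf s e' = labOf s e := by
  refine Option.ext fun a => ?_
  rw [labOf_eq_some, labOf_eq_some, h]

theorem compl_lab {ι Ω : Type} [Fintype ι] [DecidableEq ι] (s : Ω → Finset ι) (e : Ω)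
    (h : (s e).card ≤ 1) : (Finset.univ.filter fun a => labOf s e ≠ some a) = (s e)ᶜ := by
  ext a
  simp only [Finset.mem_filter, Finset.mem_univ, true_and, Finset.mem_compl, ne_eq, labOf_eq_some]
  refine not_congr ⟨fun h1 => by rw [h1]; simp, fun h1 => ?_⟩
  exact Finset.eq_singleton_iff_unique_mem.2
    ⟨h1, fun b hb => Finset.card_le_one.1 h b hb a h1⟩

end Pool.Agent.MP_3ce0a0_al.H79
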