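import Pool.Agent.MP_3ce0a0_al.H79.SpecT

/-
Statements of the steps: signed permutations, supports and Nielsen relations.
-/

namespace Pool.Agent.MP_3ce0a0_al.H79

open Equiv

/-- sign changes and permutations inside a group. -/
structure WS (ι W : Type) [Group W] where
  ε : ι → W
  π : Perm ι →* W
  ε_sq : ∀ a, ε a * ε a = 1
  ε_comm : ∀ a b, ε a * ε b = ε b * ε a
  π_ε : ∀ σ a, π σ * ε a = ε (σ a) * π σ

/-- Nielsen transformations inside a group. -/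
structure NS (ι W : Type) [DecidableEq ι] [Group W] extends WS ι W where
  ρ : ι → ι → W
  lam : ι → ι → W
  π_ρ : ∀ σ a b, a ≠ b → π σ * ρ a b = ρ (σ a) (σ b) * π σ
  π_lam : ∀ σ a b, a ≠ b → π σ * lam a b = lam (σ a) (σ b) * π σ
  ε_right : ∀ a b, a ≠ b → ε b * ρ a b * ε b = (ρ a b)⁻¹
  ε_left : ∀ a b, a ≠ b → ε a * ρ a b * ε a = (lam a b)⁻¹
  ε_other : ∀ a b c, a ≠ b → c ≠ a → c ≠ b → Commute (ε c) (ρ a b)
  ρ_ρ : ∀ a b c e, a ≠ b → c ≠ e → a ≠ c → a ≠ e → c ≠ b → Commute (ρ a b) (ρ c e)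
  ρ_lam : ∀ a b c e, a ≠ b → c ≠ e → a ≠ e → c ≠ b → Commute (ρ a b) (lam c e)
  lam_lam : ∀ a b c e, a ≠ b → c ≠ e → a ≠ c → a ≠ e → c ≠ b → Commute (lam a b) (lam c e)
  conj_lam : ∀ a b c, a ≠ b → c ≠ a → c ≠ b →
    lam c a * ρ a b * (lam c a)⁻¹ = ρ a b * (lam c b)⁻¹
  conj_ρ : ∀ a b c, a ≠ b → c ≠ a → c ≠ b → (ρ c a)⁻¹ * ρ a b * ρ c a = ρ a b * ρ c b
  gersten : ∀ a b, a ≠ b → ρ a b * (ρ b a)⁻¹ * lam a b = π (swap a b) * ε b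

/-- image under a homomorphism. -/
def WS.map {ι W W' : Type} [Group W] [Group W'] (P : WS ι W) (f : W →* W') : WS ι W' where
  ε a := f (P.ε a)
  π := f.comp P.π
  ε_sq a := by rw [← map_mul, P.ε_sq, map_one]
  ε_comm a b := by rw [← map_mul, P.ε_comm, map_mul]
  π_ε σ a := by simp only [MonoidHom.comp_apply, ← map_mul, P.π_ε]

/-- image under a homomorphism. -/
def NS.map {ι W W' : Type} [DecidableEq ι] [Group W] [Group W'] (N : NS ι W) (f : W →* W') :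
    NS ι W' where
  toWS := N.toWS.map f
  ρ a b := f (N.ρ a b)
  lam a b := f (N.lam a b)
  π_ρ σ a b h := by
    simpa only [WS.map, MonoidHom.comp_apply, map_mul] using congrArg f (N.π_ρ σ a b h)
  π_lam σ a b h := by
    simpa only [WS.map, MonoidHom.comp_apply, map_mul] using congrArg f (N.π_lam σ a b h)
  ε_right a b h := by
    simpa only [WS.map, MonoidHom.comp_apply, map_mul, map_inv] using congrArg f (N.ε_right a b h)
  ε_left a b h := by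
    simpa only [WS.map, MonoidHom.comp_apply, map_mul, map_inv] using congrArg f (N.ε_left a b h)
  ε_other a b c h₁ h₂ h₃ := (N.ε_other a b c h₁ h₂ h₃).map f
  ρ_ρ a b c e h₁ h₂ h₃ h₄ h₅ := (N.ρ_ρ a b c e h₁ h₂ h₃ h₄ h₅).map f
  ρ_lam a b c e h₁ h₂ h₃ h₄ := (N.ρ_lam a b c e h₁ h₂ h₃ h₄).map f
  lam_lam a b c e h₁ h₂ h₃ h₄ h₅ := (N.lam_lam a b c e h₁ h₂ h₃ h₄ h₅).map f
  conj_lam a b c h₁ h₂ h₃ := by
    simpa only [map_mul, map_inv] using congrArg f (N.conj_lam a b c h₁ h₂ h₃)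
  conj_ρ a b c h₁ h₂ h₃ := by
    simpa only [map_mul, map_inv] using congrArg f (N.conj_ρ a b c h₁ h₂ h₃)
  gersten a b h := by
    simpa only [WS.map, MonoidHom.comp_apply, map_mul, map_inv] using congrArg f (N.gersten a b h)

section
variable {ι Ω : Type} [Fintype ι] [DecidableEq ι] (P : WS ι (Perm Ω))

/-- `ω` is fixed by the even permutations and the even sign changes supported in `X`. -/
def Fx (ω : Ω) (X : Finset ι) : Prop :=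
  (∀ σ : Perm ι, Perm.sign σ = 1 → (∀ a, a ∉ X → σ a = a) → P.π σ ω = ω) ∧
    ∀ a ∈ X, ∀ b ∈ X, P.ε a (P.ε b ω) = ω

/-- a support function. -/
def Supp (k : ℕ) (s : Ω → Finset ι) : Prop :=
  (∀ ω, (s ω).card < k) ∧ (∀ ω, Fx P ω (s ω)ᶜ) ∧
  (∀ ω X, k + 3 ≤ X.card → Fx P ω X → Disjoint (s ω) X) ∧
  (∀ σ ω, s (P.π σ ω) = (s ω).map σ.toEmbedding) ∧ ∀ a ω, s (P.ε a ω) = s ω

end

/-- points with a small orbit are fixed by a large alternating group. -/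
def SLI : Prop :=
  ∀ (ι Ω : Type) [Fintype ι] [DecidableEq ι] (P : WS ι (Perm Ω)) (ω : Ω) (T : Finset Ω) (r : ℕ),
    ω ∈ T → (∀ σ, ∀ x ∈ T, P.π σ x ∈ T) → (∀ a, ∀ x ∈ T, P.ε a x ∈ T) → T.card < 2 ^ r →
    10 * r ≤ Fintype.card ι → ∃ X : Finset ι, Xᶜ.card < 6 * r ∧ Fx P ω X

def SSupp : Prop :=
  ∀ (ι Ω : Type) [Fintype ι] [DecidableEq ι] (P : WS ι (Perm Ω)) (k : ℕ),
    2 * k + 3 ≤ Fintype.card ι → (∀ ω, ∃ X : Finset ι, Xᶜ.card < k ∧ Fx P ω X) →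
    ∃ s, Supp P k s

/-- orbits of cells of a graph of rank `m` without leaves. -/
def SOrb : Prop :=
  ∀ (G V E : Type) [Group G] [MulAction G V] [MulAction G E] [Fintype V] [Fintype E]
    (o t : E → V) (m : ℕ) (j : HV m →ₗ[ℂ] (E → ℂ)), 2 ≤ m →
    (∀ (g : G) e, o (g • e) = g • o e) → (∀ (g : G) e, t (g • e) = g • t e) → Nonempty V →
    (∀ u v, Lnk o t (fun _ => True) u v) → Val2 o t → Function.Injective j →
    (∀ c, c ∈ LinearMap.range j ↔ Cyc o t c) →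
    (∀ v : V, Nat.card (MulAction.orbit G v) ≤ 6 * m) ∧
      ∀ e : E, Nat.card (MulAction.orbit G e) ≤ 6 * m

/-- the two actions are compatible with the graph structure. -/
def GrW {ι V E : Type} (o t : E → V) (PV : WS ι (Perm V)) (PE : WS ι (Perm E)) : Prop :=
  (∀ σ e, o (PE.π σ e) = PV.π σ (o e)) ∧ (∀ σ e, t (PE.π σ e) = PV.π σ (t e)) ∧
  (∀ a e, o (PE.ε a e) = PV.ε a (o e)) ∧ ∀ a e, t (PE.ε a e) = PV.ε a (t e)

/-- the subgraph of cells supported in a large set is connected. -/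
def SConn : Prop :=
  ∀ (ι V E : Type) [Fintype ι] [DecidableEq ι] (o t : E → V) (PV : WS ι (Perm V))
    (PE : WS ι (Perm E)) (k : ℕ) (sV : V → Finset ι) (sE : E → Finset ι),
    2 * k + 3 ≤ Fintype.card ι → GrW o t PV PE → Supp PV k sV → Supp PE k sE →
    (∀ u v, Lnk o t (fun _ => True) u v) →
    (∀ e, sV (o e) ⊆ sE e ∧ sV (t e) ⊆ sE e) ∧
    ∀ S : Finset ι, 3 * k + 2 ≤ S.card → ∀ u v, sV u ⊆ S → sV v ⊆ S →
      Lnk o t (fun e => sE e ⊆ S) u v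

section
variable {ι Z : Type} [Fintype ι] [DecidableEq ι] [AddCommGroup Z] [Module ℂ Z]

/-- unipotent automorphisms. -/
def Unip (u : Z ≃ₗ[ℂ] Z) : Prop := IsNilpotent ((u : Module.End ℂ Z) - 1)

/-- vectors fixed by the even sign changes. -/
def E0 (P : WS ι (Z ≃ₗ[ℂ] Z)) : Submodule ℂ Z :=
  ⨅ a, ⨅ b, LinearMap.ker ((P.ε a * P.ε b : Z ≃ₗ[ℂ] Z).toLinearMap - LinearMap.id)

/-- vectors of sign type `a`. -/
def Ea (P : WS ι (Z ≃ₗ[ℂ] Z)) (a : ι) : Submodule ℂ Z :=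
  ⨅ f, ⨅ (_ : f ≠ a), LinearMap.ker ((P.ε a * P.ε f : Z ≃ₗ[ℂ] Z).toLinearMap + LinearMap.id)

/-- modules of degree at most one. -/
def Deg1 (P : WS ι (Z ≃ₗ[ℂ] Z)) : Prop :=
  E0 P ⊔ ⨆ a, Ea P a = ⊤ ∧
  ∀ a, ∀ z ∈ Ea P a, ∀ σ : Perm ι, Perm.sign σ = 1 → σ a = a → P.π σ z = z

/-- the action of the signed transpositions. -/
def Triv (P : WS ι (Z ≃ₗ[ℂ] Z)) : Prop :=
  (∀ a b, a ≠ b → ∀ z ∈ E0 P, P.π (swap a b) (P.ε b z) = z) ∧
  (∀ σ : Perm ι, Perm.sign σ = 1 → ∀ z ∈ E0 P, P.π σ z = z) ∧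
  ∀ a b c, a ≠ b → a ≠ c → b ≠ c → ∀ z ∈ Ea P c, P.π (swap a b) (P.ε b z) = z

end

/-- transvections are unipotent in degree one. -/
def SUnip : Prop :=
  ∀ (ι Z : Type) [Fintype ι] [DecidableEq ι] [AddCommGroup Z] [Module ℂ Z]
    [FiniteDimensional ℂ Z] (N : NS ι (Z ≃ₗ[ℂ] Z)), 12 ≤ Fintype.card ι → Deg1 N.toWS →
    (∀ σ τ : Perm ι, Perm.sign σ = 1 → Perm.sign τ = 1 → Perm.Disjoint σ τ → ∀ z,
      z - N.π σ z - N.π τ (z - N.π σ z) = 0) →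
    ∀ a b, a ≠ b → Unip (N.ρ a b)

/-- logarithms of unipotent automorphisms. -/
def SLog : Prop :=
  ∀ (Z : Type) [AddCommGroup Z] [Module ℂ Z] [FiniteDimensional ℂ Z],
    ∃ L : (Z ≃ₗ[ℂ] Z) → Module.End ℂ Z, ∀ u, Unip u →
      (∀ g : Z ≃ₗ[ℂ] Z, Unip (g * u * g⁻¹) ∧ ∀ z, L (g * u * g⁻¹) (g z) = g (L u z)) ∧
      (∀ v, Unip v → Commute u v → L (u * v) = L u + L v) ∧
      (Unip u⁻¹ ∧ L u⁻¹ = -L u) ∧
      (∀ W : Submodule ℂ Z, (∀ z ∈ W, L u z ∈ W) → ∀ z ∈ W, ∃ y ∈ W, u z = z + L u y) ∧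
      (∀ z, u z = z → L u z = 0) ∧ ∀ z, L u (L u z) = 0 → u z = z + L u z

def SDeg : Prop :=
  ∀ (ι Z : Type) [Fintype ι] [DecidableEq ι] [AddCommGroup Z] [Module ℂ Z]
    [FiniteDimensional ℂ Z] (N : NS ι (Z ≃ₗ[ℂ] Z)), 12 ≤ Fintype.card ι → Deg1 N.toWS →
    (∀ a b, a ≠ b → Unip (N.ρ a b)) → Triv N.toWS

/-- an equivariant embedding in a permutation module. -/
def Emb {ι Z Ω : Type} [AddCommGroup Z] [Module ℂ Z] (Q : WS ι (Z ≃ₗ[ℂ] Z)) (P : WS ι (Perm Ω))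
    (j : Z →ₗ[ℂ] (Ω → ℂ)) : Prop :=
  Function.Injective j ∧ (∀ σ z ω, j (Q.π σ z) (P.π σ ω) = j z ω) ∧
    ∀ a z ω, j (Q.ε a z) (P.ε a ω) = j z ω

/-- degree one modules inside permutation modules. -/
def SDegC : Prop :=
  ∀ (ι Z Ω : Type) [Fintype ι] [DecidableEq ι] [AddCommGroup Z] [Module ℂ Z]
    [FiniteDimensional ℂ Z] (N : NS ι (Z ≃ₗ[ℂ] Z)) (P : WS ι (Perm Ω)) (j : Z →ₗ[ℂ] (Ω → ℂ))
    (lab : Ω → Option ι), 12 ≤ Fintype.card ι → Emb N.toWS P j →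
    (∀ σ ω, lab (P.π σ ω) = (lab ω).map σ) → (∀ a ω, lab (P.ε a ω) = lab ω) →
    (∀ z ω, j z ω ≠ 0 → Fx P ω (Finset.univ.filter fun a => lab ω ≠ some a)) →
    Deg1 N.toWS ∧ Triv N.toWS ∧
    (∀ z a', (∀ ω, j z ω ≠ 0 → lab ω ≠ some a') →
      ∀ ω a f, lab ω = some a → f ≠ a → j z (P.ε a (P.ε f ω)) = -j z ω) ∧
    (∀ z, (∀ ω, j z ω ≠ 0 → lab ω = none) → z ∈ E0 N.toWS) ∧
    ∀ z a, (∀ ω f, lab ω = some a → f ≠ a → j z (P.ε a (P.ε f ω)) = -j z ω) →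
      ∃ y ∈ Ea N.toWS a, ∀ ω, j y ω = if lab ω = some a then j z ω else 0

/-- the top cross effect is odd. -/
def STop : Prop :=
  ∀ (ι H Ω : Type) [Fintype ι] [DecidableEq ι] [AddCommGroup H] [Module ℂ H]
    [FiniteDimensional ℂ H] (N : NS ι (H ≃ₗ[ℂ] H)) (P : WS ι (Perm Ω)) (j : H →ₗ[ℂ] (Ω → ℂ))
    (k d : ℕ) (s : Ω → Finset ι) (S : Finset ι), Emb N.toWS P j → Supp P k s →
    k + 12 ≤ S.card → S.card + 2 * k ≤ Fintype.card ι →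
    (∀ h ω, j h ω ≠ 0 → (s ω).card ≤ d) →
    (∀ a ∈ S, ∀ b ∈ S, a ≠ b → ∀ h, (∀ ω, j h ω ≠ 0 → s ω ⊆ S) →
      (∀ ω, j (N.ρ a b h) ω ≠ 0 → s ω ⊆ S) ∧ ∀ ω, j (N.lam a b h) ω ≠ 0 → s ω ⊆ S) →
    ∀ a' ∈ S, ∀ h, (∀ ω, j h ω ≠ 0 → s ω ⊆ S.erase a') →
      ∀ ω i f, (s ω).card = d → i ∈ s ω → f ∉ s ω → j h (P.ε i (P.ε f ω)) = -j h ω

/-- actions with small supports are trivial on the even permutations. -/
def SSmall : Prop :=
  ∀ (ι Ω : Type) [Fintype ι] [DecidableEq ι] [Finite Ω] (N : NS ι (Perm Ω)) (k : ℕ),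
    3 * k + 15 ≤ Fintype.card ι → (∀ ω, ∃ X : Finset ι, Xᶜ.card < k ∧ Fx N.toWS ω X) →
    ∀ σ : Perm ι, Perm.sign σ = 1 → ∀ ω, N.π σ ω = ω

open Classical in
/-- the boundary of a chain at a vertex. -/
noncomputable def bd {V E : Type} [Fintype E] (o t : E → V) (c : E → ℂ) (v : V) : ℂ :=
  (∑ e, if t e = v then c e else 0) - ∑ e, if o e = v then c e else 0

/-- four facts on finite graphs. -/
def SGr : Prop :=
  ∀ (V E : Type) [Fintype V] [Fintype E] (o t : E → V),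
    (∀ (U : V → Prop) (Q : E → Prop) (c : E → ℂ), (∀ v, bd o t c v ≠ 0 → U v) →
      (∀ u v, U u → U v → Lnk o t Q u v) →
      ∃ c', Cyc o t c' ∧ ∀ e, ¬ Q e → c' e = c e) ∧
    (∀ (gV : Perm V) (gE : Perm E) (iV : V → Prop) (iE : E → Prop),
      (∀ e, o (gE e) = gV (o e)) → (∀ e, t (gE e) = gV (t e)) → (∀ v, iV (gV v) ↔ iV v) →
      (∀ e, iE (gE e) ↔ iE e) → (∀ e, iV (o e) ∨ iV (t e) → iE e) →
      (∀ u v, Lnk o t (fun _ => True) u v) → (∃ v, ¬ iV v) →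
      (∀ c : E → ℂ, (∀ e, c e ≠ 0 → iE e) → (∀ v, iV v → bd o t c v = 0) →
        ∀ e, c (gE e) = -c e) →
      (∃ c : E → ℂ, c ≠ 0 ∧ (∀ e, c e ≠ 0 → iE e) ∧ ∀ v, iV v → bd o t c v = 0) →
      ∃ v, iV v ∧ gV v = v ∧ ∀ u, Lnk o t (fun e => gE e = e) v u → iV u) ∧
    (∀ (iV : V → Prop) (iE : E → Prop), (∀ e, iV (o e) ∨ iV (t e) → iE e) →
      (∀ u v, Lnk o t (fun _ => True) u v) → (∃ v, ¬ iV v) → Val2 o t →
      (∀ c : E → ℂ, (∀ e, c e ≠ 0 → iE e) → (∀ v, iV v → bd o t c v = 0) → c = 0) →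
      ∀ e, ¬ iE e) ∧
    ∀ (iV : V → Prop) (iE : E → Prop) (W : Submodule ℂ (E → ℂ)),
      (∀ e, iE e → iV (o e) ∧ iV (t e)) → (∃ v, iV v) →
      (∀ c, Cyc o t c → (∀ e, c e ≠ 0 → iE e) → c ∈ W) →
      Nat.card {e // iE e} + 1 ≤ Nat.card {v // iV v} + Module.finrank ℂ W

/-- the Lefschetz formula. -/
def SLef : Prop :=
  ∀ (V E H : Type) [Fintype V] [Fintype E] [AddCommGroup H] [Module ℂ H] [FiniteDimensional ℂ H]
    (o t : E → V) (j : H →ₗ[ℂ] (E → ℂ)) (gV : Perm V) (gE : Perm E) (μ : H ≃ₗ[ℂ] H),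
    (∀ e, o (gE e) = gV (o e)) → (∀ e, t (gE e) = gV (t e)) → Nonempty V →
    (∀ u v, Lnk o t (fun _ => True) u v) → Function.Injective j →
    (∀ c, c ∈ LinearMap.range j ↔ Cyc o t c) → (∀ h e, j (μ h) (gE e) = j h e) →
    (Nat.card {v // gV v = v} : ℂ) - Nat.card {e // gE e = e} =
      1 - LinearMap.trace ℂ H μ.toLinearMap

/-- only edges with support of size at most one carry cycles. -/
def SY : Prop :=
  ∀ (ι G V E : Type) [Fintype ι] [DecidableEq ι] [Group G] [MulAction G V] [MulAction G E]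
    [Fintype V] [Fintype E] (m : ℕ) (π : Out (FG m) →* (HV m ≃ₗ[ℂ] HV m)) (ψ : G →* Out (FG m))
    (o t : E → V) (j : HV m →ₗ[ℂ] (E → ℂ)) (w : WS ι G) (N : NS ι (Out (FG m))) (k : ℕ)
    (sV : V → Finset ι) (sE : E → Finset ι), (∀ a, ψ (w.ε a) = N.ε a) →
    (∀ σ, ψ (w.π σ) = N.π σ) → RealA π ψ o t j → RealB π ψ o t j → RealC ψ o t →
    Supp (w.map (MulAction.toPermHom G V)) k sV → Supp (w.map (MulAction.toPermHom G E)) k sE →
    5 * k + 17 ≤ Fintype.card ι →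
    (∀ h e, j h e ≠ 0 → (sE e).card ≤ 1) ∧
    (∀ h e i f, sE e = {i} → f ≠ i → j h (w.ε i • w.ε f • e) = -j h e) ∧
    ((∀ h e, j h e ≠ 0 → sE e = ∅) → ∀ e, sE e = ∅)

/-- the involution commuting with the cage group. -/
noncomputable def xi {A B W : Type} [Fintype A] [Group W] (P : WS (A ⊕ B) W) (τ : Perm B) : W :=
  (Finset.univ.toList.map fun a : A => P.ε (Sum.inl a)).prod * P.π (Perm.sumCongr 1 τ)

/-- the two shapes, according to the parity of the rank. -/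
def Shape (A B : Type) [Fintype A] [DecidableEq B] (τ : Perm B) : Prop :=
  (IsEmpty B ∧ Even (Fintype.card A)) ∨
    ∃ y y' : B, y ≠ y' ∧ (∀ b, b = y ∨ b = y') ∧ τ = swap y y' ∧ Odd (Fintype.card A)

def STrace : Prop :=
  ∀ (A B Z : Type) [Fintype A] [DecidableEq A] [Fintype B] [DecidableEq B] [AddCommGroup Z]
    [Module ℂ Z] [FiniteDimensional ℂ Z] (P : WS (A ⊕ B) (Z ≃ₗ[ℂ] Z)) (τ : Perm B) (a₀ : A ⊕ B),
    10 ≤ Fintype.card A → Shape A B τ → Deg1 P → Triv P →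
    Module.finrank ℂ Z =
      Module.finrank ℂ (E0 P) + Module.finrank ℂ (Ea P a₀) * Fintype.card (A ⊕ B) ∧
    (∀ a, Module.finrank ℂ (Ea P a) = Module.finrank ℂ (Ea P a₀)) ∧
    (∀ a : A, ∀ z ∈ Ea P (Sum.inl a), xi P τ z = -z) ∧
    ∀ σ : Perm A, Perm.sign σ = 1 →
      LinearMap.trace ℂ Z (xi P τ * P.π (Perm.sumCongr σ 1) : Z ≃ₗ[ℂ] Z).toLinearMap =
        Module.finrank ℂ (E0 P) - Module.finrank ℂ (Ea P a₀) * (Nat.card {a // σ a = a} : ℂ)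

/-- the count on the graph realising the cage group. -/
def SX : Prop :=
  ∀ (A G V E : Type) [Fintype A] [DecidableEq A] [Group G] [MulAction G V] [MulAction G E]
    [Fintype V] [Fintype E] (m : ℕ) (π : Out (FG m) →* (HV m ≃ₗ[ℂ] HV m)) (ψ : G →* Out (FG m))
    (o t : E → V) (j : HV m →ₗ[ℂ] (E → ℂ)) (w : WS (Option A) G) (ξ : G) (k h r : ℕ)
    (sV : V → Finset (Option A)) (sE : E → Finset (Option A)), (∀ a, w.ε a = 1) →
    (∀ σ, Commute ξ (w.π σ)) → ξ * ξ = 1 → RealA π ψ o t j → RealD ψ j →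
    Supp (w.map (MulAction.toPermHom G V)) k sV → Supp (w.map (MulAction.toPermHom G E)) k sE →
    2 ≤ k → 3 * k + 3 ≤ Fintype.card A → Module.finrank ℂ (FixSpan (ψ ξ)) ≤ h →
    (∀ σ : Perm A, Perm.sign σ = 1 →
      LinearMap.trace ℂ (HV m) (π (ψ (ξ * w.π (Equiv.optionCongr σ)))).toLinearMap =
        h - r * (Nat.card {a // σ a = a} : ℂ)) →
    r = 0 ∨ h + r = 1

/-- the relations hold in the outer automorphism group of a free group. -/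
def SInst : Prop :=
  ∀ (A B : Type) [Fintype A] [DecidableEq A] [Fintype B] [DecidableEq B] (τ : Perm B) (n : ℕ),
    Shape A B τ → Fintype.card (A ⊕ B) = n →
    ∃ (N : NS (A ⊕ B) (Out (FG n))) (G : Type) (_ : Group G) (_ : Finite G) (w : WS (A ⊕ B) G)
      (β : G →* Out (FG n)) (κ : Perm (Option A) →* Out (FG n)),
      (∀ a, β (w.ε a) = N.ε a) ∧ (∀ σ, β (w.π σ) = N.π σ) ∧
      (∀ σ, κ (Equiv.optionCongr σ) = N.π (Perm.sumCongr σ 1)) ∧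
      (∀ σ, Commute (xi N.toWS τ) (κ σ)) ∧ xi w τ * xi w τ = 1 ∧
      ∀ a b, a ≠ b → N.ε a * N.ε b ≠ 1

end Pool.Agent.MP_3ce0a0_al.H79
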