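import Pool.Agent.MP_3ce0a0_al.H79.Defs

/-
Statements of the steps: realisation of finite groups of outer automorphisms on graphs.
-/

namespace Pool.Agent.MP_3ce0a0_al.H79

open Pointwise

abbrev FG (m : ℕ) : Type := FreeGroup (Fin m)

abbrev HV (m : ℕ) : Type := Fin m → ℂ

/-- the class of a word in the first homology. -/
noncomputable def ab {m : ℕ} (x : FG m) : HV m :=
  Multiplicative.toAdd
    (FreeGroup.lift (fun i => Multiplicative.ofAdd (Pi.single i (1 : ℂ) : HV m)) x)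

/-- the action of outer automorphisms on the first homology. -/
def IsRep {m : ℕ} (π : Out (FG m) →* (HV m ≃ₗ[ℂ] HV m)) : Prop :=
  ∀ (α : MulAut (FG m)) (x : FG m), π (QuotientGroup.mk α) (ab x) = ab (α x)

def SRep : Prop := ∀ m : ℕ, ∃ π : Out (FG m) →* (HV m ≃ₗ[ℂ] HV m), IsRep π

/-- joined by a path of edges satisfying `P`. -/
def Lnk {V E : Type} (o t : E → V) (P : E → Prop) : V → V → Prop :=
  Relation.ReflTransGen fun u v => ∃ e, P e ∧ ((o e = u ∧ t e = v) ∨ (o e = v ∧ t e = u))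

open Classical in
/-- one-cycles of a finite graph. -/
def Cyc {V E : Type} [Fintype E] (o t : E → V) (c : E → ℂ) : Prop :=
  ∀ v, (∑ e, if t e = v then c e else 0) = ∑ e, if o e = v then c e else 0

/-- every vertex has valence at least two. -/
def Val2 {V E : Type} (o t : E → V) : Prop :=
  ∀ v, 2 ≤ Nat.card {e // o e = v} + Nat.card {e // t e = v}

/-- `C` contains the attracting end of `f` and not the repelling end. -/
def Spl {E : Type} [Group E] (f : E) (C : Set E) : Prop :=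
  ∀ x : E, (∀ᶠ k : ℕ in Filter.atTop, f ^ k * x ∈ C) ∧ ∀ᶠ k : ℕ in Filter.atTop, f⁻¹ ^ k * x ∉ C

/-- an invariant nested family of cuts. -/
def Cuts {E : Type} [Group E] (Fs : Subgroup E) (𝒞 : Set (Set E)) : Prop :=
  (∀ C ∈ 𝒞, Cᶜ ∈ 𝒞) ∧ (∀ (g : E), ∀ C ∈ 𝒞, g • C ∈ 𝒞) ∧
  (∀ C ∈ 𝒞, ∀ D ∈ 𝒞, C ⊆ D ∨ C ⊆ Dᶜ ∨ Cᶜ ⊆ D ∨ Cᶜ ⊆ Dᶜ) ∧
  (∀ x y : E, {C | C ∈ 𝒞 ∧ x ∈ C ∧ y ∉ C}.Finite) ∧
  (∃ R : Set (Set E), R.Finite ∧ ∀ C ∈ 𝒞, ∃ f ∈ Fs, ∃ D ∈ R, C = f • D) ∧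
  (∀ f ∈ Fs, f ≠ 1 → ∀ C ∈ 𝒞, f • C ≠ C) ∧
  (∀ f ∈ Fs, f ≠ 1 → ∃ C ∈ 𝒞, Spl f C) ∧
  ∀ C ∈ 𝒞, ∃ f ∈ Fs, f ≠ 1 ∧ Spl f C

/-- virtually free groups have such families. -/
def SCut : Prop :=
  ∀ (E : Type) [Group E] (m : ℕ) (ι : FG m →* E), Function.Injective ι → ι.range.Normal →
    ι.range.FiniteIndex → ∃ 𝒞 : Set (Set E), Cuts ι.range 𝒞

/-- a tree with an action without inversions. -/
def Tree (E : Type) [Group E] {V Ed : Type} [MulAction E V] [MulAction E Ed] (o t : Ed → V)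
    (side : Ed → Set V) : Prop :=
  (∀ (g : E) e, o (g • e) = g • o e) ∧ (∀ (g : E) e, t (g • e) = g • t e) ∧ Nonempty V ∧
  (∀ u v, Lnk o t (fun _ => True) u v) ∧
  ∀ e, t e ∈ side e ∧ o e ∉ side e ∧ ∀ e', e' ≠ e → (o e' ∈ side e ↔ t e' ∈ side e)

/-- `Fs` acts freely with finite quotient and there are no leaves. -/
def Cocpt {E : Type} [Group E] (Fs : Subgroup E) {V Ed : Type} [MulAction E V] [MulAction E Ed]
    (o t : Ed → V) : Prop :=
  (∀ f ∈ Fs, ∀ v : V, f • v = v → f = 1) ∧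
  (∃ R : Set Ed, R.Finite ∧ ∀ e, ∃ f ∈ Fs, ∃ r ∈ R, e = f • r) ∧
  ∀ v, ∃ e₁ e₂, e₁ ≠ e₂ ∧ (o e₁ = v ∨ t e₁ = v) ∧ (o e₂ = v ∨ t e₂ = v)

/-- the structure tree of a nested family. -/
def STree : Prop :=
  ∀ (E : Type) [Group E] (Fs : Subgroup E) (𝒞 : Set (Set E)),
    (∀ f ∈ Fs, ∀ j : ℕ, 0 < j → f ^ j = 1 → f = 1) → (∃ f ∈ Fs, f ≠ 1) → Cuts Fs 𝒞 →
    ∃ (V Ed : Type) (_ : MulAction E V) (_ : MulAction E Ed) (o t : Ed → V) (side : Ed → Set V),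
      Tree E o t side ∧ Cocpt Fs o t

/-- fixed points of finite groups, and fixed sets are connected. -/
def SFix : Prop :=
  ∀ (E : Type) [Group E] (V Ed : Type) [MulAction E V] [MulAction E Ed] (o t : Ed → V)
    (side : Ed → Set V), Tree E o t side →
    (∀ K : Subgroup E, Finite K → ∃ v : V, ∀ k ∈ K, k • v = v) ∧
    ∀ (K : Subgroup E) (u v : V), (∀ k ∈ K, k • u = u) → (∀ k ∈ K, k • v = v) →
      Lnk o t (fun e => ∀ k ∈ K, k • e = e) u v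

/-- the quotient graph. -/
def Quo {E : Type} [Group E] (Fs : Subgroup E) {V Ed V' Ed' : Type} [MulAction E V]
    [MulAction E Ed] (o t : Ed → V) (o' t' : Ed' → V') (pv : V → V') (pe : Ed → Ed') : Prop :=
  Function.Surjective pv ∧ Function.Surjective pe ∧
  (∀ u v, pv u = pv v ↔ ∃ f ∈ Fs, f • u = v) ∧ (∀ d e, pe d = pe e ↔ ∃ f ∈ Fs, f • d = e) ∧
  (∀ e, o' (pe e) = pv (o e)) ∧ ∀ e, t' (pe e) = pv (t e)

open Classical in
/-- the identification of the homology with the cycles of the quotient graph. -/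
def Hom1 {E : Type} [Group E] {m : ℕ} (ι : FG m →* E) {V Ed V' Ed' : Type} [MulAction E V]
    [Fintype Ed'] (o t : Ed → V) (o' t' : Ed' → V') (pe : Ed → Ed') (p : V → Ed' → ℂ)
    (j : HV m →ₗ[ℂ] (Ed' → ℂ)) : Prop :=
  (∀ e, p (t e) - p (o e) = Pi.single (pe e) 1) ∧ (∀ x v, j (ab x) = p (ι x • v) - p v) ∧
  Function.Injective j ∧ ∀ c, c ∈ LinearMap.range j ↔ Cyc o' t' c

def SQA : Prop :=
  ∀ (E : Type) [Group E] (m : ℕ) (ι : FG m →* E) (V Ed V' Ed' : Type) [MulAction E V]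
    [MulAction E Ed] [Fintype V'] [Fintype Ed'] (o t : Ed → V) (side : Ed → Set V)
    (o' t' : Ed' → V') (pv : V → V') (pe : Ed → Ed'), Function.Injective ι →
    Tree E o t side → Cocpt ι.range o t → Quo ι.range o t o' t' pv pe →
    (∀ u v, Lnk o' t' (fun _ => True) u v) ∧ Val2 o' t' ∧
      ∃ p j, Hom1 ι o t o' t' pe p j

/-- cycles in one component of a fixed subgraph come from a centraliser. -/
def SComp : Prop :=
  ∀ (E G : Type) [Group E] [Group G] (m : ℕ) (ι : FG m →* E) (q : E →* G) (V Ed V' Ed' : Type)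
    [MulAction E V] [MulAction E Ed] [MulAction G V'] [MulAction G Ed'] [Fintype V'] [Fintype Ed']
    (o t : Ed → V) (side : Ed → Set V) (o' t' : Ed' → V') (pv : V → V') (pe : Ed → Ed')
    (p : V → Ed' → ℂ) (j : HV m →ₗ[ℂ] (Ed' → ℂ)), ι.range.Normal →
    Tree E o t side → Cocpt ι.range o t → Quo ι.range o t o' t' pv pe →
    (∀ (g : E) v, pv (g • v) = q g • pv v) → (∀ (g : E) e, pe (g • e) = q g • pe e) →
    Hom1 ι o t o' t' pe p j → ∀ (K : Subgroup E) (v : V), (∀ k ∈ K, k • v = v) →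
    (∀ w', Lnk o' t' (fun e => ∀ k ∈ K, q k • e = e) (pv v) w' →
      ∃ w, pv w = w' ∧ ∀ k ∈ K, k • w = w) ∧
    ∀ h : HV m, (∀ e, j h e ≠ 0 → (∀ k ∈ K, q k • e = e) ∧
        Lnk o' t' (fun e => ∀ k ∈ K, q k • e = e) (pv v) (o' e)) ↔
      h ∈ Submodule.span ℂ {y | ∃ x, y = ab x ∧ ∀ k ∈ K, Commute (ι x) k}

/-- the extension of the free group by `G` given by `ψ`. -/
def PB {G : Type} [Group G] {m : ℕ} (ψ : G →* Out (FG m)) : Subgroup (G × MulAut (FG m)) :=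
  MonoidHom.eqLocus (ψ.comp (MonoidHom.fst _ _))
    ((QuotientGroup.mk' (Inn (FG m))).comp (MonoidHom.snd _ _))

/-- the span of the classes fixed by an involutive lift. -/
def FixSpan {m : ℕ} (θ : Out (FG m)) : Submodule ℂ (HV m) :=
  Submodule.span ℂ {y | ∃ (x : FG m) (α : MulAut (FG m)),
    y = ab x ∧ (QuotientGroup.mk α : Out (FG m)) = θ ∧ α * α = 1 ∧ α x = x}

section
variable {G : Type} [Group G] {m : ℕ} (π : Out (FG m) →* (HV m ≃ₗ[ℂ] HV m))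
  (ψ : G →* Out (FG m)) {V E : Type} [MulAction G V] [MulAction G E] [Fintype E]
  (o t : E → V) (j : HV m →ₗ[ℂ] (E → ℂ))

/-- the graph and the equivariant identification of the homology. -/
def RealA : Prop :=
  (∀ (g : G) e, o (g • e) = g • o e) ∧ (∀ (g : G) e, t (g • e) = g • t e) ∧ Nonempty V ∧
  (∀ u v, Lnk o t (fun _ => True) u v) ∧ Val2 o t ∧ Function.Injective j ∧
  (∀ c, c ∈ LinearMap.range j ↔ Cyc o t c) ∧
  (∀ (g : G) h e, j (π (ψ g) h) (g • e) = j h e) ∧ ∀ g : G, (∀ e : E, g • e = e) → ψ g = 1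

/-- centralisers preserve the cycles of a connected fixed subgraph. -/
def RealB : Prop :=
  ∀ B : Subgroup G, (∃ v : V, ∀ b ∈ B, b • v = v) →
    (∀ u v : V, (∀ b ∈ B, b • u = u) → (∀ b ∈ B, b • v = v) →
      Lnk o t (fun e => ∀ b ∈ B, b • e = e) u v) →
    ∀ θ : Out (FG m), (∀ b ∈ B, Commute θ (ψ b)) → ∀ h : HV m,
      (∀ e, j h e ≠ 0 → ∀ b ∈ B, b • e = e) → ∀ e, j (π θ h) e ≠ 0 → ∀ b ∈ B, b • e = e

/-- centralisers act on the components of a fixed subgraph. -/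
def RealC : Prop :=
  ∀ g : G, ∃ (Ω : Type) (_ : Finite Ω) (q : {v : V // g • v = v} → Ω)
    (A : Subgroup.centralizer {ψ g} →* Equiv.Perm Ω), Function.Surjective q ∧
    (∀ u v, q u = q v ↔ Lnk o t (fun e => g • e = e) u.1 v.1) ∧
    ∀ (c : G) (hc : ψ c ∈ Subgroup.centralizer {ψ g}), Commute c g →
      ∀ (v : V) (hv : g • v = v) (hcv : g • c • v = c • v),
        A ⟨ψ c, hc⟩ (q ⟨v, hv⟩) = q ⟨c • v, hcv⟩

/-- the cycles fixed edge by edge by an involution. -/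
def RealD : Prop :=
  ∀ g : G, g * g = 1 → ∀ h : HV m, (∀ e, j h e ≠ 0 → g • e = e) ↔ h ∈ FixSpan (ψ g)

end

/-- all the data attached to the extension acting on a tree. -/
def Cov {G : Type} [Group G] {m : ℕ} (ψ : G →* Out (FG m)) (ι : FG m →* PB ψ)
    {V Ed V' Ed' : Type} [MulAction (PB ψ) V] [MulAction (PB ψ) Ed] [MulAction G V']
    [MulAction G Ed'] [Fintype Ed'] (o t : Ed → V) (side : Ed → Set V) (o' t' : Ed' → V')
    (pv : V → V') (pe : Ed → Ed') (p : V → Ed' → ℂ) (j : HV m →ₗ[ℂ] (Ed' → ℂ)) : Prop :=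
  (∀ x, (ι x).1 = (1, MulAut.conj x)) ∧ Function.Injective ι ∧
  Tree (PB ψ) o t side ∧ Cocpt ι.range o t ∧ Quo ι.range o t o' t' pv pe ∧
  (∀ (g : PB ψ) v, pv (g • v) = g.1.1 • pv v) ∧ (∀ (g : PB ψ) e, pe (g • e) = g.1.1 • pe e) ∧
  Hom1 ι o t o' t' pe p j ∧ (∀ u v, Lnk o' t' (fun _ => True) u v) ∧ Val2 o' t'

/-- a statement about all such data. -/
def ForCov (P : ∀ {G : Type} [Group G] {m : ℕ} (_ : Out (FG m) →* (HV m ≃ₗ[ℂ] HV m))
    (_ : G →* Out (FG m)) {V E : Type} [MulAction G V] [MulAction G E] [Fintype E]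
    (_ _ : E → V) (_ : HV m →ₗ[ℂ] (E → ℂ)), Prop) : Prop :=
  ∀ (G : Type) [Group G] [Finite G] (m : ℕ) (π : Out (FG m) →* (HV m ≃ₗ[ℂ] HV m))
    (ψ : G →* Out (FG m)) (ι : FG m →* PB ψ) (V Ed V' Ed' : Type) [MulAction (PB ψ) V]
    [MulAction (PB ψ) Ed] [MulAction G V'] [MulAction G Ed'] [Fintype V'] [Fintype Ed']
    (o t : Ed → V) (side : Ed → Set V) (o' t' : Ed' → V') (pv : V → V') (pe : Ed → Ed')
    (p : V → Ed' → ℂ) (j : HV m →ₗ[ℂ] (Ed' → ℂ)), IsRep π →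
    Cov ψ ι o t side o' t' pv pe p j → P π ψ o' t' j

def SRA : Prop := ForCov fun π ψ _ _ _ _ _ o t j => RealA π ψ o t j
def SRB : Prop := ForCov fun π ψ _ _ _ _ _ o t j => RealB π ψ o t j
def SRC : Prop := ForCov fun _ ψ _ _ _ _ _ o t _ => RealC ψ o t
def SRD : Prop := ForCov fun _ ψ _ _ _ _ _ _ _ j => RealD ψ j

/-- realisation. -/
def SReal : Prop :=
  ∀ (G : Type) [Group G] [Finite G] (m : ℕ), 2 ≤ m →
    ∀ (π : Out (FG m) →* (HV m ≃ₗ[ℂ] HV m)) (ψ : G →* Out (FG m)), IsRep π →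
    ∃ (V E : Type) (_ : MulAction G V) (_ : MulAction G E) (_ : Fintype V) (_ : Fintype E)
      (o t : E → V) (j : HV m →ₗ[ℂ] (E → ℂ)),
      RealA π ψ o t j ∧ RealB π ψ o t j ∧ RealC ψ o t ∧ RealD ψ j

end Pool.Agent.MP_3ce0a0_al.H79
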