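import Pool.Agent.MP_3ce0a0_al.H79.XS

/-
Steinberg involutions and a family of subspaces permuted by the cage group.
-/

namespace Pool.Agent.MP_3ce0a0_al.H79.X

open Equiv Module Finset

section
variable {ι H : Type} [DecidableEq ι] [AddCommGroup H] [Module ℂ H] {s : ι → ι → End ℂ H}

theorem prod_sq (hs : St s) (b : ι) (l : List ι) (hl : ∀ e ∈ l, e ≠ b) :
    (l.map fun e => s e b).prod * (l.map fun e => s e b).prod = 1 := by
  induction l with
  | nil => simp
  | cons e l ih =>
    have he := hl e (by simp)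
    have hc : Commute (s e b) (l.map fun e => s e b).prod :=
      Commute.list_prod_right _ _ fun x hx => by
        obtain ⟨f, hf, rfl⟩ := List.mem_map.1 hx
        have hf' := hl f (by simp [hf])
        exact hs.2.1 e b f b he hf' hf'.symm he
    rw [List.map_cons, List.prod_cons, mul_assoc, ← mul_assoc _ (s e b), ← hc.eq, mul_assoc,
      ih fun e he => hl e (by simp [he]), mul_one, hs.1 e b he]

theorem prod_conj (hs : St s) {a b c : ι} (h1 : a ≠ b) (h2 : c ≠ a) (h3 : c ≠ b) (l : List ι)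
    (hl : ∀ e ∈ l, e ≠ b) (hn : l.Nodup) :
    (l.map fun e => s e b).prod * s c a =
      (if a ∈ l then s c a * s c b else s c a) * (l.map fun e => s e b).prod := by
  induction l with
  | nil => simp
  | cons e l ih =>
    have he := hl e (by simp)
    rw [List.nodup_cons] at hn
    rw [List.map_cons, List.prod_cons, mul_assoc, ih (fun e he => hl e (by simp [he])) hn.2,
      ← mul_assoc, ← mul_assoc]
    congr 1
    have k1 : Commute (s e b) (s c b) := hs.2.1 e b c b he h3 h3.symm he
    by_cases k : e = a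
    · subst k
      rw [if_neg hn.1, if_pos (by simp)]
      have k2 := hs.2.2 c e b h2 h1 h3
      have k3 := hs.1 c e h2
      calc s e b * s c e = s c e * (s c e * s e b * s c e) := by
            rw [← mul_assoc, ← mul_assoc, k3, one_mul]
        _ = _ := by rw [k2, k1.eq, mul_assoc]
    · have k2 : Commute (s e b) (s c a) := hs.2.1 e b c a he h2 h3.symm k
      simp only [List.mem_cons, Ne.symm k, false_or]
      split_ifs
      · exact (k2.mul_right k1).eq
      · exact k2.eq

theorem inf_indep {κ : Type} [DecidableEq κ] {Φ : κ → Submodule ℂ H} (h : iSupIndep Φ)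
    {a c b b' : κ} (h1 : b ≠ a) (h2 : b ≠ c) (h3 : b ≠ b') {v : H}
    (k1 : v ∈ Φ b ⊔ Φ c ⊔ Φ a) (k2 : v ∈ Φ b' ⊔ Φ c ⊔ Φ a) : v ∈ Φ c ⊔ Φ a := by
  rw [sup_assoc] at k1
  obtain ⟨x, hx, y, hy, rfl⟩ := Submodule.mem_sup.1 k1
  have l1 : Φ c ⊔ Φ a ≤ ⨆ j, ⨆ (_ : j ≠ b), Φ j :=
    sup_le (le_iSup₂_of_le c h2.symm le_rfl) (le_iSup₂_of_le a h1.symm le_rfl)
  have l2 : Φ b' ⊔ Φ c ⊔ Φ a ≤ ⨆ j, ⨆ (_ : j ≠ b), Φ j := by
    rw [sup_assoc]
    exact sup_le (le_iSup₂_of_le b' h3.symm le_rfl) l1
  have hx0 : x = 0 := (Submodule.disjoint_def.1 (h b)) x hx (by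
    simpa using Submodule.sub_mem _ (l2 k2) (l1 hy))
  rwa [hx0, zero_add]

end

theorem sf4b : SF4b := by
  intro H _ _ _ ι _ _ s z Φ hn hs hz hc hi ha hb hk hz'
  have hl : ∀ b : ι, ∀ e ∈ (univ.erase b).toList, e ≠ b := fun b e he => by simpa using he
  have hzs : ∀ b, Commute z (sig s b) := fun b => Commute.list_prod_right _ _ fun x hx => by
    obtain ⟨f, hf, rfl⟩ := List.mem_map.1 hx
    exact (hc f b (hl b f hf)).symm
  have hsq : ∀ b, sig s b * sig s b = 1 := fun b => prod_sq hs b _ (hl b)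
  have hkk : ∀ b, z * sig s b * (z * sig s b) = 1 := fun b => by
    rw [mul_assoc, ← mul_assoc (sig s b), ← (hzs b).eq, mul_assoc, hsq, mul_one, hz]
  have h3 : ∀ a b c, [a, b, c].Nodup → ∀ v ∈ Φ (some a),
      s c a v ∈ Φ (some b) ⊔ Φ (some c) ⊔ Φ (some a) := fun a b c h v hv => by
    simp only [List.nodup_cons, List.mem_cons, List.not_mem_nil, or_false, not_or] at h
    obtain ⟨⟨ab, ac⟩, bc, -⟩ := h
    have e1 := prod_conj hs ab (Ne.symm ac) (Ne.symm bc) _ (hl b) (nodup_toList _)
    rw [if_pos (by simpa using ab)] at e1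
    have e2 : s c a = z * sig s b * s c a * (z * sig s b) * s c b := by
      have e3 : z * sig s b * s c a = s c a * s c b * (z * sig s b) := by
        rw [mul_assoc, show sig s b * s c a = s c a * s c b * sig s b from e1, ← mul_assoc z,
          ← ((hc c a (Ne.symm ac)).mul_left (hc c b (Ne.symm bc))).eq, mul_assoc]
      rw [e3, mul_assoc (s c a * s c b), hkk, mul_one, mul_assoc, hs.1 c b (Ne.symm bc), mul_one]
    have m1 := hk b _ _ (ha c b a (by simp [Ne.symm ac, Ne.symm bc, Ne.symm ab]) v hv)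
    rw [swap_apply_of_ne_of_ne (by simp) (by simpa using ab)] at m1
    have m2 := hb c a (Ne.symm ac) _ m1
    have m3 : (Φ none ⊔ Φ (some c) ⊔ Φ (some a)) ≤
        (Φ (some b) ⊔ Φ (some c) ⊔ Φ (some a)).comap (z * sig s b) := by
      refine sup_le (sup_le (fun x hx => ?_) fun x hx => ?_) fun x hx => ?_
      · have := hk b _ x hx
        rw [swap_apply_left] at this
        exact Submodule.mem_sup_left (Submodule.mem_sup_left this)
      · have := hk b _ x hx
        rw [swap_apply_of_ne_of_ne (by simp) (by simpa using Ne.symm bc)] at this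
        exact Submodule.mem_sup_left (Submodule.mem_sup_right this)
      · have := hk b _ x hx
        rw [swap_apply_of_ne_of_ne (by simp) (by simpa using ab)] at this
        exact Submodule.mem_sup_right this
    rw [e2]
    exact m3 m2
  have h4 : ∀ a c, c ≠ a → ∀ v ∈ Φ (some a), s c a v ∈ Φ (some c) ⊔ Φ (some a) :=
    fun a c h v hv => by
    have k : 1 < ((univ.erase a).erase c).card := by
      rw [card_erase_of_mem (by simpa using h), card_erase_of_mem (mem_univ _), card_univ]
      omega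
    obtain ⟨b, hb1, b', hb2, hbb⟩ := one_lt_card.1 k
    simp only [mem_erase, mem_univ, and_true] at hb1 hb2
    exact inf_indep hi (by simpa using hb1.2) (by simpa using hb1.1) (by simpa using hbb)
      (h3 a b c (by simp [hb1.2.symm, h.symm, hb1.1]) v hv)
      (h3 a b' c (by simp [hb2.2.symm, h.symm, hb2.1]) v hv)
  have h5 : ∀ (a : ι) (l : List ι), (∀ e ∈ l, e ≠ a) → l.Nodup → ∀ v ∈ Φ (some a),
      (l.map fun e => s e a).prod v ∈ Φ (some a) ⊔ ⨆ e, ⨆ (_ : e ∈ l), Φ (some e) := by
    intro a l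
    induction l with
    | nil => intro _ _ v hv; exact Submodule.mem_sup_left hv
    | cons c l ih =>
      intro k1 k2 v hv
      rw [List.nodup_cons] at k2
      have ca := k1 c (by simp)
      have m : (Φ (some a) ⊔ ⨆ e, ⨆ (_ : e ∈ l), Φ (some e)) ≤
          (Φ (some a) ⊔ ⨆ e, ⨆ (_ : e ∈ c :: l), Φ (some e)).comap (s c a) := by
        refine sup_le (fun x hx => ?_) (iSup₂_le fun e he x hx => ?_)
        · refine (sup_le ?_ le_sup_left : Φ (some c) ⊔ Φ (some a) ≤ _) (h4 a c ca x hx)
          exact le_sup_of_le_right (le_iSup₂_of_le c (by simp) le_rfl)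
        · have ce : c ≠ e := fun h => k2.1 (h ▸ he)
          have ea := k1 e (by simp [he])
          refine Submodule.mem_sup_right ?_
          exact (le_iSup₂_of_le (f := fun e (_ : e ∈ c :: l) => Φ (some e)) e (by simp [he])
            le_rfl : Φ (some e) ≤ _) (ha c a e (by simp [ca, ce, ea.symm]) x hx)
      exact m (ih (fun e he => k1 e (by simp [he])) k2.2 v hv)
  obtain ⟨a⟩ : Nonempty ι := Fintype.card_pos_iff.1 (by omega)
  rw [eq_bot_iff]
  intro u hu
  have m1 := hk a _ u hu
  rw [swap_apply_left] at m1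
  have m2 : sig s a (z (sig s a u)) ∈ ⨆ e, Φ (some e) :=
    (sup_le (le_iSup (fun e => Φ (some e)) a)
      (iSup₂_le fun e _ => le_iSup (fun e => Φ (some e)) e) : _ ≤ _)
      (h5 a _ (hl a) (nodup_toList _) _ m1)
  have m3 := hz' _ m2
  have e : z (sig s a (z (sig s a u))) = u := LinearMap.congr_fun (hkk a) u
  rw [e] at m3
  refine (Submodule.disjoint_def.1 (hi none)) u hu ?_
  exact (iSup_le fun e => le_iSup₂_of_le (f := fun j (_ : j ≠ none) => Φ j) (some e) (by simp)
    le_rfl : (⨆ e, Φ (some e)) ≤ _) m3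

end Pool.Agent.MP_3ce0a0_al.H79.X
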