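import Pool.Agent.MP_3ce0a0_al.H79.XS
import Pool.Agent.MP_3ce0a0_al.H79.XJ

/-
A lower bound for the dimension of a nontrivial representation with the Steinberg relations.
-/

namespace Pool.Agent.MP_3ce0a0_al.H79.X

open Module Matrix

lemma z2 (x : ZMod 2) : x = 0 ∨ x = 1 := by revert x; decide

lemma mat_trans {h k : ℕ} {s t : Fin k → Fin h → ZMod 2} (hs : LinearIndependent (ZMod 2) s)
    (ht : LinearIndependent (ZMod 2) t) :
    ∃ g : Matrix (Fin h) (Fin h) (ZMod 2), g.det ≠ 0 ∧ ∀ i, g *ᵥ s i = t i := by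
  obtain ⟨g, hg⟩ := Submodule.exists_linearEquiv_restrict_eq
    (hs.linearCombinationEquiv.symm ≪≫ₗ ht.linearCombinationEquiv)
  refine ⟨LinearMap.toMatrix' g.toLinearMap, ?_, fun i => ?_⟩
  · rw [LinearMap.det_toMatrix']
    exact (LinearEquiv.isUnit_det' g).ne_zero
  · have := hg (hs.linearCombinationEquiv (Finsupp.single i 1))
    rw [LinearEquiv.trans_apply, LinearEquiv.symm_apply_apply] at this
    rw [← toLin'_apply, toLin'_toMatrix']
    simpa using this.symm

lemma mat_count {h : ℕ} (hh : 2 ≤ h) (Θ : Set (Matrix (Fin h) (Fin h) (ZMod 2)))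
    (hL : ∀ g : Matrix (Fin h) (Fin h) (ZMod 2), g.det ≠ 0 → ∀ M ∈ Θ, g * M ∈ Θ ∧ M * g ∈ Θ)
    (M : Matrix (Fin h) (Fin h) (ZMod 2)) (hM : M ∈ Θ) (p q : Fin h) (h1 : M p q = 1) :
    (2 ^ h - 1) * (2 ^ h - 2) ≤ Nat.card Θ := by
  have hc := card_linearIndependent (K := ZMod 2) (V := Fin h → ZMod 2) (k := 2) (by simpa using hh)
  simp only [Fin.prod_univ_two, ZMod.card, finrank_fintype_fun_eq_card, Fintype.card_fin,
    Fin.val_zero, Fin.val_one, pow_zero, pow_one] at hc
  rw [← hc]
  have one : ∀ u : Fin h → ZMod 2, u ≠ 0 → LinearIndependent (ZMod 2) ![u] := fun u hu => by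
    simpa [linearIndependent_unique_iff] using hu
  have hu : (fun i => M i q) ≠ 0 := fun e => by simpa [h1] using congrFun e p
  by_cases hc : ∃ q', LinearIndependent (ZMod 2) ![fun i => M i q, fun i => M i q']
  · obtain ⟨q', hq⟩ := hc
    choose g hg hg' using fun t : {t : Fin 2 → Fin h → ZMod 2 // LinearIndependent (ZMod 2) t} =>
      mat_trans hq t.2
    refine Nat.card_le_card_of_injective (fun t => ⟨g t * M, (hL _ (hg t) M hM).1⟩)
      fun t t' e => Subtype.ext (funext fun i => ?_)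
    have e' : g t * M = g t' * M := congrArg Subtype.val e
    rw [← hg' t, ← hg' t']
    funext j
    fin_cases i
    · exact congrFun (congrFun e' j) q
    · exact congrFun (congrFun e' j) q'
  · have hw : M p ≠ 0 := fun e => by simpa [h1] using congrFun e q
    have e0 : M = vecMulVec (fun i => M i q) (M p) := by
      ext i j
      have h2 : ¬ LinearIndependent (ZMod 2) ![fun i => M i q, fun i => M i j] :=
        fun k => hc ⟨j, k⟩
      rw [LinearIndependent.pair_iff' hu] at h2
      push Not at h2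
      obtain ⟨a, ha⟩ := h2
      have h3 := congrFun ha p
      have h4 := congrFun ha i
      simp only [Pi.smul_apply, smul_eq_mul, h1, mul_one] at h3 h4
      rw [vecMulVec_apply, ← h3, ← h4, mul_comm]
    have mem : ∀ u w : Fin h → ZMod 2, u ≠ 0 → w ≠ 0 → vecMulVec u w ∈ Θ := fun u w k1 k2 => by
      obtain ⟨g, g1, g2⟩ := mat_trans (one _ hu) (one _ k1)
      obtain ⟨g', g3, g4⟩ := mat_trans (one _ hw) (one _ k2)
      have := (hL g'ᵀ (by rwa [det_transpose]) _ (hL g g1 M hM).1).2
      rw [e0, mul_vecMulVec, vecMulVec_mul, vecMul_transpose] at this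
      have g5 : g *ᵥ (fun i => M i q) = u := g2 0
      have g6 : g' *ᵥ M p = w := g4 0
      rwa [g5, g6] at this
    have inj : ∀ u w u' w' : Fin h → ZMod 2, u ≠ 0 → w ≠ 0 → (∀ i j, u i * w j = u' i * w' j) →
        u = u' := fun u w u' w' k1 k2 k => by
      obtain ⟨i, hi⟩ := Function.ne_iff.1 k1
      obtain ⟨j, hj⟩ := Function.ne_iff.1 k2
      have a1 := (z2 (u i)).resolve_left hi
      have a2 := (z2 (w j)).resolve_left hj
      have a3 : w' j = 1 := (z2 (w' j)).resolve_left fun e => by simpa [a1, a2, e] using k i j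
      funext l
      simpa [a2, a3] using k l j
    refine Nat.card_le_card_of_injective
      (fun t => ⟨vecMulVec (t.1 0) (t.1 1), mem _ _ (t.2.ne_zero 0) (t.2.ne_zero 1)⟩)
      fun t t' e => Subtype.ext (funext fun i => ?_)
    have e' : vecMulVec (t.1 0) (t.1 1) = vecMulVec (t'.1 0) (t'.1 1) := congrArg Subtype.val e
    have e2 : ∀ i j, t.1 0 i * t.1 1 j = t'.1 0 i * t'.1 1 j := fun i j =>
      congrFun (congrFun e' i) j
    fin_cases i
    · exact inj _ _ _ _ (t.2.ne_zero 0) (t.2.ne_zero 1) e2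
    · exact inj _ _ _ (t'.1 0) (t.2.ne_zero 1) (t.2.ne_zero 0) fun i j =>
        (mul_comm _ _).trans ((e2 j i).trans (mul_comm _ _))

theorem smat : SMat := by
  intro H _ _ _ ι _ _ s Q h hc hh hs hQ hd a b hab
  classical
  obtain ⟨s1, s2, s3⟩ := hs
  obtain ⟨e, ea, eb⟩ : ∃ e : Fin h ⊕ Fin h ≃ ι, e (.inl ⟨0, by omega⟩) = a ∧
      e (.inr ⟨0, by omega⟩) = b := by
    let e0 : Fin h ⊕ Fin h ≃ ι := Fintype.equivOfCardEq (by simp [hc, two_mul])
    obtain ⟨σ, hσ⟩ := Equiv.Perm.exists_extending_pair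
      (f := ![e0 (.inl ⟨0, by omega⟩), e0 (.inr ⟨0, by omega⟩)]) (g := ![a, b])
      (by intro i j; fin_cases i <;> fin_cases j <;> simp)
      (by intro i j; fin_cases i <;> fin_cases j <;> simp [hab, hab.symm])
    exact ⟨e0.trans σ, hσ 0, hσ 1⟩
  let x : Fin h × Fin h → End ℂ H := fun p => s (e (.inl p.1)) (e (.inr p.2))
  let c : ZMod 2 → ℂ := fun z => if z = 1 then -1 else 1
  have cadd : ∀ y z, c (y + z) = c y * c z := fun y z => by
    have : (1 : ZMod 2) + 1 = 0 := rfl
    rcases z2 y with rfl | rfl <;> rcases z2 z with rfl | rfl <;> simp [c, this]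
  let Θ : Set (Matrix (Fin h) (Fin h) (ZMod 2)) :=
    {M | ∃ v ∈ Q, v ≠ 0 ∧ ∀ p q, x (p, q) v = c (M p q) • v}
  have nz : ∀ a b, a ≠ b → ∀ v, v ≠ 0 → s a b v ≠ 0 := fun a b k v hv e => hv (by
    have := congrArg (s a b) e
    rwa [← End.mul_apply, s1 a b k, End.one_apply, map_zero] at this)
  have hL : ∀ g : Matrix (Fin h) (Fin h) (ZMod 2), g.det ≠ 0 → ∀ M ∈ Θ, g * M ∈ Θ ∧ M * g ∈ Θ := by
    intro g hg
    refine diagonal_transvection_induction_of_det_ne_zero
      (fun g => ∀ M ∈ Θ, g * M ∈ Θ ∧ M * g ∈ Θ) g hg (fun D hD M hM => ?_) ?_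
      fun A B _ _ hA hB M hM => ?_
    · have : D = fun _ => 1 := funext fun i => (z2 (D i)).resolve_left fun k =>
        hD (by rw [det_diagonal]; exact Finset.prod_eq_zero (Finset.mem_univ i) k)
      rw [this, diagonal_one, one_mul, mul_one]
      exact ⟨hM, hM⟩
    · rintro ⟨i, j, hij, z⟩ M hM
      rw [TransvectionStruct.toMatrix_mk]
      rcases z2 z with rfl | rfl
      · rw [transvection_zero, one_mul, mul_one]
        exact ⟨hM, hM⟩
      obtain ⟨v, v1, v2, v3⟩ := hM
      have k1 : e (.inl j) ≠ e (.inl i) := by simpa using hij.symm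
      have k2 : e (.inr j) ≠ e (.inr i) := by simpa using hij.symm
      refine ⟨⟨_, hQ _ _ k1 v v1, nz _ _ k1 v v2, fun p q => ?_⟩,
        ⟨_, hQ _ _ k2 v v1, nz _ _ k2 v v2, fun p q => ?_⟩⟩
      · by_cases k : p = i
        · have r := s3 (e (.inl j)) (e (.inl p)) (e (.inr q)) (k ▸ k1) (by simp) (by simp)
          have r' : x (p, q) * s (e (.inl j)) (e (.inl p)) =
              s (e (.inl j)) (e (.inl p)) * (x (p, q) * x (j, q)) := by
            rw [← r, ← mul_assoc, ← mul_assoc, s1 _ _ (k ▸ k1), one_mul]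
          subst k
          rw [← End.mul_apply, r', End.mul_apply, End.mul_apply, v3, map_smul, v3, map_smul,
            map_smul, smul_smul, transvection_mul_apply_same, one_mul, cadd, mul_comm]
        · have r := s2 (e (.inl p)) (e (.inr q)) (e (.inl j)) (e (.inl i)) (by simp) k1 (by simp)
            (by simpa using k)
          rw [← End.mul_apply, r.eq, End.mul_apply, v3, map_smul,
            transvection_mul_apply_of_ne _ _ _ _ k]
      · by_cases k : q = j
        · have r := s3 (e (.inl p)) (e (.inr q)) (e (.inr i)) (by simp) (k ▸ k2) (by simp)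
          have r' : x (p, q) * s (e (.inr q)) (e (.inr i)) =
              s (e (.inr q)) (e (.inr i)) * (x (p, i) * x (p, q)) := by
            rw [← mul_assoc, ← r, mul_assoc _ (x (p, q)), s1 _ _ (by simp), mul_one]
          subst k
          rw [← End.mul_apply, r', End.mul_apply, End.mul_apply, v3, map_smul, v3, map_smul,
            map_smul, smul_smul, mul_transvection_apply_same, one_mul, cadd]
        · have r := s2 (e (.inl p)) (e (.inr q)) (e (.inr j)) (e (.inr i)) (by simp) k2
            (by simpa using k) (by simp)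
          rw [← End.mul_apply, r.eq, End.mul_apply, v3, map_smul,
            mul_transvection_apply_of_ne _ _ _ _ k]
    · rw [mul_assoc, ← mul_assoc M]
      exact ⟨(hA _ (hB M hM).1).1, (hB _ (hA M hM).2).2⟩
  let I : Matrix (Fin h) (Fin h) (ZMod 2) → Finset (Fin h × Fin h) :=
    fun M => Finset.univ.filter fun p => M p.1 p.2 = 1
  have hI : Function.Injective I := fun M N k => by
    ext p q
    have : (p, q) ∈ I M ↔ (p, q) ∈ I N := by rw [k]
    simp only [I, Finset.mem_filter, Finset.mem_univ, true_and] at this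
    rcases z2 (M p q) with k1 | k1 <;> rcases z2 (N p q) with k2 | k2 <;> simp_all
  have hcard : Nat.card Θ ≤ finrank ℂ Q := by
    have := JE_card_le (x := x) (S := Finset.univ) (Q := Q) (Θ.toFinset.image I) fun J hJ => by
      obtain ⟨M, hM, rfl⟩ := Finset.mem_image.1 hJ
      obtain ⟨v, v1, v2, v3⟩ := Set.mem_toFinset.1 hM
      refine ⟨Finset.subset_univ _, (Submodule.ne_bot_iff _).2 ⟨v, ⟨v1, ?_⟩, v2⟩⟩
      refine mem_JE'.2 fun p _ => ?_
      rw [v3 p.1 p.2]
      simp [c, sgn, I]
    rwa [Finset.card_image_of_injective _ hI, Set.toFinset_card, ← Nat.card_eq_fintype_card] at this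
  have hsup := JE_iSup (x := x) (S := Finset.univ) (Q := Q)
    (fun p _ v _ => by rw [← End.mul_apply, s1 _ _ (by simp), End.one_apply])
    (fun p _ q _ v _ => by
      rw [← End.mul_apply, (s2 _ _ _ _ (by simp) (by simp) (by simp) (by simp)).eq, End.mul_apply])
    fun p _ => hQ _ _ (by simp)
  have : Q ≤ End.eigenspace (s a b) 1 := by
    rw [← hsup]
    refine iSup_le fun J v hv => ?_
    rw [End.mem_eigenspace_iff, one_smul]
    by_contra hne
    have v3 := mem_JE'.1 hv.2
    let M : Matrix (Fin h) (Fin h) (ZMod 2) := fun p q => if (p, q) ∈ J.1 then 1 else 0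
    have hM : M ∈ Θ := ⟨v, hv.1, fun k => hne (by simp [k]), fun p q => by
      rw [v3 _ (Finset.mem_univ _)]
      by_cases k : (p, q) ∈ J.1 <;> simp [M, c, sgn, k]⟩
    have h1 : M ⟨0, by omega⟩ ⟨0, by omega⟩ = 1 := by
      by_contra k
      obtain ⟨-, -, -, -⟩ := hM
      have k2 := v3 (⟨0, by omega⟩, ⟨0, by omega⟩) (Finset.mem_univ _)
      have k3 : (⟨0, by omega⟩, ⟨0, by omega⟩) ∉ J.1 := fun k4 => k (if_pos k4)
      simp only [x, ea, eb, sgn, if_neg k3, one_smul] at k2
      exact hne k2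
    have := mat_count hh Θ hL M hM _ _ h1
    omega
  intro v hv
  simpa using End.mem_eigenspace_iff.1 (this hv)

end Pool.Agent.MP_3ce0a0_al.H79.X
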