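import Pool.Agent.MP_3ce0a0_al.H79.XM
import Pool.Agent.MP_3ce0a0_al.H79.XF4b
import Pool.Agent.MP_3ce0a0_al.H28.Niel
import Pool.Agent.MP_3ce0a0_al.H3.XF1
import Pool.Agent.MP_3ce0a0_al.H5.XGeoK
import Pool.Agent.MP_3ce0a0_al.H9.XG1
import Pool.Agent.MP_3ce0a0_al.H10.XEmbA
import Pool.Agent.MP_3ce0a0_al.H14.XStar
import Pool.Agent.MP_3ce0a0_al.H16.XOm
import Pool.Agent.MP_3ce0a0_al.H18.XD2
import Pool.Agent.MP_3ce0a0_al.H20.XSmall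
import Pool.Agent.MP_3ce0a0_al.H27.XD1
import Pool.Agent.MP_3ce0a0_al.H28.XSt
import Pool.Agent.MP_3ce0a0_al.H30.XChar
import Pool.Agent.MP_3ce0a0_al.H32.XPat
import Pool.Agent.MP_3ce0a0_al.H79.XMat
import Pool.Agent.MP_3ce0a0_al.H39.XF4
import Pool.Agent.MP_3ce0a0_al.H40.XAct
import Pool.Agent.MP_3ce0a0_al.H44.XGeo
import Pool.Agent.MP_3ce0a0_al.H50.XF2
import Pool.Agent.MP_3ce0a0_al.H51.XLoc
import Pool.Agent.MP_3ce0a0_al.H52.XG3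
import Pool.Agent.MP_3ce0a0_al.H54.XLam
import Pool.Agent.MP_3ce0a0_al.H55.XLin
import Pool.Agent.MP_3ce0a0_al.H59.XBurn
import Pool.Agent.MP_3ce0a0_al.H62.XNum
import Pool.Agent.MP_3ce0a0_al.H68.XUN
import Pool.Agent.MP_3ce0a0_al.H81.XGeoL
import Pool.Agent.MP_3ce0a0_al.H82.XDef
import Pool.Agent.MP_3ce0a0_al.H84.XF0
import Pool.Agent.MP_3ce0a0_al.H86.XComb
import Pool.Agent.MP_3ce0a0_al.H88.XConv
import Pool.Agent.MP_3ce0a0_al.H90.XEmbB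
import Pool.Agent.MP_3ce0a0_al.H91.XInd
import Pool.Agent.MP_3ce0a0_al.H95.XBfin
import Pool.Agent.MP_3ce0a0_al.H99.XF3

/-
All the steps of the exact bound put together.
-/

namespace Pool.Agent.MP_3ce0a0_al.H79.X

theorem aK : SGeoK := sgeoK H81.sgeoL

theorem aQuad : SQuad := H30.XC.squad (H86.XComb.scomb H62.XNum.snum)

theorem aGR : SGR := H59.sgr' H59.sburn

theorem aInd : SInd :=
  H91.sind (H51.sloc aGR (H88.sr1 aGR) H55.slin) (H82.sdef H88.sconv (H88.sr5 aGR)) H62.XNum.sbin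

theorem aStar : SStar := H14.sstar H81.sgeoL aQuad (H16.XOm.som H95.sbfin) H88.sconv

theorem aCore : ∃ n₀, ∀ n m : ℕ, n₀ ≤ n → Even n → 2 ≤ m → m ≠ n → m ≤ (n - 1) * 2 ^ n →
    ∀ (φ : Out (FG n) →* Out (FG m)) (a b : Fin n),
      φ (QuotientGroup.mk (H62.Inst.ep a * H62.Inst.ep b)) = 1 :=
  core H44.sgeo aK aQuad H28.ssg (H28.sst H28.ssg) (H68.sun H28.ssg H59.sburn smat) aStar aInd
    (H27.sd1 H30.XC.schar spat H28.ssg) (H18.sd2 H59.sburn H28.ssg) (H9.sg1 H28.ssg)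
    (H52.G3.sg3 H81.sgeoL H20.ssmallR) (sf0 H28.ssg) (H3.sf1 H81.sgeoL)
    (H50.sf2 aK H28.ssg slam) (H99.sf3 H81.sgeoL H40.sact)
    (H39.sf4 H81.sgeoL aK H28.ssg smat sf4b)

theorem aEmb : SEmb := semb (H10.sembA H28.sniel) sembB

theorem leastEven : ∃ n₀, ∀ n : ℕ, n₀ ≤ n → Even n →
    IsLeast {m : ℕ | n < m ∧ ∃ φ : Out (FG n) →* Out (FG m), Function.Injective φ}
      ((n - 1) * 2 ^ n + 1) := mainX aCore aEmb

end Pool.Agent.MP_3ce0a0_al.H79.X
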