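import Pool.Agent.MP_3ce0a0_al.H62.Inst
import Pool.Agent.MP_3ce0a0_al.H79.SpecG

/-
Definitions for the exact bound: elements of the automorphism group, sectors, fixed subgraphs.
-/

namespace Pool.Agent.MP_3ce0a0_al.H79.X

open Equiv FreeGroup Module Pool.Agent.MP_3ce0a0_al.H62.Inst

/-- the automorphism group of the free group. -/
abbrev A (ι : Type) : Type := MulAut (FreeGroup ι)

/-- its complex representations. -/
abbrev Rep (ι H : Type) [AddCommGroup H] [Module ℂ H] : Type := A ι →* End ℂ H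

section grp
variable {ι : Type}

/-- the free factor on `S`. -/
def FS (S : Set ι) : Subgroup (FreeGroup ι) := Subgroup.closure (of '' S)

/-- automorphisms supported on `S`. -/
def On (S : Set ι) : Subgroup (A ι) where
  carrier := {α | (∀ c, c ∉ S → α (of c) = of c) ∧ ∀ x, α x ∈ FS S ↔ x ∈ FS S}
  one_mem' := ⟨fun _ _ => rfl, fun _ => Iff.rfl⟩
  mul_mem' := fun {α β} h k =>
    ⟨fun c hc => by rw [MulAut.mul_apply, k.1 c hc, h.1 c hc], fun x => (h.2 _).trans (k.2 x)⟩
  inv_mem' := fun {α} h =>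
    ⟨fun c hc => α.injective (by rw [MulAut.apply_inv_self, h.1 c hc]),
      fun x => by rw [← h.2, MulAut.apply_inv_self]⟩

/-- inner automorphisms of the free factor on `S`, extended by the identity. -/
def IO (S : Set ι) : Subgroup (A ι) where
  carrier := {α | (∀ c, c ∉ S → α (of c) = of c) ∧ ∃ w ∈ FS S, ∀ x ∈ FS S, α x = w * x * w⁻¹}
  one_mem' := ⟨fun _ _ => rfl, 1, one_mem _, fun x _ => by simp⟩
  mul_mem' := fun {α β} ⟨h, w, hw, e⟩ ⟨k, v, hv, f⟩ =>
    ⟨fun c hc => by rw [MulAut.mul_apply, k c hc, h c hc], w * v, mul_mem hw hv, fun x hx => by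
      rw [MulAut.mul_apply, f x hx, e _ (mul_mem (mul_mem hv hx) (inv_mem hv))]
      group⟩
  inv_mem' := fun {α} ⟨h, w, hw, e⟩ =>
    ⟨fun c hc => α.injective (by rw [MulAut.apply_inv_self, h c hc]), w⁻¹, inv_mem hw,
      fun x hx => α.injective (by
        rw [MulAut.apply_inv_self, e _ (mul_mem (mul_mem (inv_mem hw) hx) (inv_mem (inv_mem hw)))]
        group)⟩

/-- the base point and the generators. -/
def zz : Option ι → FreeGroup ι := fun o => o.elim 1 of

/-- the substitution of the cage group. -/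
def cgE (s : Perm (Option ι)) : FreeGroup ι →* FreeGroup ι :=
  lift fun a => zz (s (some a)) * (zz (s none))⁻¹

lemma cgE_zz (s : Perm (Option ι)) (o : Option ι) : cgE s (zz o) = zz (s o) * (zz (s none))⁻¹ := by
  cases o <;> simp [cgE, zz]

lemma cgE_mul (s t : Perm (Option ι)) : (cgE s).comp (cgE t) = cgE (s * t) :=
  FreeGroup.ext_hom _ _ fun a => by
    change cgE s (cgE t (zz (some a))) = cgE (s * t) (zz (some a))
    simp [cgE_zz]

lemma cgE_one : cgE (ι := ι) 1 = MonoidHom.id _ :=
  FreeGroup.ext_hom _ _ fun a => by simp [cgE, zz]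

/-- the cage group. -/
def cage : Perm (Option ι) →* A ι where
  toFun s := MonoidHom.toMulEquiv (cgE s) (cgE s⁻¹) (by rw [cgE_mul, inv_mul_cancel, cgE_one])
    (by rw [cgE_mul, mul_inv_cancel, cgE_one])
  map_one' := MulEquiv.toMonoidHom_injective cgE_one
  map_mul' s t := MulEquiv.toMonoidHom_injective (cgE_mul s t).symm

lemma cage_of (s : Perm (Option ι)) (a : ι) :
    cage s (of a) = zz (s (some a)) * (zz (s none))⁻¹ := cgE_zz s (some a)

variable [DecidableEq ι]

/-- delete the letter `e`. -/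
def kill (e : ι) : FreeGroup ι →* FreeGroup ι := lift fun c => if c = e then 1 else of c

lemma lift_kill (e : ι) (u w : FreeGroup ι) :
    lift (fun c => if c = e then u else of c) (kill e w) = kill e w :=
  DFunLike.congr_fun (show (lift (fun c => if c = e then u else of c)).comp (kill e) = kill e from
    FreeGroup.ext_hom _ _ fun c => by by_cases h : c = e <;> simp [kill, h]) w

/-- `e ↦ e w`. -/
def Rw (e : ι) : FreeGroup ι →* A ι where
  toFun w := H62.Inst.mk (fun c => if c = e then of e * kill e w else of c)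
    (fun c => if c = e then of e * (kill e w)⁻¹ else of c)
    (fun c => by by_cases k : c = e <;> simp [k, lift_kill])
    fun c => by by_cases k : c = e <;> simp [k, lift_kill]
  map_one' := aut_ext fun c => by by_cases k : c = e <;> simp [H62.Inst.mk, k]
  map_mul' u v := aut_ext fun c => by by_cases k : c = e <;> simp [H62.Inst.mk, k, lift_kill, mul_assoc]

/-- `e ↦ w⁻¹ e`. -/
def Lw (e : ι) : FreeGroup ι →* A ι where
  toFun w := H62.Inst.mk (fun c => if c = e then (kill e w)⁻¹ * of e else of c)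
    (fun c => if c = e then kill e w * of e else of c)
    (fun c => by by_cases k : c = e <;> simp [k, lift_kill])
    fun c => by by_cases k : c = e <;> simp [k, lift_kill]
  map_one' := aut_ext fun c => by by_cases k : c = e <;> simp [H62.Inst.mk, k]
  map_mul' u v := aut_ext fun c => by by_cases k : c = e <;> simp [H62.Inst.mk, k, lift_kill, mul_assoc]

lemma Rw_of (e : ι) (w : FreeGroup ι) (c : ι) :
    Rw e w (of c) = if c = e then of e * kill e w else of c := by simp [Rw, H62.Inst.mk]

lemma Lw_of (e : ι) (w : FreeGroup ι) (c : ι) :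
    Lw e w (of c) = if c = e then (kill e w)⁻¹ * of e else of c := by simp [Lw, H62.Inst.mk]

/-- invert the letters in `J`. -/
def epJ (J : Finset ι) : A ι :=
  H62.Inst.mk (fun c => if c ∈ J then (of c)⁻¹ else of c)
    (fun c => if c ∈ J then (of c)⁻¹ else of c)
    (fun c => by by_cases h : c ∈ J <;> simp [h]) fun c => by by_cases h : c ∈ J <;> simp [h]

lemma epJ_of (J : Finset ι) (c : ι) : epJ J (of c) = if c ∈ J then (of c)⁻¹ else of c := by
  simp [epJ, H62.Inst.mk]

/-- the transposition of two letters. -/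
def ta (a b : ι) : A ι := pm (swap a b)

/-- the element of order three `a ↦ b a⁻¹`, `b ↦ a⁻¹`. -/
def cc (a b : ι) : A ι := ep a * rh b a * ta a b

/-- conjugation of the letter `e` by the letter `b`. -/
def kk (e b : ι) : A ι := rh e b * (la e b)⁻¹

open Classical in
/-- the substitution extending an endomorphism of a free factor. -/
noncomputable def exE {κ : Type} (f : κ ↪ ι) (α : FreeGroup κ →* FreeGroup κ) :
    FreeGroup ι →* FreeGroup ι :=
  lift fun c => if h : ∃ a, f a = c then FreeGroup.map f (α (of h.choose)) else of c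

omit [DecidableEq ι] in
lemma exE_in {κ : Type} (f : κ ↪ ι) (α : FreeGroup κ →* FreeGroup κ) (x : FreeGroup κ) :
    exE f α (FreeGroup.map f x) = FreeGroup.map f (α x) :=
  DFunLike.congr_fun (show (exE f α).comp (FreeGroup.map f) = (FreeGroup.map f).comp α from
    FreeGroup.ext_hom _ _ fun a => by
      have h : ∃ b, f b = f a := ⟨a, rfl⟩
      simp [exE, f.injective h.choose_spec]) x

omit [DecidableEq ι] in
lemma exE_out {κ : Type} (f : κ ↪ ι) (α : FreeGroup κ →* FreeGroup κ) (c : ι)
    (h : ∀ a, f a ≠ c) : exE f α (of c) = of c := by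
  have h' : ¬ ∃ a, f a = c := fun ⟨a, e⟩ => h a e
  simp [exE, h']

omit [DecidableEq ι] in
lemma exE_mul {κ : Type} (f : κ ↪ ι) (α β : FreeGroup κ →* FreeGroup κ) :
    (exE f α).comp (exE f β) = exE f (α.comp β) :=
  FreeGroup.ext_hom _ _ fun c => by
    by_cases h : ∃ a, f a = c
    · obtain ⟨a, rfl⟩ := h
      rw [← FreeGroup.map.of, MonoidHom.comp_apply, exE_in, exE_in, exE_in, MonoidHom.comp_apply]
    · have h' : ∀ a, f a ≠ c := fun a e => h ⟨a, e⟩
      rw [MonoidHom.comp_apply, exE_out f β c h', exE_out f α c h', exE_out f _ c h']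

omit [DecidableEq ι] in
lemma exE_id {κ : Type} (f : κ ↪ ι) : exE f (MonoidHom.id _) = MonoidHom.id _ :=
  FreeGroup.ext_hom _ _ fun c => by
    by_cases h : ∃ a, f a = c
    · obtain ⟨a, rfl⟩ := h
      rw [← FreeGroup.map.of, exE_in]
      rfl
    · exact exE_out f _ c fun a e => h ⟨a, e⟩

/-- extension of automorphisms of a free factor by the identity. -/
noncomputable def exA {κ : Type} (f : κ ↪ ι) : A κ →* A ι where
  toFun α := MonoidHom.toMulEquiv (exE f α.toMonoidHom) (exE f α.symm.toMonoidHom)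
    (by rw [exE_mul, ← exE_id f]; congr 1; ext x; simp)
    (by rw [exE_mul, ← exE_id f]; congr 1; ext x; simp)
  map_one' := MulEquiv.toMonoidHom_injective (exE_id f)
  map_mul' α β := MulEquiv.toMonoidHom_injective (exE_mul f α.toMonoidHom β.toMonoidHom).symm

end grp

section lin
variable {H : Type} [AddCommGroup H] [Module ℂ H]

open Classical in
/-- the trace on an invariant subspace. -/
noncomputable def trOn (f : End ℂ H) (Q : Submodule ℂ H) : ℂ :=
  if h : ∀ v ∈ Q, f v ∈ Q then LinearMap.trace ℂ Q (f.restrict h) else 0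

/-- `f` keeps `Q`. -/
def Keeps (f : End ℂ H) (Q : Submodule ℂ H) : Prop := ∀ v ∈ Q, f v ∈ Q

/-- unipotent. -/
def Uni (f : End ℂ H) : Prop := IsNilpotent (f - 1)

/-- unipotent on a subspace. -/
def UniOn (f : End ℂ H) (Q : Submodule ℂ H) : Prop := ∃ k : ℕ, ∀ v ∈ Q, ((f - 1) ^ k) v = 0

/-- `s` is the semisimple part of `f`, an involution. -/
def IsSg (s f : End ℂ H) : Prop := s * s = 1 ∧ Commute s f ∧ Uni (s * f)

variable {ι : Type} [DecidableEq ι]

/-- joint eigenspace of a family on `S`, with sign `-1` exactly on `I`. -/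
def JE (x : ι → End ℂ H) (S I : Finset ι) : Submodule ℂ H :=
  ⨅ a ∈ S, End.eigenspace (x a) (if a ∈ I then -1 else 1)

lemma mem_JE {x : ι → End ℂ H} {S I : Finset ι} {v : H} :
    v ∈ JE x S I ↔ ∀ a ∈ S, x a v = if a ∈ I then -v else v := by
  simp only [JE, Submodule.mem_iInf, End.mem_eigenspace_iff]
  refine forall₂_congr fun a _ => ?_
  split_ifs <;> simp

/-- sectors for the sign changes. -/
def Sec (r : Rep ι H) (S I : Finset ι) : Submodule ℂ H := JE (fun a => r (ep a)) S I

/-- inner automorphisms act trivially. -/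
def NoInn (r : Rep ι H) : Prop := ∀ x, r (MulAut.conj x) = 1

/-- partial multiplications by words in two letters have unipotent squares. -/
def Quad (r : Rep ι H) : Prop :=
  ∀ (e : ι) (S : Finset ι), S.card ≤ 2 → e ∉ S → ∀ w ∈ FS (S : Set ι), Uni (r (Rw e w) ^ 2)

/-- vectors fixed by the even sign changes. -/
def Z0 (r : Rep ι H) : Submodule ℂ H := ⨅ a, ⨅ b, End.eigenspace (r (ep a * ep b)) 1

/-- vectors of sign type `a`. -/
def Za (r : Rep ι H) (a : ι) : Submodule ℂ H :=
  ⨅ f, ⨅ (_ : f ≠ a), End.eigenspace (r (ep a * ep f)) (-1)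

/-- Steinberg involutions. -/
def St (s : ι → ι → End ℂ H) : Prop :=
  (∀ a b, a ≠ b → s a b * s a b = 1) ∧
  (∀ a b c d, a ≠ b → c ≠ d → b ≠ c → a ≠ d → Commute (s a b) (s c d)) ∧
  ∀ a b c, a ≠ b → b ≠ c → a ≠ c → s a b * s b c * s a b = s b c * s a c

variable [Fintype ι]

/-- the dimension of a full sector. -/
noncomputable def mu (r : Rep ι H) (I : Finset ι) : ℕ := finrank ℂ (Sec r Finset.univ I)

/-- the defect of the transposition of `a` and `b` on a full sector. -/
noncomputable def df (r : Rep ι H) (I : Finset ι) (a b : ι) : ℕ :=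
  finrank ℂ (Sec r Finset.univ I ⊓ End.eigenspace (r (ep a * ta a b)) (-1) : Submodule ℂ H)

end lin

/-- components of fixed subgraphs of finite order elements, and their cycles. -/
structure Geo {O H : Type} [Group O] [AddCommGroup H] [Module ℂ H] (π : O →* End ℂ H) where
  Ω : Type
  act : O →* Perm Ω
  ov : Ω → O
  Φ : Ω → Submodule ℂ H
  ov_act : ∀ y ω, ov (act y ω) = y * ov ω * y⁻¹
  Φ_act : ∀ y ω, ∀ v ∈ Φ ω, π y v ∈ Φ (act y ω)
  real : ∀ K : Subgroup O, Finite K →
    ∃ (V E : Type) (_ : MulAction K V) (_ : MulAction K E) (_ : Fintype V) (_ : Fintype E)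
      (o t : E → V) (j : H →ₗ[ℂ] (E → ℂ)) (q : K → V → Ω),
      (∀ (g : K) e, o (g • e) = g • o e) ∧ (∀ (g : K) e, t (g • e) = g • t e) ∧ Nonempty V ∧
      (∀ u v, Lnk o t (fun _ => True) u v) ∧ Val2 o t ∧ Function.Injective j ∧
      (∀ c, c ∈ LinearMap.range j ↔ Cyc o t c) ∧ (∀ (g : K) h e, j (π g h) (g • e) = j h e) ∧
      (∀ g : K, (∀ e : E, g • e = e) → g = 1) ∧
      (∀ (g : K) v, g • v = v → ov (q g v) = g) ∧
      (∀ (g : K) ω, ov ω = g → ∃ v, g • v = v ∧ q g v = ω) ∧
      (∀ (g : K) u v, g • u = u → g • v = v →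
        (q g u = q g v ↔ Lnk o t (fun e => g • e = e) u v)) ∧
      (∀ (c g : K) v, g • v = v → act c (q g v) = q (c * g * c⁻¹) (c • v)) ∧
      ∀ (g : K) ω, ov ω = g → ∀ h, h ∈ Φ ω ↔ ∀ e, j h e ≠ 0 → g • e = e ∧ q g (o e) = ω

/-- the cycles of the whole fixed subgraph. -/
def Geo.Φt {O H : Type} [Group O] [AddCommGroup H] [Module ℂ H] {π : O →* End ℂ H} (G : Geo π)
    (g : O) : Submodule ℂ H := ⨆ ω, ⨆ (_ : G.ov ω = g), G.Φ ω

/-- the number of components fixed by `y`. -/
noncomputable def Geo.fx {O H : Type} [Group O] [AddCommGroup H] [Module ℂ H] {π : O →* End ℂ H}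
    (G : Geo π) (g y : O) : ℕ := Nat.card {ω // G.ov ω = g ∧ G.act y ω = ω}

end Pool.Agent.MP_3ce0a0_al.H79.X
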