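import Pool.Agent.MP_3ce0a0_al.H79.XS
import Pool.Agent.MP_3ce0a0_al.H79.XB
import Pool.Agent.MP_3ce0a0_al.H79.XG

/-
Assembly of the exact bound.
-/

namespace Pool.Agent.MP_3ce0a0_al.H79.X

open Equiv Module Finset Pool.Agent.MP_3ce0a0_al.H62.Inst

theorem epep_sq {ι : Type} [DecidableEq ι] (a b : ι) : (ep a * ep b) ^ 2 = 1 := by
  have h1 : ep a * ep a = 1 := (N0 ι).ε_sq a
  have h2 : ep b * ep b = 1 := (N0 ι).ε_sq b
  have h3 : ep a * ep b = ep b * ep a := (N0 ι).ε_comm a b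
  calc (ep a * ep b) ^ 2 = ep a * (ep b * ep a) * ep b := by rw [pow_two]; group
    _ = (ep a * ep a) * (ep b * ep b) := by rw [← h3]; group
    _ = 1 := by rw [h1, h2, one_mul]

theorem finrank_of_F {ι H : Type} [Fintype ι] [DecidableEq ι] [AddCommGroup H] [Module ℂ H]
    [FiniteDimensional ℂ H] (P : Option ι → Submodule ℂ H) (h1 : iSupIndep P) (h2 : ⨆ o, P o = ⊤)
    (h3 : P none = ⊥) (h4 : ∀ a, finrank ℂ (P (some a)) = 1) : finrank ℂ H = Fintype.card ι := by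
  classical
  have h := (DirectSum.isInternal_submodule_iff_iSupIndep_and_iSup_eq_top P).2 ⟨h1, h2⟩
  rw [← (LinearEquiv.ofBijective (DirectSum.coeLinearMap P) h).finrank_eq, finrank_directSum,
    Fintype.sum_option, h3]
  simp [h4]

theorem uni_kk_sq {ι H : Type} [DecidableEq ι] [AddCommGroup H] [Module ℂ H] {r : Rep ι H}
    (hQ : Quad r) {e b : ι} (h : e ≠ b) : Uni (r (kk e b) ^ 2) := by
  have h1 : Uni (r (Rw e (FreeGroup.of b)) ^ 2) :=
    hQ e {b} (by simp) (by simpa using h) _ (of_mem_FS (by simp))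
  have h0 : r (ep e) * r (ep e) = 1 := by rw [← map_mul, ep_sq, map_one]
  have h2 : Uni (r (Lw e (FreeGroup.of b)) ^ 2) := by
    have := h1.conj h0 h0
    rw [← ep_conj_Rw, ← map_pow, pow_two]
    rw [← map_pow, ← map_mul, ← map_mul, pow_two] at this
    have e1 : ep e * Rw e (FreeGroup.of b) * ep e * (ep e * Rw e (FreeGroup.of b) * ep e) =
        ep e * (Rw e (FreeGroup.of b) * Rw e (FreeGroup.of b)) * ep e := by
      calc _ = ep e * Rw e (FreeGroup.of b) * (ep e * ep e) * Rw e (FreeGroup.of b) * ep e := by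
            group
        _ = _ := by rw [ep_sq]; group
    rw [e1]
    exact this
  have hc : Commute (r (Rw e (FreeGroup.of b))) (r (Lw e (FreeGroup.of b))) :=
    (commute_Rw_Lw e _ _).map r
  rw [kk_eq h, map_mul, hc.mul_pow]
  exact h1.mul h2 (hc.pow_pow 2 2)

theorem core (hGeo : SGeo) (hK : SGeoK) (hQuad : SQuad) (hSg : SSg) (hSt : SSt) (hUN : SUN)
    (hStar : SStar) (hInd : SInd) (hD1 : SD1) (hD2 : SD2) (hG1 : SG1) (hG3 : SG3) (hF0 : SF0)
    (hF1 : SF1) (hF2 : SF2) (hF3 : SF3) (hF4 : SF4) :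
    ∃ n₀, ∀ n m : ℕ, n₀ ≤ n → Even n → 2 ≤ m → m ≠ n → m ≤ (n - 1) * 2 ^ n →
      ∀ (φ : Out (FG n) →* Out (FG m)) (a b : Fin n), φ (QuotientGroup.mk (ep a * ep b)) = 1 := by
  obtain ⟨n1, h1⟩ := hQuad 1
  obtain ⟨n2, h2⟩ := hUN
  obtain ⟨n3, h3⟩ := hStar
  obtain ⟨n4, h4⟩ := hInd
  refine ⟨n1 + n2 + n3 + n4 + 12, fun n m hn he hm hmn hle φ a b => ?_⟩
  obtain ⟨π, ⟨G⟩⟩ := hGeo m hm
  let ψ : A (Fin n) →* Out (FG m) := φ.comp (QuotientGroup.mk' (Inn (FG n)))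
  have hψ : ∀ x, ψ (MulAut.conj x) = 1 := fun x => by
    have : (QuotientGroup.mk' (Inn (FG n))) (MulAut.conj x) = 1 :=
      (QuotientGroup.eq_one_iff _).2 ⟨x, rfl⟩
    rw [MonoidHom.comp_apply, this, map_one]
  have hI : NoInn (π.comp ψ) := fun x => by rw [MonoidHom.comp_apply, hψ, map_one]
  have hc : Fintype.card (Fin n) = n := Fintype.card_fin n
  have hd : finrank ℂ (HV m) = m := by simp
  have hd1 : finrank ℂ (HV m) ≤ (Fintype.card (Fin n) - 1) * 2 ^ Fintype.card (Fin n) := by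
    rw [hc, hd]; exact hle
  have hd2 : finrank ℂ (HV m) ≤ Fintype.card (Fin n) * 2 ^ Fintype.card (Fin n) :=
    hd1.trans (Nat.mul_le_mul_right _ (Nat.sub_le _ _))
  have he' : Even (Fintype.card (Fin n)) := by rw [hc]; exact he
  have hQ : Quad (π.comp ψ) := h1 _ _ _ (by omega) (by rw [one_mul]; exact hd2)
  obtain ⟨D, hD⟩ := hD1 _ _ (π.comp ψ) (by omega) he' hd1 hI hQ
  have hD4 := hD2 _ _ (π.comp ψ) D (by omega) hQ hD
  by_cases hne : ∃ b, D b ≠ 1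
  · exact absurd (hG1 _ _ _ D (by omega) hd1 hQ hD hD4 hne)
      (hG3 _ _ _ π G ψ D (by omega) he' hQ hD hD4)
  have hD' : ∀ b, D b = 1 := fun b => by_contra fun h => hne ⟨b, h⟩
  have hk : ∀ e b, e ≠ b → Uni ((π.comp ψ) (kk e b)) := fun e b h => by
    obtain ⟨s, hs⟩ := (hSg _ _).1 (uni_kk_sq hQ h)
    have h5 := (hD.2.2.2.1 b e s h hs).1
    rw [hD' b, mul_add, mul_one, ← two_smul ℂ, smul_eq_zero, sub_eq_zero] at h5
    have h6 := hs.2.2
    rwa [h5.resolve_left two_ne_zero, one_mul] at h6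
  obtain ⟨s, hs⟩ := hSt _ _ _ hQ hk
  obtain ⟨hT, hU⟩ := h2 _ _ _ s (by omega) he' hd1 hQ hI hk hs
  have hw := h4 _ _ _ (by omega) hd2 hU (h3 _ _ _ π G ψ (by omega) hd2 hU)
  have hFH : FH (π.comp ψ) s := ⟨by omega, he', hI, hs, hT, hw⟩
  have f0 := hF0 _ _ _ s hFH
  have f1 := hF1 _ _ _ π G ψ s hFH f0
  have f2 := hF2 _ _ _ π G ψ s hψ hFH f0 f1
  rcases hF3 _ _ _ π G ψ s hψ hFH f0 f2 with f3 | f3
  · refine (hK _ _ π G).2.2 (by omega) (ψ (ep a * ep b)) ?_ ?_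
    · exact isOfFinOrder_iff_pow_eq_one.2 ⟨2, by omega, by rw [← map_pow, epep_sq, map_one]⟩
    · have h5 := f0.2.1
      simp only [f3, iSup_bot, sup_bot_eq] at h5
      refine LinearMap.ext fun v => ?_
      have hv : v ∈ Z0 (π.comp ψ) := h5 ▸ Submodule.mem_top
      simp only [Z0, Submodule.mem_iInf, End.mem_eigenspace_iff, one_smul] at hv
      exact hv a b
  · exfalso
    have f4 := hF4 _ _ _ π G ψ s hψ hFH f0 f1 f3
    have := finrank_of_F _ f0.1 (by rw [iSup_option]; exact f0.2.1) f4 f3.1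
    omega

theorem epep_ne {n : ℕ} {a b : Fin n} (h : a ≠ b) :
    (QuotientGroup.mk (ep a * ep b) : Out (FG n)) ≠ 1 := fun e => by
  obtain ⟨u, hu⟩ := (QuotientGroup.eq_one_iff _).1 e
  have := congrArg (FreeGroup.lift fun _ => Multiplicative.ofAdd (1 : ℤ))
    (DFunLike.congr_fun hu (FreeGroup.of a))
  simp [ep_of, h] at this
  exact absurd (congrArg Multiplicative.toAdd this) (by simp)

theorem mainX (hc : ∃ n₀, ∀ n m : ℕ, n₀ ≤ n → Even n → 2 ≤ m → m ≠ n → m ≤ (n - 1) * 2 ^ n →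
      ∀ (φ : Out (FG n) →* Out (FG m)) (a b : Fin n), φ (QuotientGroup.mk (ep a * ep b)) = 1)
    (hE : SEmb) : ∃ n₀, ∀ n : ℕ, n₀ ≤ n → Even n →
      IsLeast {m : ℕ | n < m ∧ ∃ φ : Out (FG n) →* Out (FG m), Function.Injective φ}
        ((n - 1) * 2 ^ n + 1) := by
  obtain ⟨n₀, h⟩ := hc
  refine ⟨n₀ + 3, fun n hn he => ⟨⟨?_, hE n (by omega) he⟩, ?_⟩⟩
  · have h1 : n < 2 ^ n := Nat.lt_two_pow_self
    have h2 : 1 * 2 ^ n ≤ (n - 1) * 2 ^ n := Nat.mul_le_mul_right _ (by omega)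
    omega
  · rintro m ⟨h1, φ, hφ⟩
    by_contra h2
    have h3 := h n m (by omega) he (by omega) (by omega) (by omega) φ ⟨0, by omega⟩ ⟨1, by omega⟩
    exact epep_ne (by simp) (hφ (h3.trans (map_one φ).symm))

end Pool.Agent.MP_3ce0a0_al.H79.X
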