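import Pool.Agent.MP_3ce0a0_al.H79.XD

/-
Statements of the steps for the exact bound.
-/

namespace Pool.Agent.MP_3ce0a0_al.H79.X

open Equiv FreeGroup Module Finset Pool.Agent.MP_3ce0a0_al.H62.Inst

/-- a statement about all finite dimensional spaces. -/
def ForH (P : ∀ (H : Type) [AddCommGroup H] [Module ℂ H], Prop) : Prop :=
  ∀ (H : Type) [AddCommGroup H] [Module ℂ H] [FiniteDimensional ℂ H], P H

/-- a statement about all representations. -/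
def ForR (P : ∀ (ι H : Type) [Fintype ι] [DecidableEq ι] [AddCommGroup H] [Module ℂ H]
    (_ : Rep ι H), Prop) : Prop :=
  ∀ (ι H : Type) [Fintype ι] [DecidableEq ι] [AddCommGroup H] [Module ℂ H] [FiniteDimensional ℂ H]
    (r : Rep ι H), P ι H r

/-- a statement about all geometric representations. -/
def ForG (P : ∀ (ι O H : Type) [Fintype ι] [DecidableEq ι] [Group O] [AddCommGroup H] [Module ℂ H]
    (π : O →* End ℂ H) (_ : Geo π) (_ : A ι →* O), Prop) : Prop :=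
  ∀ (ι O H : Type) [Fintype ι] [DecidableEq ι] [Group O] [AddCommGroup H] [Module ℂ H]
    [FiniteDimensional ℂ H] (π : O →* End ℂ H) (G : Geo π) (ψ : A ι →* O), P ι O H π G ψ

/-! ### geometry -/

def SGeo : Prop := ∀ m : ℕ, 2 ≤ m → ∃ π : Out (FG m) →* End ℂ (HV m), Nonempty (Geo π)

/-- components, and the Lefschetz formula on a fixed subgraph. -/
def SGeoL : Prop := ForH fun H _ _ => ∀ (O : Type) [Group O] (π : O →* End ℂ H) (G : Geo π),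
  (∀ g, IsOfFinOrder g → Finite {ω // G.ov ω = g} ∧
    iSupIndep (fun ω : {ω // G.ov ω = g} => G.Φ ω.1) ∧
    ∀ ω, G.ov ω = g → G.act g ω = ω ∧ ∀ v ∈ G.Φ ω, π g v = v) ∧
  ∀ (g y : O) (p q : ℕ), 0 < p → 0 < q → Nat.Coprime p q → g ^ p = 1 → y ^ q = 1 → Commute g y →
    trOn (π y) (G.Φt g) - G.fx g y = LinearMap.trace ℂ H (π (y * g)) - 1

/-- two commuting elements, edges, and faithfulness. -/
def SGeoK : Prop := ForH fun H _ _ => ∀ (O : Type) [Group O] (π : O →* End ℂ H) (G : Geo π),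
  (∀ g y, IsOfFinOrder g → IsOfFinOrder y → Commute g y → ∃ M : G.Ω → G.Ω → Prop,
    (∀ ω, G.ov ω = g → G.act y ω = ω → trOn (π y) (G.Φ ω) ≠ 1 → ∃ ω', G.ov ω' = y ∧ M ω ω') ∧
    (∀ ω', G.ov ω' = y → G.act g ω' = ω' → trOn (π g) (G.Φ ω') ≠ 1 → ∃ ω, G.ov ω = g ∧ M ω ω') ∧
    ∀ ω ω', G.ov ω = g → M ω ω' → (∀ v ∈ G.Φ ω, π y v = v) → G.Φ ω ≤ G.Φ ω') ∧
  (∀ K : Subgroup O, Finite K → ∃ (E : Type) (_ : Finite E) (δ : E → H →ₗ[ℂ] ℂ)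
    (st : E → Subgroup O), ∀ g ∈ K, ∀ v, v ∈ G.Φt g ↔ ∀ e, g ∉ st e → δ e v = 0) ∧
  (2 ≤ finrank ℂ H → ∀ g, IsOfFinOrder g → π g = 1 → g = 1)

/-! ### spectra -/

/-- joint generalised eigenspaces of the partial multiplications by `w`. -/
def GE {ι H : Type} [DecidableEq ι] [AddCommGroup H] [Module ℂ H] (r : Rep ι H) (S : Finset ι)
    (w : FreeGroup ι) (θ : {e // e ∉ S} → ℂ × ℂ) : Submodule ℂ H :=
  ⨅ e : {e // e ∉ S},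
    (r (Rw e.1 w)).maxGenEigenspace (θ e).1 ⊓ (r (Lw e.1 w)).maxGenEigenspace (θ e).2

open Classical in
/-- the symmetries of the multiplicity function. -/
def Inv {κ : Type} [Fintype κ] [DecidableEq κ] (T : Finset (κ → ℂ × ℂ))
    (m : (κ → ℂ × ℂ) → ℕ) : Prop :=
  (∀ θ, θ ∈ T ↔ m θ ≠ 0) ∧ (∀ θ ∈ T, ∀ e, (θ e).1 ≠ 0 ∧ (θ e).2 ≠ 0) ∧
  (∀ (σ : Perm κ) θ, m (θ ∘ σ) = m θ) ∧ (∀ θ e, m (Function.update θ e (θ e).swap) = m θ) ∧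
  ∀ a c, a ≠ c → ∀ θ₀ : κ → ℂ × ℂ,
    ∑ θ ∈ T with ((∀ e, e ≠ a → e ≠ c → θ e = θ₀ e) ∧ (θ c).1 = (θ₀ c).1 ∧
      (θ a).1 = (θ₀ a).1), m θ =
    ∑ θ ∈ T with ((∀ e, e ≠ a → e ≠ c → θ e = θ₀ e) ∧ (θ c).1 = (θ₀ c).1 ∧
      (θ a).1 * (θ c).2 = (θ₀ a).1), m θ

def SChar : Prop := ForR fun ι H _ _ _ _ r => ∀ S : Finset ι, ∀ w ∈ FS (S : Set ι),
  ∃ T, Inv T (fun θ => finrank ℂ (GE r S w θ)) ∧
    ∑ θ ∈ T, finrank ℂ (GE r S w θ) = finrank ℂ H ∧ ⨆ θ, GE r S w θ = ⊤ ∧ iSupIndep (GE r S w)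

/-- binomial coefficients near the middle. -/
def SBin : Prop := ∀ K L : ℕ, ∃ n₀, ∀ n w : ℕ, n₀ ≤ n → n ≤ 2 * w + L → 2 * w ≤ n + L →
  K * 2 ^ n ≤ n * n.choose w

/-- numerical bounds. -/
def SNum : Prop := ∀ C : ℕ, ∃ N₀, ∀ N : ℕ, N₀ ≤ N →
  (∀ a b c : ℕ, a + b + c = N → 3 ≤ a → 3 ≤ b → 3 ≤ c → a ≤ N / 2 + 10 → b ≤ N / 2 + 10 →
    c ≤ N / 2 + 10 → C * N * 2 ^ N * (a.factorial * b.factorial * c.factorial) < N.factorial) ∧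
  (∀ j : ℕ, N ≤ 4 * j → j + 2 ≤ N → C * N * 2 ^ N < 2 ^ j * N.choose j)

def SComb : Prop := ∀ C : ℕ, ∃ N₀, ∀ (κ : Type) [Fintype κ] [DecidableEq κ]
  (T : Finset (κ → ℂ × ℂ)) (m : (κ → ℂ × ℂ) → ℕ), N₀ ≤ Fintype.card κ → Inv T m →
  T.card ≤ C * Fintype.card κ * 2 ^ Fintype.card κ → ∀ θ ∈ T, ∀ e, (θ e).1 ^ 2 = 1

def SQuad : Prop := ∀ C : ℕ, ∃ N₀, ForR fun ι H _ _ _ _ r => N₀ ≤ Fintype.card ι →
  finrank ℂ H ≤ C * Fintype.card ι * 2 ^ Fintype.card ι → Quad r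

def SPat : Prop := ∀ (κ : Type) [Fintype κ] [DecidableEq κ] (T : Finset (κ → ℂ × ℂ))
  (m : (κ → ℂ × ℂ) → ℕ), 7 ≤ Fintype.card κ → Odd (Fintype.card κ) → Inv T m →
  (∀ θ ∈ T, ∀ e, (θ e).1 ^ 2 = 1 ∧ (θ e).2 ^ 2 = 1) → (∀ θ ∈ T, ∏ e, (θ e).1 * (θ e).2 = 1) →
  T.card ≤ Fintype.card κ * 2 ^ (Fintype.card κ + 1) →
  (∀ θ ∈ T, (∀ e, (θ e).1 = (θ e).2) ∨ ∃ e₀, ∀ e, (θ e).1 = (θ e).2 ↔ e = e₀) ∧
  ∃ ν, ∀ θ : κ → ℂ × ℂ, (∀ e, (θ e).1 ^ 2 = 1 ∧ (θ e).2 ^ 2 = 1) →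
    (∃ e₀, ∀ e, (θ e).1 = (θ e).2 ↔ e = e₀) → m θ = ν

/-! ### linear groups -/

/-- groups in which all squares are unipotent. -/
def SBurn : Prop := ForH fun H _ _ => ∀ (G : Type) [Group G] (ρ : G →* End ℂ H)
  (Q : Submodule ℂ H), (∀ g, Keeps (ρ g) Q) → (∀ g, UniOn (ρ g ^ 2) Q) →
  (Q ≠ ⊥ → ∃ v ∈ Q, v ≠ 0 ∧ ∀ g, ρ g v = v ∨ ρ g v = -v) ∧
  ∀ X : Set G, Subgroup.closure X = ⊤ → (∀ x ∈ X, UniOn (ρ x) Q) → ∀ g, UniOn (ρ g) Q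

/-- the graded module of a normal unipotent subgroup. -/
def SGR : Prop := ForH fun H _ _ => ∀ (G : Type) [Group G] (ρ : G →* End ℂ H)
  (Q : Submodule ℂ H) (U : Subgroup G), (∀ g, Keeps (ρ g) Q) → U.Normal →
  (∀ u ∈ U, UniOn (ρ u) Q) →
  ∃ (H' : Type) (_ : AddCommGroup H') (_ : Module ℂ H') (_ : FiniteDimensional ℂ H')
    (ρ' : G →* End ℂ H'), (∀ g, LinearMap.trace ℂ H' (ρ' g) = trOn (ρ g) Q) ∧
    (∀ u ∈ U, ρ' u = 1) ∧ ∀ g, UniOn (ρ g) Q → Uni (ρ' g)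

/-- semisimple parts. -/
def SSg : Prop := ForH fun H _ _ => ∀ f : End ℂ H,
  (Uni (f ^ 2) → ∃ s, IsSg s f) ∧ ∀ s, IsSg s f →
    s ∈ Algebra.adjoin ℂ {f} ∧ (∀ s', IsSg s' f → s' = s) ∧
    (∀ x, Commute x f → Commute x s) ∧ (∀ Q, Keeps f Q → Keeps s Q) ∧
    (∀ Q Q' : Submodule ℂ H, Keeps f Q → Keeps f Q' → (∀ v ∈ Q, f v - v ∈ Q') →
      ∀ v ∈ Q, s v - v ∈ Q') ∧
    (∀ v, f v = v → s v = v) ∧ (∀ v, f v = -v → s v = -v) ∧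
    (∀ Q, Keeps f Q → ((∀ v ∈ Q, s v = v) ↔ UniOn f Q)) ∧
    (∀ u u' : End ℂ H, u * u' = 1 → IsSg (u * s * u') (u * f * u')) ∧
    (∀ f', f * f' = 1 → IsSg s f') ∧
    ∀ s' f', IsSg s' f' → Commute f f' → Commute s s' ∧ IsSg (s * s') (f * f')

section
variable {ι H : Type} [Fintype ι] [DecidableEq ι] [AddCommGroup H] [Module ℂ H]

/-- the semisimple parts of the transvections. -/
def SgD (r : Rep ι H) (s : ι → ι → End ℂ H) : Prop :=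
  St s ∧ (∀ a b, a ≠ b → IsSg (s a b) (r (rh a b)) ∧ IsSg (s a b) (r (la a b))) ∧
  (∀ a b c, a ≠ b → Commute (s a b) (r (ep c))) ∧
  ∀ (σ : Perm ι) a b, a ≠ b → r (pm σ) * s a b = s (σ a) (σ b) * r (pm σ)

/-- a sign pattern on `S` that is not constant. -/
def NC (S I : Finset ι) : Prop := I ⊆ S ∧ I.Nonempty ∧ I ≠ S

/-- the semisimple parts are trivial on the sectors that are not constant. -/
def Tr (r : Rep ι H) (s : ι → ι → End ℂ H) : Prop :=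
  ∀ I, NC univ I → ∀ a b, a ≠ b → ∀ v ∈ Sec r univ I, s a b v = v

/-- unipotent on the sectors that are not constant. -/
def UN (r : Rep ι H) : Prop :=
  (∀ S I, NC S I → ∀ a b, a ∉ S → b ∉ S → a ≠ b → UniOn (r (rh a b)) (Sec r S I) ∧
    ∀ e, e ∉ S → e ≠ a → e ≠ b → ∀ w ∈ FS ({a, b} : Set ι), UniOn (r (Rw e w)) (Sec r S I)) ∧
  ∀ a b, a ≠ b → ∀ α ∈ IO ({a, b} : Set ι), Uni (r α)

/-- the inequality given by the fixed subgraph of a product of two elements of order three. -/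
def Star (r : Rep ι H) : Prop :=
  ∀ a b a' b' : ι, [a, b, a', b'].Nodup → ∀ I, NC (univ \ {a, b, a', b'}) I →
    (trOn (r (ta a a' * ta b b' * (cc a b * cc a' b'))) (Sec r (univ \ {a, b, a', b'}) I)).re ≤
      (trOn (r (cc a b * cc a' b')) (Sec r (univ \ {a, b, a', b'}) I)).re

/-- transpositions and sign changes have the same trace. -/
def Conv2 (r : Rep ι H) : Prop :=
  ∀ a b e f : ι, [a, b, e, f].Nodup → ∀ I, NC (univ \ {a, b}) I → (e ∈ I ↔ f ∈ I) →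
    trOn (r (ta a b * ta e f)) (Sec r (univ \ {a, b}) I) =
      trOn (r (ep a * ta e f)) (Sec r (univ \ {a, b}) I)

/-- the majority signs of the partial conjugations. -/
def DD (r : Rep ι H) (D : ι → End ℂ H) : Prop :=
  (∀ b, D b * D b = 1) ∧
  (∀ b e₁ e₂ e₃, [b, e₁, e₂, e₃].Nodup →
    D b ∈ Algebra.adjoin ℂ {r (kk e₁ b), r (kk e₂ b), r (kk e₃ b)}) ∧
  (∀ b e₁ e₂ e₃ s₁ s₂ s₃, [b, e₁, e₂, e₃].Nodup → IsSg s₁ (r (kk e₁ b)) → IsSg s₂ (r (kk e₂ b)) →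
    IsSg s₃ (r (kk e₃ b)) → (2 : ℂ) • D b = s₁ + s₂ + s₃ - s₁ * s₂ * s₃) ∧
  (∀ b e s, e ≠ b → IsSg s (r (kk e b)) → (s - D b) * (1 + D b) = 0 ∧
    ∀ f s', f ≠ b → f ≠ e → IsSg s' (r (kk f b)) → (s - D b) * (s' - D b) = 0) ∧
  (∀ (σ : Perm ι) b, r (pm σ) * D b = D (σ b) * r (pm σ)) ∧ (∀ a b, Commute (D b) (r (ep a))) ∧
  ∃ ν : ℕ, ∀ b,
    finrank ℂ (End.eigenspace (D b) (-1)) = ν * (Fintype.card ι - 1) * 2 ^ (Fintype.card ι - 1) ∧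
    (∀ e, e ≠ b → finrank ℂ (End.eigenspace (D b) (-1) ⊓ (r (kk e b)).maxGenEigenspace 1 :
      Submodule ℂ H) = ν * 2 ^ (Fintype.card ι - 1)) ∧
    (ν = 1 → ∀ e, e ≠ b → ∀ v ∈ End.eigenspace (D b) (-1), r (rh e b) (r (rh e b) v) = v)

/-- the majority signs form a natural module. -/
def D4 (r : Rep ι H) (D : ι → End ℂ H) : Prop :=
  (∀ b c, Commute (D b) (D c)) ∧
  (∀ a b c, a ≠ c → a ≠ b → Commute (D b) (r (rh a c)) ∧ Commute (D b) (r (la a c))) ∧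
  ∀ b c, b ≠ c → r (rh b c) * D b = D b * D c * r (rh b c) ∧
    r (la b c) * D b = D b * D c * r (la b c)

/-- the structure of the eigenspaces when the majority signs are not trivial. -/
def GS (r : Rep ι H) (D : ι → End ℂ H) : Prop :=
  finrank ℂ (JE D univ ∅) < Fintype.card ι ∧
  ∀ c, finrank ℂ (JE D univ {c}) = Fintype.card ι - 1 ∧ ∃ s : ℂ, (s = 1 ∨ s = -1) ∧
    (∀ v ∈ JE D univ {c}, r (ep c) v = -s • v) ∧
    (∀ e, e ≠ c → finrank ℂ (JE D univ {c} ⊓ End.eigenspace (r (ep e)) (-s) : Submodule ℂ H) = 1) ∧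
    (∀ e f, e ≠ c → f ≠ c → e ≠ f →
      JE D univ {c} ⊓ End.eigenspace (r (ep e)) (-s) ⊓ End.eigenspace (r (ep f)) (-s) = ⊥) ∧
    ∀ d, d ≠ c → ∀ v ∈ JE D univ {c, d}, r (ep c * ep d) v = v

/-- the product of the semisimple parts with second index `a`. -/
noncomputable def sig (s : ι → ι → End ℂ H) (a : ι) : End ℂ H :=
  ((univ.erase a).toList.map fun b => s b a).prod

/-- only the weights `0, 1, n - 1, n` occur. -/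
def FH (r : Rep ι H) (s : ι → ι → End ℂ H) : Prop :=
  12 ≤ Fintype.card ι ∧ Even (Fintype.card ι) ∧ NoInn r ∧ SgD r s ∧ Tr r s ∧
  ∀ I : Finset ι, 2 ≤ I.card → I.card + 2 ≤ Fintype.card ι → Sec r univ I = ⊥

/-- algebraic consequences. -/
def F0 (r : Rep ι H) (s : ι → ι → End ℂ H) : Prop :=
  iSupIndep (fun o : Option ι => o.elim (Z0 r) (Za r)) ∧ Z0 r ⊔ ⨆ a, Za r a = ⊤ ∧
  End.eigenspace (r (epJ univ)) 1 = Z0 r ∧ End.eigenspace (r (epJ univ)) (-1) = ⨆ a, Za r a ∧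
  (∀ c d, c ≠ d → End.eigenspace (r (ep c * ep d)) (-1) = Za r c ⊔ Za r d ∧
    End.eigenspace (r (ep c * ep d)) 1 = Z0 r ⊔ ⨆ a, ⨆ (_ : a ≠ c ∧ a ≠ d), Za r a) ∧
  (∀ a b c, a ≠ b → ∀ v ∈ Za r c, s a b v = v) ∧ (∀ a b, a ≠ b → Keeps (s a b) (Z0 r)) ∧
  (∀ a, ∀ v ∈ Z0 r, r (cage (swap none (some a))) v = r (ep a) (sig s a v)) ∧
  (∀ (σ : Perm ι) c, ∀ v ∈ Za r c, r (pm σ) v ∈ Za r (σ c)) ∧
  ∀ (σ : Perm ι) c, Perm.sign σ = 1 → σ c = c → ∀ v ∈ Za r c, r (pm σ) v = v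

end

def SSt : Prop := ForR fun _ _ _ _ _ _ r => Quad r → (∀ e b, e ≠ b → Uni (r (kk e b))) →
  ∃ s, SgD r s

def SMat : Prop := ForH fun H _ _ => ∀ (ι : Type) [Fintype ι] [DecidableEq ι]
  (s : ι → ι → End ℂ H) (Q : Submodule ℂ H) (h : ℕ), Fintype.card ι = 2 * h → 2 ≤ h → St s →
  (∀ a b, a ≠ b → Keeps (s a b) Q) → finrank ℂ Q < (2 ^ h - 1) * (2 ^ h - 2) →
  ∀ a b, a ≠ b → ∀ v ∈ Q, s a b v = v

def SUN : Prop := ∃ n₀, ForR fun ι H _ _ _ _ r => ∀ s, n₀ ≤ Fintype.card ι →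
  Even (Fintype.card ι) → finrank ℂ H ≤ (Fintype.card ι - 1) * 2 ^ Fintype.card ι → Quad r →
  NoInn r → (∀ e b, e ≠ b → Uni (r (kk e b))) → SgD r s → Tr r s ∧ UN r

/-! ### traces in rank two and three -/

def SConv : Prop := ForR fun ι H _ _ _ _ r => ∀ (a b : ι) (Q : Submodule ℂ H), a ≠ b →
  (∀ α ∈ On ({a, b} : Set ι), Keeps (r α) Q) → UniOn (r (rh b a)) Q →
  (∀ x : End ℂ H, Keeps x Q → (∀ α ∈ On ({a, b} : Set ι), Commute x (r α)) →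
    trOn (r (ta a b) * x) Q = trOn (r (ep a) * x) Q) ∧
  finrank ℂ (Q ⊓ Sec r {a, b} ∅ ⊓ End.eigenspace (r (ep a * ta a b)) (-1) : Submodule ℂ H) =
    finrank ℂ (Q ⊓ Sec r {a, b} {a, b} ⊓ End.eigenspace (r (ep a * ta a b)) (-1) : Submodule ℂ H)

def SR5 : Prop := ForR fun ι H _ _ _ _ r => ∀ (a b : ι) (Q : Submodule ℂ H), a ≠ b →
  (∀ α ∈ On ({a, b} : Set ι), Keeps (r α) Q) → UniOn (r (rh a b)) Q →
  (∀ α ∈ IO ({a, b} : Set ι), Uni (r α)) →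
  finrank ℂ (Q ⊓ Sec r {a, b} ∅ : Submodule ℂ H) +
      finrank ℂ (Q ⊓ Sec r {a, b} {a, b} : Submodule ℂ H) ≤
    3 * (finrank ℂ (Q ⊓ Sec r {a, b} ∅ ⊓ End.eigenspace (r (ep a * ta a b)) 1 : Submodule ℂ H) +
      finrank ℂ (Q ⊓ Sec r {a, b} {a, b} ⊓ End.eigenspace (r (ep a * ta a b)) 1 : Submodule ℂ H))

def SR1 : Prop := ForR fun ι H _ _ _ _ r => ∀ (a b e : ι) (Q : Submodule ℂ H), [a, b, e].Nodup →
  (∀ α ∈ On ({a, b, e} : Set ι), Keeps (r α) Q) →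
  (∀ w ∈ FS ({a, b} : Set ι), UniOn (r (Rw e w)) Q) →
  trOn (r (cc a b)) Q = trOn (r (ta a b * ta b e)) Q

def SLin : Prop := ForH fun H _ _ => ∀ c c' e e' h τ q q' : End ℂ H, c ^ 3 = 1 → e * e = 1 →
  h * h = 1 → τ * τ = 1 → h * c * h = c' → h * e * h = e' → Commute c c' → Commute c e →
  Commute c e' → Commute e e' → τ * c * τ = c * c → Commute τ c' → Commute τ (h * τ * h) →
  (2 : ℂ) • q = 1 + e → (2 : ℂ) • q' = 1 + e' →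
  (LinearMap.trace ℂ H (c * c') - LinearMap.trace ℂ H (h * (c * c'))).re ≤
    (LinearMap.trace ℂ H (q * q') - LinearMap.trace ℂ H (h * (q * q')) -
      LinearMap.trace ℂ H (q * (1 - q')) + LinearMap.trace ℂ H ((1 - q) * (1 - q')) / 4 +
      LinearMap.trace ℂ H (h * ((1 - q) * (1 - q'))) / 2).re +
    16 * (finrank ℂ (End.eigenspace c 1 ⊓ End.eigenspace e (-1) : Submodule ℂ H) +
      finrank ℂ (LinearMap.ker (c * c + c + 1) ⊓ End.eigenspace e 1 : Submodule ℂ H) : ℕ)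

def SLoc : Prop := ForR fun ι _ _ _ _ _ r => ∀ (a b a' b' : ι) (I : Finset ι) (σ : ℕ), UN r →
  [a, b, a', b'].Nodup → NC (univ \ {a, b, a', b'}) I →
  (∀ J : Finset ι, J \ {a, b, a', b'} = I → ∀ i ∈ ({a, b, a', b'} : Finset ι),
    ∀ j ∈ ({a, b, a', b'} : Finset ι), i ≠ j → (i ∈ J ↔ j ∈ J) → df r J i j ≤ σ) →
  (trOn (r (ta a a' * ta b b' * (cc a b * cc a' b'))) (Sec r (univ \ {a, b, a', b'}) I)).re ≤
      (trOn (r (cc a b * cc a' b')) (Sec r (univ \ {a, b, a', b'}) I)).re →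
  mu r (I ∪ {a}) + mu r (I ∪ {a, b, a'}) ≤ mu r (I ∪ {a, b}) + 1000 * σ

def SDef : Prop := ForR fun ι _ _ _ _ _ r => ∀ (a b : ι) (I : Finset ι), UN r → a ≠ b →
  NC (univ \ {a, b}) I → df r I a b = df r (I ∪ {a, b}) a b ∧
  ∀ k : ℕ, 4 ≤ k → 2 * k ≤ I.card → I.card + 2 * k + 2 ≤ Fintype.card ι →
    mu r I < (k + 1).choose 2 → mu r (I ∪ {a, b}) < (k + 1).choose 2 →
    (k + 1) * df r I a b ≤ 4 * (mu r I + mu r (I ∪ {a, b}))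

def SInd : Prop := ∃ n₀, ForR fun ι H _ _ _ _ r => n₀ ≤ Fintype.card ι →
  finrank ℂ H ≤ Fintype.card ι * 2 ^ Fintype.card ι → UN r → Star r →
  ∀ I : Finset ι, 2 ≤ I.card → I.card + 2 ≤ Fintype.card ι → Sec r univ I = ⊥

/-! ### transvections of finite order -/

def SBfin : Prop := ∀ (ι W : Type) [Fintype ι] [DecidableEq ι] [Group W] (N : NS ι W),
  5 ≤ Fintype.card ι → (∀ a b, a ≠ b → N.ρ a b * N.ρ a b = 1) → ∃ z : W, z * z = 1 ∧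
  (∀ a, Commute z (N.ε a)) ∧ (∀ σ, Commute z (N.π σ)) ∧ (∀ a b, a ≠ b → Commute z (N.ρ a b)) ∧
  (∀ a b c, a ≠ b → c ≠ b → Commute (N.ρ a b) (N.ρ c b)) ∧
  (∀ a b c, a ≠ b → a ≠ c → Commute (N.ρ a b) (N.ρ a c)) ∧
  (∀ a b c, a ≠ b → c ≠ a → Commute (N.ε c) (N.ρ a b)) ∧
  (∀ a b, a ≠ b → N.ρ a b * N.ε a = N.ε a * (z * N.ε b) * N.ρ a b) ∧
  ∀ a b, a ≠ b → N.π (swap a b) = z * (N.ρ a b * N.ρ b a * N.ρ a b)

def SOm : Prop := ∀ C : ℕ, ∃ N₀, ForR fun ι H _ _ _ _ r => N₀ ≤ Fintype.card ι →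
  finrank ℂ H ≤ C * Fintype.card ι * 2 ^ Fintype.card ι →
  (∀ a b, a ≠ b → r (rh a b) * r (rh a b) = 1) → Conv2 r → ∀ a b, r (ep a * ep b) = 1

def SStar : Prop := ∃ n₀, ForG fun ι _ H _ _ _ _ _ π _ ψ => n₀ ≤ Fintype.card ι →
  finrank ℂ H ≤ Fintype.card ι * 2 ^ Fintype.card ι → UN (π.comp ψ) → Star (π.comp ψ)

/-! ### the majority signs -/

def SD1 : Prop := ForR fun ι H _ _ _ _ r => 8 ≤ Fintype.card ι → Even (Fintype.card ι) →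
  finrank ℂ H ≤ (Fintype.card ι - 1) * 2 ^ Fintype.card ι → NoInn r → Quad r → ∃ D, DD r D

def SD2 : Prop := ForR fun ι _ _ _ _ _ r => ∀ D, 12 ≤ Fintype.card ι → Quad r → DD r D → D4 r D

def SG1 : Prop := ForR fun ι H _ _ _ _ r => ∀ D, 12 ≤ Fintype.card ι →
  finrank ℂ H ≤ (Fintype.card ι - 1) * 2 ^ Fintype.card ι → Quad r → DD r D → D4 r D →
  (∃ b, D b ≠ 1) → GS r D

def SSmallR : Prop := ForR fun ι H _ _ _ _ r => ∀ Q : Submodule ℂ H, 5 ≤ Fintype.card ι →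
  finrank ℂ Q < Fintype.card ι → (∀ a, Keeps (r (ep a)) Q) → (∀ σ, Keeps (r (pm σ)) Q) →
  (∀ a b, a ≠ b → Keeps (r (rh a b)) Q) →
  ∀ a b, a ≠ b → ∀ v ∈ Q, r (ep a * ep b) v = v ∧ r (cc a b) v = v

def SG3 : Prop := ForG fun ι _ _ _ _ _ _ _ π _ ψ => ∀ D, 12 ≤ Fintype.card ι →
  Even (Fintype.card ι) → Quad (π.comp ψ) → DD (π.comp ψ) D → D4 (π.comp ψ) D →
  ¬ GS (π.comp ψ) D

/-! ### the weights `0, 1, n - 1, n` -/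

def SF0 : Prop := ForR fun _ _ _ _ _ _ r => ∀ s, FH r s → F0 r s

/-- the fixed subgraph of a product of two sign changes. -/
def F1 {ι O H : Type} [Fintype ι] [DecidableEq ι] [Group O] [AddCommGroup H] [Module ℂ H]
    (π : O →* End ℂ H) (G : Geo π) (ψ : A ι →* O) : Prop :=
  ∀ c d : ι, c ≠ d →
    (∀ a b, [a, b, c, d].Nodup →
      (∀ ω, G.ov ω = ψ (ep c * ep d) →
        G.act (ψ (rh a b)) ω = ω ∧ G.act (ψ (ep a * ep b)) ω = ω) ∧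
      ∀ v ∈ End.eigenspace (π (ψ (ep c * ep d))) 1, π (ψ (rh a b)) v - v ∈ G.Φt (ψ (ep c * ep d)) ∧
        π (ψ (ep a * ep b)) v - v ∈ G.Φt (ψ (ep c * ep d))) ∧
    (∀ σ : Perm ι, Perm.sign σ = 1 → σ c = c → σ d = d → ∀ ω, G.ov ω = ψ (ep c * ep d) →
      G.act (ψ (pm σ)) ω = ω) ∧
    Nat.card {ω // G.ov ω = ψ (ep c * ep d)} +
        finrank ℂ (End.eigenspace (π (ψ (ep c * ep d))) 1) =
      1 + finrank ℂ (End.eigenspace (π (ψ (ep c * ep d))) (-1)) +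
        finrank ℂ (G.Φt (ψ (ep c * ep d)))

def SF1 : Prop := ForG fun _ _ _ _ _ _ _ _ π G ψ => ∀ s, FH (π.comp ψ) s → F0 (π.comp ψ) s →
  F1 π G ψ

def SLam : Prop := ForH fun H _ _ => ∀ (ι E : Type) [Fintype ι] [DecidableEq ι] [Finite E]
  (s : ι → ι → End ℂ H) (Y : Submodule ℂ H) (δ : E → H →ₗ[ℂ] ℂ), 5 ≤ Fintype.card ι → St s →
  (∀ a b, a ≠ b → Keeps (s a b) Y) →
  (∀ e, ∃ a₀, ∀ a b, a ≠ b → a ≠ a₀ → b ≠ a₀ → ∀ v ∈ Y, δ e (s a b v) = δ e v) →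
  (∀ a, ∀ v ∈ Y, (∀ e, δ e v = 0) → ∀ e, δ e (sig s a v) = 0) →
  ∀ e a b, a ≠ b → ∀ v ∈ Y, δ e (s a b v) = δ e v

def SF2 : Prop := ForG fun _ _ _ _ _ _ _ _ π G ψ => ∀ s, (∀ x, ψ (MulAut.conj x) = 1) →
  FH (π.comp ψ) s → F0 (π.comp ψ) s → F1 π G ψ →
  ∀ a b, a ≠ b → ∀ v ∈ Z0 (π.comp ψ), s a b v - v ∈ G.Φt (ψ (epJ univ))

def SAct : Prop := ∀ (ι Ω : Type) [Fintype ι] [DecidableEq ι] [Finite Ω]
  (P : Perm (Option ι) →* Perm Ω) (α : ℤ) (ρ : ℕ), 8 ≤ Fintype.card ι →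
  (∀ σ : Perm ι, σ ^ 3 = 1 → (Nat.card {ω // P (Equiv.optionCongr σ) ω = ω} : ℤ) =
    α + ρ * Nat.card {a // σ a = a}) →
  (ρ : ℤ) ≤ α ∧ (α = 1 → ρ = 1 → ∃ lab : Ω ≃ Option ι, ∀ σ ω, lab (P σ ω) = σ (lab ω))

/-- the fixed subgraph of the total sign change has one component for each edge of the cage. -/
def F3 {ι O H : Type} [Fintype ι] [DecidableEq ι] [Group O] [AddCommGroup H] [Module ℂ H]
    (π : O →* End ℂ H) (G : Geo π) (ψ : A ι →* O) : Prop :=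
  (∀ a, finrank ℂ (Za (π.comp ψ) a) = 1) ∧ G.Φt (ψ (epJ univ)) = Z0 (π.comp ψ) ∧
  ∃ ω : Option ι → G.Ω, Function.Injective ω ∧ (∀ x, G.ov x = ψ (epJ univ) ↔ x ∈ Set.range ω) ∧
    ∀ σ i, G.act (ψ (cage σ)) (ω i) = ω (σ i)

def SF3 : Prop := ForG fun _ _ _ _ _ _ _ _ π G ψ => ∀ s, (∀ x, ψ (MulAut.conj x) = 1) →
  FH (π.comp ψ) s → F0 (π.comp ψ) s →
  (∀ a b, a ≠ b → ∀ v ∈ Z0 (π.comp ψ), s a b v - v ∈ G.Φt (ψ (epJ univ))) →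
  (∀ a, Za (π.comp ψ) a = ⊥) ∨ F3 π G ψ

def SF4b : Prop := ForH fun H _ _ => ∀ (ι : Type) [Fintype ι] [DecidableEq ι]
  (s : ι → ι → End ℂ H) (z : End ℂ H) (Φ : Option ι → Submodule ℂ H), 5 ≤ Fintype.card ι → St s →
  z * z = 1 → (∀ a b, a ≠ b → Commute (s a b) z) → iSupIndep Φ →
  (∀ a b c, [a, b, c].Nodup → Keeps (s a b) (Φ (some c))) →
  (∀ a b, a ≠ b → ∀ v ∈ Φ (some b), s a b v ∈ Φ none ⊔ Φ (some a) ⊔ Φ (some b)) →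
  (∀ a i, ∀ v ∈ Φ i, z (sig s a v) ∈ Φ (swap none (some a) i)) →
  Keeps z (⨆ a, Φ (some a)) → Φ none = ⊥

def SF4 : Prop := ForG fun _ _ _ _ _ _ _ _ π G ψ => ∀ s, (∀ x, ψ (MulAut.conj x) = 1) →
  FH (π.comp ψ) s → F0 (π.comp ψ) s → F1 π G ψ → F3 π G ψ → Z0 (π.comp ψ) = ⊥

/-! ### the embedding -/

/-- the kernel of the homology modulo two. -/
def N2 (ι : Type) [DecidableEq ι] : Subgroup (FreeGroup ι) :=
  (lift fun i => Multiplicative.ofAdd (Pi.single i 1 : ι → ZMod 2)).ker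

def SEmbA : Prop := ∀ (ι : Type) [Fintype ι] [DecidableEq ι], Even (Fintype.card ι) →
  ∃ E : Subgroup (A ι), (∀ α, ∃ x, MulAut.conj x * α ∈ E) ∧ ∀ x, MulAut.conj x ∈ E ↔ x ∈ N2 ι

def SEmbB : Prop := ∀ n : ℕ, 1 ≤ n → Nonempty (N2 (Fin n) ≃* FG ((n - 1) * 2 ^ n + 1))

def SEmb : Prop := ∀ n : ℕ, 2 ≤ n → Even n →
  ∃ φ : Out (FG n) →* Out (FG ((n - 1) * 2 ^ n + 1)), Function.Injective φ

end Pool.Agent.MP_3ce0a0_al.H79.X
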