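import Pool.Agent.MP_3ce0a0_al.H79.XS

/-
Rank three: no embedding in ranks four, five, six. Definitions and statements of the steps.
-/

namespace Pool.Agent.MP_3ce0a0_al.H79.Y

open Equiv Module Pool.Agent.MP_3ce0a0_al.H79.X

/-- the general linear group. -/
abbrev GH (H : Type) [AddCommGroup H] [Module ℂ H] : Type := H ≃ₗ[ℂ] H

/-- three different indices. -/
def D3 (a b c : Fin 3) : Prop := a ≠ b ∧ c ≠ a ∧ c ≠ b

section words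
variable {W : Type} [Group W]

/-- invert all letters. -/
def DD (P : WS (Fin 3) W) : W := P.ε 0 * P.ε 1 * P.ε 2

/-- the rotation exchanging `a` and `b`. -/
def tp (P : WS (Fin 3) W) (a b : Fin 3) : W := P.π (swap a b) * DD P

/-- the double transposition of the cage. -/
def vv (N : NS (Fin 3) W) (a b c : Fin 3) : W := N.π (swap a b) * N.ε c * N.ρ a c * N.ρ b c

/-- conjugation of `a` by `b`. -/
def KK (N : NS (Fin 3) W) (a b : Fin 3) : W := N.ρ a b * (N.lam a b)⁻¹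

/-- inner automorphisms are trivial. -/
def In3 (N : NS (Fin 3) W) : Prop := ∀ a b c, D3 a b c → KK N a b * KK N c b = 1

/-- left and right multiplications agree. -/
def Cen (N : NS (Fin 3) W) : Prop := ∀ a b, a ≠ b → N.lam a b = N.ρ a b

/-- the inverse transpose. -/
def Fl (N N' : NS (Fin 3) W) : Prop :=
  N'.toWS = N.toWS ∧ Cen N' ∧ ∀ a b, a ≠ b → N'.ρ a b = (N.ρ b a)⁻¹

end words

section lin
variable {H : Type} [AddCommGroup H] [Module ℂ H]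

/-- a representation with values in the general linear group. -/
noncomputable def toG {O : Type} [Group O] (π : O →* End ℂ H) : O →* GH H :=
  (LinearMap.GeneralLinearGroup.generalLinearEquiv ℂ H).toMonoidHom.comp π.toHomUnits

lemma toG_apply {O : Type} [Group O] (π : O →* End ℂ H) (g : O) (v : H) : toG π g v = π g v := rfl

lemma toG_coe {O : Type} [Group O] (π : O →* End ℂ H) (g : O) :
    (toG π g).toLinearMap = π g := rfl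

/-- the trace. -/
noncomputable def tr (g : GH H) : ℂ := LinearMap.trace ℂ H g.toLinearMap

/-- the sign of a permutation as a complex number. -/
noncomputable def sg (σ : ℂ) (p : Perm (Fin 3)) : ℂ := if Perm.sign p = 1 then 1 else σ

/-- sectors. -/
def Se (P : WS (Fin 3) (GH H)) (I : Finset (Fin 3)) : Submodule ℂ H :=
  JE (fun a => (P.ε a).toLinearMap) Finset.univ I

lemma mem_Se {P : WS (Fin 3) (GH H)} {I : Finset (Fin 3)} {v : H} :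
    v ∈ Se P I ↔ ∀ a, P.ε a v = if a ∈ I then -v else v := by
  simp [Se, mem_JE]

/-- the twist by the determinant. -/
def Tw (P P' : WS (Fin 3) (GH H)) : Prop :=
  (∀ a v, P'.ε a v = -P.ε a v) ∧ ∀ p v, P'.π p v = sg (-1) p • P.π p v

/-- eight times a projection. -/
noncomputable def TT (N : NS (Fin 3) (GH H)) : End ℂ H :=
  (1 - (tp N.toWS 0 1).toLinearMap) * (1 + (vv N 1 2 0).toLinearMap) *
    (1 + (vv N 0 2 1).toLinearMap)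

/-- shape A: three lines. -/
def DA (P : WS (Fin 3) (GH H)) (e : Fin 3 → H) (σ : ℂ) : Prop :=
  (σ = 1 ∨ σ = -1) ∧ (∀ i, e i ≠ 0 ∧ e i ∈ Se P {i}) ∧
  (∀ p i, P.π p (e i) = sg σ p • e (p i)) ∧
  (∀ v, ∃ c : Fin 3 → ℂ, ∃ h ∈ Se P ∅, ∃ g ∈ Se P Finset.univ, v = ∑ i, c i • e i + h + g) ∧
  (σ = 1 → ∀ a b, a ≠ b → ∀ h ∈ Se P ∅ ⊔ Se P Finset.univ, tp P a b h = h)

/-- shape B, on a subspace. -/
def DB (P : WS (Fin 3) (GH H)) (U : Submodule ℂ H) : Prop :=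
  U ≤ ⨆ i, Se P {i} ∧ ∀ a b c, D3 a b c → ∀ v ∈ U ⊓ Se P {c}, P.π (swap a b) v = -v

/-- shape C: six lines. -/
def DC (P : WS (Fin 3) (GH H)) (e f : Fin 3 → H) : Prop :=
  (∀ i, e i ≠ 0 ∧ e i ∈ Se P {i}) ∧ (∀ i, f i ≠ 0 ∧ f i ∈ Se P {i}ᶜ) ∧
  (∀ p i, P.π p (e i) = sg (-1) p • e (p i)) ∧ (∀ p i, P.π p (f i) = f (p i)) ∧
  ∀ v, ∃ c d : Fin 3 → ℂ, v = ∑ i, c i • e i + ∑ i, d i • f i

/-- one eigenspace of the central involution is invariant. -/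
def Tri (N : NS (Fin 3) (GH H)) : Prop :=
  (∀ a b, a ≠ b → ∀ v, DD N.toWS v = -v → DD N.toWS (N.ρ a b v) = -N.ρ a b v) ∨
  ∀ a b, a ≠ b → ∀ v, DD N.toWS v = v → DD N.toWS (N.ρ a b v) = N.ρ a b v

/-- the degenerate case of shape A. -/
def Z0 (N : NS (Fin 3) (GH H)) (e : Fin 3 → H) : Prop :=
  ∀ a b, a ≠ b → N.ρ a b (e a) ∈ ℂ ∙ e a ∧
    ∀ h ∈ Se N.toWS ∅ ⊔ ℂ ∙ e b, N.ρ a b h ∈ Se N.toWS ∅ ⊔ ℂ ∙ e b

/-- the natural module plus a trivial one. -/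
def Nt (N : NS (Fin 3) (GH H)) : Prop :=
  ∃ e : Fin 3 → H, (∀ i, e i ∈ Se N.toWS {i}) ∧ (∀ p i, N.π p (e i) = e (p i)) ∧
    (∀ v, ∃ (c : Fin 3 → ℂ) (h : H), v = ∑ i, c i • e i + h ∧ (∀ a b, N.ε a (N.ε b h) = h) ∧
      ∀ a b, a ≠ b → tp N.toWS a b h = h ∧ N.ρ a b h = h) ∧
    ∀ a b c, D3 a b c → N.ρ a b (e a) = e a + e b ∧ N.ρ a b (e b) = e b ∧ N.ρ a b (e c) = e c

/-- the symmetric square. -/
def S2 (N : NS (Fin 3) (GH H)) : Prop :=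
  ∃ e g : Fin 3 → H, LinearIndependent ℂ (Sum.elim e g) ∧
    ⊤ ≤ Submodule.span ℂ (Set.range (Sum.elim e g)) ∧
    (∀ i, e i ∈ Se N.toWS {i}) ∧ (∀ i, g i ∈ Se N.toWS Finset.univ) ∧
    (∀ p i, N.π p (e i) = sg (-1) p • e (p i)) ∧ (∀ p i, N.π p (g i) = sg (-1) p • g (p i)) ∧
    ∀ a b c, D3 a b c → N.ρ a b (e a) = e a - e b ∧ N.ρ a b (e b) = e b ∧
      N.ρ a b (e c) = e c + g a ∧ N.ρ a b (g a) = g a ∧
      N.ρ a b (g b) = g b + g a + (2 : ℂ) • e c ∧ N.ρ a b (g c) = g c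

/-- vectors supported on fixed edges. -/
def Fx {K E : Type} [Group K] [MulAction K E] (j : H →ₗ[ℂ] (E → ℂ)) (g : K) : Submodule ℂ H where
  carrier := {v | ∀ e, g • e ≠ e → j v e = 0}
  add_mem' := fun {u v} hu hv e he => by simp [hu e he, hv e he]
  zero_mem' := fun e _ => by simp
  smul_mem' := fun c v hv e he => by simp [hv e he]

lemma mem_Fx {K E : Type} [Group K] [MulAction K E] {j : H →ₗ[ℂ] (E → ℂ)} {g : K} {v : H} :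
    v ∈ Fx j g ↔ ∀ e, g • e ≠ e → j v e = 0 := Iff.rfl

/-- `g` stabilises `Q`. -/
def Stb (g : GH H) (Q : Submodule ℂ H) : Prop := ∀ v, v ∈ Q ↔ g v ∈ Q

/-- the edges of a graph realising the rotation group. -/
def Gr (N : NS (Fin 3) (GH H)) : Prop :=
  ∃ (K E : Type) (_ : Group K) (_ : MulAction K E) (p : K →* GH H) (j : H →ₗ[ℂ] (E → ℂ))
    (i t : Fin 3 → Fin 3 → K), Function.Injective p ∧ Function.Injective j ∧
    (∀ g v e, j (p g v) (g • e) = j v e) ∧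
    ∀ a b c, D3 a b c → p (i a b) = N.ε a * N.ε b ∧ p (t a b) = tp N.toWS a b ∧
      (tr (p (i a b)) = 2 → 2 ≤ finrank ℂ (Fx j (i a b))) ∧
      (tr (p (t a b)) = 2 → 2 ≤ finrank ℂ (Fx j (t a b))) ∧
      Stb (N.ρ a b * N.lam a b) (Fx j (i a b)) ∧ Stb (N.ρ b a * N.lam b a) (Fx j (i a b)) ∧
      Stb (N.lam c a * N.ρ c b) (Fx j (t a b)) ∧ Stb (N.ρ a c * N.lam b c) (Fx j (t a b))

/-- cycles of fixed subgraphs. -/
structure Ed {O : Type} [Group O] (π : O →* End ℂ H) (Φ : O → Submodule ℂ H) : Prop where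
  conj : ∀ y g, ∀ v ∈ Φ g, π y v ∈ Φ (y * g * y⁻¹)
  cnt : ∀ (g : O) (k : ℕ), IsOfFinOrder g → 2 ≤ k → LinearMap.trace ℂ H (π g) = k →
    k ≤ finrank ℂ (Φ g)
  edge : ∀ K : Subgroup O, Finite K → ∃ (E : Type) (_ : MulAction K E) (j : H →ₗ[ℂ] (E → ℂ)),
    Function.Injective j ∧ (∀ (g : K) v e, j (π g v) (g • e) = j v e) ∧ ∀ g : K, Φ g = Fx j g
  faith : ∀ g, IsOfFinOrder g → π g = 1 → g = 1

end lin

/-- a statement about all systems. -/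
def ForN (P : ∀ (H : Type) [AddCommGroup H] [Module ℂ H] (_ : NS (Fin 3) (GH H)), Prop) : Prop :=
  ForH fun H _ _ => ∀ N : NS (Fin 3) (GH H), P H N

/-! ### geometry -/

def SEd : Prop := ∀ m : ℕ, 2 ≤ m → ∃ (π : Out (FG m) →* End ℂ (HV m)) (Φ : _), Ed π Φ

def SK1 : Prop := ForH fun H _ _ => ∀ (O : Type) [Group O] (π : O →* End ℂ H)
  (Φ : O → Submodule ℂ H), Ed π Φ → 4 ≤ finrank ℂ H → finrank ℂ H ≤ 6 → ∀ v w t y : O,
  v * v = 1 → w * w = 1 → t * t = 1 → v * w = w * v → t * v = w * t → y * v = v * w * y →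
  y * w = v * y → IsConj t (v * w) → v * w ≠ 1 →
  LinearMap.trace ℂ H (π t) = finrank ℂ H - 4 ∧
    LinearMap.trace ℂ H ((1 - π t) * (1 + π v) * (1 + π w)) ≠ 0

/-- identities in the outer automorphism group. -/
def SWd : Prop := ∀ (O : Type) [Group O] (ψ : A (Fin 3) →* O), ψ.ker = Inn (FreeGroup (Fin 3)) →
  ∀ N, N = (H62.Inst.N0 (Fin 3)).map ψ → In3 N ∧ N.ε 0 * N.ε 1 ≠ 1 ∧
  (∃ K : Subgroup O, Finite K ∧ (∀ a, N.ε a ∈ K) ∧ ∀ p, N.π p ∈ K) ∧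
  (∀ a b c, D3 a b c →
    Commute (N.ρ a b * N.lam a b) (N.ε a * N.ε b) ∧ Commute (N.ρ b a * N.lam b a) (N.ε a * N.ε b) ∧
    Commute (N.lam c a * N.ρ c b) (tp N.toWS a b) ∧ Commute (N.ρ a c * N.lam b c) (tp N.toWS a b)) ∧
  ∀ v w t, v = vv N 1 2 0 → w = vv N 0 2 1 → t = tp N.toWS 0 1 →
    v * v = 1 ∧ w * w = 1 ∧ t * t = 1 ∧ v * w = w * v ∧ t * v = w * t ∧
    (∃ y, y * v = v * w * y ∧ y * w = v * y) ∧ IsConj t (v * w) ∧ v * w ≠ 1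

/-- the linear system attached to an embedding. -/
def SSys : Prop := ∀ m : ℕ, 4 ≤ m → m ≤ 6 →
  ∀ φ : Out (FreeGroup (Fin 3)) →* Out (FreeGroup (Fin m)), Function.Injective φ →
  ∃ N : NS (Fin 3) (GH (HV m)), In3 N ∧ N.ε 0 * N.ε 1 ≠ 1 ∧
    tr (tp N.toWS 0 1) = finrank ℂ (HV m) - 4 ∧ LinearMap.trace ℂ _ (TT N) ≠ 0 ∧ Gr N

def SKill : Prop := ForN fun _ _ _ N => Cen N → S2 N → Gr N → False

/-! ### operations on systems -/

def STw : Prop := ForN fun H _ _ N => ∃ N' : NS (Fin 3) (GH H), Tw N.toWS N'.toWS ∧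
  N'.ρ = N.ρ ∧ N'.lam = N.lam ∧ (In3 N → In3 N') ∧ TT N' = TT N ∧ (Gr N → Gr N')

def SFl : Prop := ForN fun H _ _ N => Cen N → ∃ N' : NS (Fin 3) (GH H), Fl N N' ∧ Fl N' N ∧
  (Gr N → Gr N')

def SDg : Prop := ForN fun H _ _ N => Tri N → ∃ N' : NS (Fin 3) (GH H), N'.toWS = N.toWS ∧
  Cen N' ∧ LinearMap.trace ℂ H (TT N') = LinearMap.trace ℂ H (TT N)

/-! ### shapes -/

/-- the two possible counts. -/
def Cnt {H : Type} [AddCommGroup H] [Module ℂ H] (P : WS (Fin 3) (GH H)) : Prop :=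
  (finrank ℂ (Se P {0}) + finrank ℂ (Se P {0}ᶜ) = 1 ∧ ∀ a b c, D3 a b c →
    (∀ v ∈ Se P {c} ⊔ Se P {c}ᶜ, tp P a b v = v) ∨
      ∀ h ∈ Se P ∅ ⊔ Se P Finset.univ, tp P a b h = h) ∨
  (finrank ℂ (Se P {0}) + finrank ℂ (Se P {0}ᶜ) = 2 ∧ Se P ∅ = ⊥ ∧ Se P Finset.univ = ⊥ ∧
    ∀ a b c, D3 a b c → ∀ v ∈ Se P {c} ⊔ Se P {c}ᶜ, tp P a b v = v)

def SCnt : Prop := ForH fun H _ _ => ∀ P : WS (Fin 3) (GH H), finrank ℂ H ≤ 6 →
  P.ε 0 * P.ε 1 ≠ 1 → tr (tp P 0 1) = finrank ℂ H - 4 → Cnt P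

def SNrm : Prop := ForH fun H _ _ => ∀ P P' : WS (Fin 3) (GH H), Tw P P' → Cnt P →
  (∃ e σ, DA P e σ) ∨ (∃ e σ, DA P' e σ) ∨ (∃ e f, DC P e f) ∨
  ((⊤ : Submodule ℂ H) ≠ ⊥ ∧ (DB P ⊤ ∨ DB P' ⊤))

/-! ### the cases -/

def SB : Prop := ForN fun H _ _ N => ∀ U : Submodule ℂ H, DB N.toWS U →
  (∀ a, ∀ v ∈ U, N.ε a v ∈ U) → (∀ p, ∀ v ∈ U, N.π p v ∈ U) →
  (∀ a b, a ≠ b → ∀ v ∈ U, N.ρ a b v ∈ U) → U = ⊥

def SC : Prop := ForN fun _ _ _ N => ∀ e f, In3 N → DC N.toWS e f →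
  (∀ a b, a ≠ b → ∀ i, N.ρ a b (e i) ∈ Submodule.span ℂ (Set.range e)) ∨
  ∀ a b, a ≠ b → ∀ i, N.ρ a b (f i) ∈ Submodule.span ℂ (Set.range f)

def SA1 : Prop := ForN fun _ _ _ N => ∀ e σ, In3 N → DA N.toWS e σ → Tri N ∨ Z0 N e

def SA0 : Prop := ForN fun H _ _ N => ∀ e σ, finrank ℂ H ≤ 6 → DA N.toWS e σ → Z0 N e → False

/-- the first half of the central case. -/
def Gc {H : Type} [AddCommGroup H] [Module ℂ H] (N : NS (Fin 3) (GH H)) (e g : Fin 3 → H)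
    (σ : ℂ) : Prop :=
  (∀ i, g i ∈ Se N.toWS Finset.univ) ∧ (∀ p i, N.π p (g i) = sg σ p • g (p i)) ∧
  ∀ a b c, D3 a b c → N.ρ a b (e a) = e a + σ • e b ∧ N.ρ a b (e b) = e b ∧
    N.ρ a b (e c) = e c + g a ∧ N.ρ a b (g a) = g a ∧
    N.ρ a b (g b) = g b - σ • g a + (1 - σ) • e c ∧ N.ρ a b (g c) = g c

def SG1 : Prop := ForN fun _ _ _ N => ∀ e σ, Cen N → DA N.toWS e σ →
  (∃ a b, a ≠ b ∧ N.ρ a b (e a) ∉ ℂ ∙ e a) → ∃ g, Gc N e g σ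

def SG2 : Prop := ForN fun H _ _ N => ∀ e g σ, finrank ℂ H ≤ 6 → Cen N → DA N.toWS e σ →
  Gc N e g σ → Nt N ∨ S2 N

def SNt : Prop := ForN fun H _ _ N => Nt N → TT N = 0 ∧
  ∀ N' : NS (Fin 3) (GH H), Fl N N' → TT N' = 0

end Pool.Agent.MP_3ce0a0_al.H79.Y
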