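import Pool.Agent.MP_3ce0a0_al.H79.Y3

/-
Basic identities in Nielsen systems of rank three.
-/

namespace Pool.Agent.MP_3ce0a0_al.H79.Y

open Equiv Module Pool.Agent.MP_3ce0a0_al.H79.X

lemma D3.cover {a b c : Fin 3} (h : D3 a b c) (i : Fin 3) : i = a ∨ i = b ∨ i = c := by
  revert a b c i
  unfold D3
  decide

lemma D3.ex {a b : Fin 3} (h : a ≠ b) : ∃ c, D3 a b c := by
  revert a b
  unfold D3
  decide

lemma D3.ex' (c : Fin 3) : ∃ a b, D3 a b c := by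
  revert c
  unfold D3
  decide

lemma D3.perm {a b c : Fin 3} (h : D3 a b c) :
    D3 b a c ∧ D3 a c b ∧ D3 c b a ∧ D3 b c a ∧ D3 c a b := by
  obtain ⟨h1, h2, h3⟩ := h
  exact ⟨⟨h1.symm, h3, h2⟩, ⟨h2.symm, h1.symm, h3.symm⟩, ⟨h3, h2.symm, h1⟩,
    ⟨h3.symm, h1, h2.symm⟩, ⟨h2, h3.symm, h1.symm⟩⟩

lemma D3.map {a b c : Fin 3} (h : D3 a b c) (p : Perm (Fin 3)) : D3 (p a) (p b) (p c) :=
  ⟨p.injective.ne h.1, p.injective.ne h.2.1, p.injective.ne h.2.2⟩

lemma D3.trans {a b c a' b' c' : Fin 3} (h : D3 a b c) (h' : D3 a' b' c') :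
    ∃ p : Perm (Fin 3), p a = a' ∧ p b = b' ∧ p c = c' := by
  revert a b c a' b' c'
  unfold D3
  decide

lemma D3.sum {M : Type} [AddCommMonoid M] {a b c : Fin 3} (h : D3 a b c) (x : Fin 3 → M) :
    ∑ i, x i = x a + x b + x c := by
  obtain ⟨p, rfl, rfl, rfl⟩ := D3.trans (a := 0) (b := 1) (c := 2) (by unfold D3; decide) h
  rw [← Equiv.sum_comp p, Fin.sum_univ_three]

lemma sg_one (σ : ℂ) : sg σ 1 = 1 := by simp [sg]

lemma sg_swap (σ : ℂ) {a b : Fin 3} (h : a ≠ b) : sg σ (swap a b) = σ := by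
  simp [sg, Perm.sign_swap h]

lemma sg_cases (σ : ℂ) (p : Perm (Fin 3)) : sg σ p = 1 ∨ sg σ p = σ := by
  unfold sg
  split_ifs <;> simp

lemma sg_mul {σ : ℂ} (h : σ * σ = 1) (p q : Perm (Fin 3)) : sg σ (p * q) = sg σ p * sg σ q := by
  unfold sg
  rcases Int.units_eq_one_or (Perm.sign p) with k | k <;>
    rcases Int.units_eq_one_or (Perm.sign q) with l | l <;> simp [k, l, h]

lemma sg_sq {σ : ℂ} (h : σ * σ = 1) (p : Perm (Fin 3)) : sg σ p * sg σ p = 1 := by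
  rcases sg_cases σ p with k | k <;> simp [k, h]

section words
variable {W : Type} [Group W] (P : WS (Fin 3) W) (N : NS (Fin 3) W)

lemma ε_commute (a b : Fin 3) : Commute (P.ε a) (P.ε b) := P.ε_comm a b

lemma ε_inv (a : Fin 3) : (P.ε a)⁻¹ = P.ε a := inv_eq_of_mul_eq_one_right (P.ε_sq a)

lemma π_swap_sq (a b : Fin 3) : P.π (swap a b) * P.π (swap a b) = 1 := by
  rw [← map_mul, swap_mul_self, map_one]

lemma DD_eq {a b c : Fin 3} (h : D3 a b c) : DD P = P.ε a * P.ε b * P.ε c := by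
  have e := P.ε_comm
  have k : ∀ x y z, P.ε x * (P.ε y * P.ε z) = P.ε y * (P.ε x * P.ε z) := fun x y z => by
    rw [← mul_assoc, e x y, mul_assoc]
  unfold DD
  revert h
  unfold D3
  fin_cases a <;> fin_cases b <;> fin_cases c <;>
    simp [mul_assoc, e 1 0, e 2 0, e 2 1, k 1 0, k 2 0, k 2 1]

lemma ε_DD (a : Fin 3) : Commute (P.ε a) (DD P) :=
  ((ε_commute P a 0).mul_right (ε_commute P a 1)).mul_right (ε_commute P a 2)

lemma DD_sq : DD P * DD P = 1 := by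
  have h := ε_commute P
  unfold DD
  rw [← pow_two, ((h 0 2).mul_left (h 1 2)).mul_pow, (h 0 1).mul_pow]
  simp [pow_two, P.ε_sq]

lemma π_DD (p : Perm (Fin 3)) : Commute (P.π p) (DD P) := by
  have h : D3 0 1 2 := by unfold D3; decide
  change P.π p * DD P = DD P * P.π p
  conv_rhs => rw [DD_eq P (h.map p)]
  simp only [DD, ← mul_assoc, P.π_ε]
  simp only [mul_assoc, P.π_ε]

lemma tp_sq (a b : Fin 3) : tp P a b * tp P a b = 1 := by
  unfold tp
  rw [← pow_two, (π_DD P _).mul_pow]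
  simp [pow_two, π_swap_sq, DD_sq]

lemma π_tp (p : Perm (Fin 3)) (a b : Fin 3) :
    P.π p * tp P a b = tp P (p a) (p b) * P.π p := by
  unfold tp
  rw [mul_assoc, ← (π_DD P p).eq, ← mul_assoc, ← mul_assoc, ← map_mul, ← map_mul,
    mul_swap_eq_swap_mul]

lemma tp_ε (a b c : Fin 3) : tp P a b * P.ε c = P.ε (swap a b c) * tp P a b := by
  unfold tp
  rw [mul_assoc, ← (ε_DD P c).eq, ← mul_assoc, P.π_ε, mul_assoc]

lemma ρ_inv {a b : Fin 3} (h : a ≠ b) : (N.ρ a b)⁻¹ = N.ε b * N.ρ a b * N.ε b :=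
  (N.ε_right a b h).symm

lemma lam_inv {a b : Fin 3} (h : a ≠ b) : (N.lam a b)⁻¹ = N.ε a * N.ρ a b * N.ε a :=
  (N.ε_left a b h).symm

lemma lam_eq {a b : Fin 3} (h : a ≠ b) : N.lam a b = DD N.toWS * N.ρ a b * DD N.toWS := by
  obtain ⟨c, hc⟩ := D3.ex h
  have h1 : N.lam a b = N.ε a * (N.ε b * N.ρ a b * N.ε b) * N.ε a := by
    rw [← ρ_inv N h, ← inv_inv (N.lam a b), lam_inv N h]
    simp [mul_assoc, ε_inv N.toWS]
  have h2 := (N.ε_other a b c h hc.2.1 hc.2.2).eq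
  conv_rhs => rw [DD_eq _ hc]
  conv_rhs => enter [2]; rw [← DD_eq _ hc, DD_eq _ (hc.perm.2.2.1)]
  rw [h1, mul_assoc _ (N.ε c), h2]
  simp only [mul_assoc]
  rw [← mul_assoc (N.ε c), N.ε_sq, one_mul]

lemma ρ_lam_same {a b c : Fin 3} (h : a ≠ b) (h' : a ≠ c) : Commute (N.ρ a b) (N.lam a c) :=
  N.ρ_lam a b a c h h' h' h

lemma ρ_ρ_col {a b c : Fin 3} (h : D3 a b c) : Commute (N.ρ a b) (N.ρ c b) :=
  N.ρ_ρ a b c b h.1 h.2.2 h.2.1.symm h.1 h.2.2

/-- the Steinberg relation. -/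
lemma stein {a b c : Fin 3} (h : D3 a b c) :
    N.ρ a b * N.ρ c a = N.ρ c a * N.ρ a b * N.ρ c b := by
  rw [mul_assoc, ← N.conj_ρ a b c h.1 h.2.1 h.2.2]
  group

lemma KK_ρ {a b : Fin 3} (h : a ≠ b) : Commute (KK N a b) (N.ρ a b) :=
  (Commute.refl _).mul_left (ρ_lam_same N h h).symm.inv_left

lemma KK_lam (a b : Fin 3) : KK N a b * N.lam a b = N.ρ a b := by simp [KK]

lemma π_KK (p : Perm (Fin 3)) {a b : Fin 3} (h : a ≠ b) :
    N.π p * KK N a b = KK N (p a) (p b) * N.π p := by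
  have h2 : N.π p * (N.lam a b)⁻¹ = (N.lam (p a) (p b))⁻¹ * N.π p := by
    rw [eq_inv_mul_iff_mul_eq, ← mul_assoc, ← N.π_lam p a b h]
    simp
  unfold KK
  rw [← mul_assoc, N.π_ρ p a b h, mul_assoc, h2, mul_assoc]

lemma KK_eq {a b : Fin 3} (h : a ≠ b) : KK N a b = N.ρ a b * N.ε a * (N.ρ a b * N.ε a) := by
  simp [KK, lam_inv N h, mul_assoc]

lemma ε_KK_left {a b : Fin 3} (h : a ≠ b) : Commute (N.ε a) (KK N a b) := by
  have h1 : N.ε a * KK N a b * N.ε a = (N.lam a b)⁻¹ * N.ρ a b := by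
    rw [KK_eq N h, lam_inv N h]
    simp [mul_assoc, N.ε_sq]
  rw [← (ρ_lam_same N h h).inv_right.eq] at h1
  change N.ε a * KK N a b = KK N a b * N.ε a
  conv_rhs => rw [KK, ← h1]
  simp [mul_assoc, N.ε_sq]

lemma ε_KK_other {a b c : Fin 3} (h : D3 a b c) : Commute (N.ε c) (KK N a b) := by
  have h1 := (N.ε_other a b c h.1 h.2.1 h.2.2).mul_right (ε_commute N.toWS c a)
  rw [KK_eq N h.1]
  exact h1.mul_right h1

lemma ε_KK_right {a b : Fin 3} (h : a ≠ b) : N.ε b * KK N a b * N.ε b = (KK N a b)⁻¹ := by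
  have h1 := N.ε_right a b h
  have h2 : N.ε b * (N.lam a b)⁻¹ * N.ε b = N.lam a b := by
    rw [← mul_inv_eq_one, lam_inv N h]
    have h3 : N.ε b * (N.ε a * N.ρ a b * N.ε a) * N.ε b = N.ε a * (N.ρ a b)⁻¹ * N.ε a := by
      rw [← h1]
      simp only [mul_assoc]
      rw [N.ε_comm a b, ← mul_assoc (N.ε b) (N.ε a), N.ε_comm b a, mul_assoc]
    rw [h3]
    simp only [mul_assoc]
    rw [← mul_assoc (N.ε a) (N.ε a), N.ε_sq, one_mul, inv_mul_cancel_left, N.ε_sq]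
  calc N.ε b * KK N a b * N.ε b
      = N.ε b * N.ρ a b * N.ε b * (N.ε b * (N.lam a b)⁻¹ * N.ε b) := by
        simp only [KK, mul_assoc]
        rw [← mul_assoc (N.ε b) (N.ε b), N.ε_sq, one_mul]
    _ = (KK N a b)⁻¹ := by
        rw [h1, h2, KK, mul_inv_rev, inv_inv, (ρ_lam_same N h h).inv_left.eq]

end words

section lin
variable {H : Type} [AddCommGroup H] [Module ℂ H] {P : WS (Fin 3) (GH H)}

lemma gmul (f g : GH H) (v : H) : (f * g) v = f (g v) := rfl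

lemma gone (v : H) : (1 : GH H) v = v := rfl

lemma ginv (f : GH H) (v : H) : f (f⁻¹ v) = v := by rw [← gmul, mul_inv_cancel, gone]

lemma ginv' (f : GH H) (v : H) : f⁻¹ (f v) = v := by rw [← gmul, inv_mul_cancel, gone]

/-- apply an identity to a vector. -/
lemma gap {f g : GH H} (h : f = g) (v : H) : f v = g v := by rw [h]

lemma εε (a : Fin 3) (v : H) : P.ε a (P.ε a v) = v := gap (P.ε_sq a) v

lemma half {v : H} (h : v = -v) : v = 0 := by
  have : (2 : ℂ) • v = 0 := by rw [two_smul]; nth_rw 2 [h]; simp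
  simpa using this

lemma Se_neg {I : Finset (Fin 3)} {v : H} (h : v ∈ Se P I) {a : Fin 3} (ha : a ∈ I) :
    P.ε a v = -v := by simpa [ha] using mem_Se.1 h a

lemma Se_pos {I : Finset (Fin 3)} {v : H} (h : v ∈ Se P I) {a : Fin 3} (ha : a ∉ I) :
    P.ε a v = v := by simpa [ha] using mem_Se.1 h a

lemma Se_disj {I J : Finset (Fin 3)} (h : I ≠ J) {v : H} (hI : v ∈ Se P I) (hJ : v ∈ Se P J) :
    v = 0 := by
  obtain ⟨a, ha⟩ : ∃ a, ¬ (a ∈ I ↔ a ∈ J) := not_forall.1 fun k => h (Finset.ext k)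
  by_cases k : a ∈ I
  · exact half ((Se_pos hJ (by tauto)).symm.trans (Se_neg hI k))
  · exact half ((Se_pos hI k).symm.trans (Se_neg hJ (by tauto)))

lemma π_Se (p : Perm (Fin 3)) {I : Finset (Fin 3)} {v : H} (h : v ∈ Se P I) :
    P.π p v ∈ Se P (I.map p.toEmbedding) := mem_Se.2 fun a => by
  obtain ⟨a, rfl⟩ := p.surjective a
  have := gap (P.π_ε p a) v
  rw [gmul, gmul, mem_Se.1 h a] at this
  rw [← this]
  by_cases k : a ∈ I <;> simp [k]

lemma DD_Se {I : Finset (Fin 3)} {v : H} (h : v ∈ Se P I) : DD P v = (-1 : ℂ) ^ I.card • v := by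
  have k := mem_Se.1 h
  have : I.card = (if 0 ∈ I then 1 else 0) + (if 1 ∈ I then 1 else 0) +
      (if 2 ∈ I then 1 else 0) := by clear k h; revert I; decide
  simp only [DD, gmul, k, this]
  split_ifs <;> simp [k, pow_succ, *]

lemma DD_one {v : H} {a : Fin 3} (h : v ∈ Se P {a}) : DD P v = -v := by simpa using DD_Se h

lemma DD_two {v : H} {a : Fin 3} (h : v ∈ Se P {a}ᶜ) : DD P v = v := by
  simpa [Finset.card_compl] using DD_Se h

lemma DD_zero {v : H} (h : v ∈ Se P ∅) : DD P v = v := by simpa using DD_Se h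

lemma DD_univ {v : H} (h : v ∈ Se P Finset.univ) : DD P v = -v := by
  have := DD_Se h
  norm_num at this
  exact this

/-- the projection to a sector. -/
noncomputable def pr (P : WS (Fin 3) (GH H)) (I : Finset (Fin 3)) : End ℂ H :=
  (1 / 8 : ℂ) • ((1 + (if 0 ∈ I then -1 else 1 : ℂ) • (P.ε 0).toLinearMap) *
    (1 + (if 1 ∈ I then -1 else 1 : ℂ) • (P.ε 1).toLinearMap) *
    (1 + (if 2 ∈ I then -1 else 1 : ℂ) • (P.ε 2).toLinearMap))

lemma pr_of {I J : Finset (Fin 3)} {v : H} (h : v ∈ Se P J) :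
    pr P I v = if I = J then v else 0 := by
  have k := mem_Se.1 h
  have e : I = J ↔ (0 ∈ I ↔ 0 ∈ J) ∧ (1 ∈ I ↔ 1 ∈ J) ∧ (2 ∈ I ↔ 2 ∈ J) := by
    rw [Finset.ext_iff, Fin.forall_fin_succ, Fin.forall_fin_two]
    rfl
  simp only [pr, e]
  by_cases 0 ∈ I <;> by_cases 1 ∈ I <;> by_cases 2 ∈ I <;> by_cases 0 ∈ J <;>
    by_cases 1 ∈ J <;> by_cases 2 ∈ J <;> simp [*] <;> module

lemma pr_mem (I : Finset (Fin 3)) (v : H) : pr P I v ∈ Se P I := mem_Se.2 fun a => by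
  have c : ∀ x y w, P.ε x (P.ε y w) = P.ε y (P.ε x w) := fun x y w => gap (P.ε_comm x y) w
  by_cases 0 ∈ I <;> by_cases 1 ∈ I <;> by_cases 2 ∈ I <;> fin_cases a <;>
    simp [pr, εε, c 1 0, c 2 0, c 2 1, *] <;> module

lemma pr_sum (v : H) : ∑ I, pr P I v = v := by
  have : (Finset.univ : Finset (Finset (Fin 3))) =
    {∅, {0}, {1}, {2}, {0, 1}, {0, 2}, {1, 2}, {0, 1, 2}} := by decide
  rw [this]
  repeat rw [Finset.sum_insert (by decide)]
  simp [pr]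
  module

lemma pr_keep (I : Finset (Fin 3)) {U : Submodule ℂ H} (h : ∀ a, ∀ v ∈ U, P.ε a v ∈ U) {v : H}
    (hv : v ∈ U) : pr P I v ∈ U := by
  have k : ∀ (c : ℂ) a, ∀ v ∈ U, (1 + c • (P.ε a).toLinearMap) v ∈ U := fun c a v hv =>
    U.add_mem hv (U.smul_mem c (h a v hv))
  exact U.smul_mem _ (k _ _ _ (k _ _ _ (k _ _ _ hv)))

variable {e : Fin 3 → H} {σ : ℂ}

lemma DA.sq (h : DA P e σ) : σ * σ = 1 := by rcases h.1 with k | k <;> simp [k]

/-- uniqueness of the components in shape A. -/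
lemma DA.uniq (h : DA P e σ) {a b c : Fin 3} (d : D3 a b c) {x y z : ℂ} {u g : H}
    (hu : u ∈ Se P ∅) (hg : g ∈ Se P Finset.univ)
    (k : x • e a + y • e b + z • e c + u + g = 0) : x = 0 ∧ y = 0 ∧ z = 0 ∧ u = 0 ∧ g = 0 := by
  have n0 : ∀ i : Fin 3, ({i} : Finset (Fin 3)) ≠ ∅ := by decide
  have n1 : ∀ i : Fin 3, ({i} : Finset (Fin 3)) ≠ Finset.univ := by decide
  have n2 : (∅ : Finset (Fin 3)) ≠ Finset.univ := by decide
  have q := fun I => congrArg (pr P I) k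
  have s := fun i I => pr_of (I := I) (h.2.1 i).2
  obtain ⟨d1, d2, d3⟩ := d
  refine ⟨?_, ?_, ?_, ?_, ?_⟩
  · simpa [s, pr_of hu, pr_of hg, n0, n1, d1, d2.symm, (h.2.1 a).1] using q {a}
  · simpa [s, pr_of hu, pr_of hg, n0, n1, d1.symm, d3.symm, (h.2.1 b).1] using q {b}
  · simpa [s, pr_of hu, pr_of hg, n0, n1, d2, d3, (h.2.1 c).1] using q {c}
  · simpa [s, pr_of hu, pr_of hg, (n0 _).symm, n2] using q ∅
  · simpa [s, pr_of hu, pr_of hg, (n1 _).symm, n2.symm] using q Finset.univ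

lemma DA.dec (h : DA P e σ) {a b c : Fin 3} (d : D3 a b c) (v : H) : ∃ x y z : ℂ,
    ∃ u ∈ Se P ∅, ∃ g ∈ Se P Finset.univ, v = x • e a + y • e b + z • e c + u + g := by
  obtain ⟨x, u, hu, g, hg, k⟩ := h.2.2.2.1 v
  exact ⟨x a, x b, x c, u, hu, g, hg, by rw [k, d.sum]⟩

/-- the vectors fixed by a sign change. -/
lemma DA.pos (h : DA P e σ) {a b c : Fin 3} (d : D3 a b c) {v : H} (hv : P.ε c v = v) :
    ∃ x y : ℂ, ∃ u ∈ Se P ∅, v = x • e a + y • e b + u := by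
  obtain ⟨x, y, z, u, hu, g, hg, rfl⟩ := h.dec d v
  have := h.uniq d (x := 0) (y := 0) (z := 2 * z) (Submodule.zero_mem _)
    (Submodule.smul_mem _ (2 : ℂ) hg) (by
      simp only [map_add, map_smul, Se_pos (h.2.1 a).2 (a := c) (by simpa using d.2.1),
        Se_pos (h.2.1 b).2 (a := c) (by simpa using d.2.2), Se_neg (h.2.1 c).2 (a := c) (by simp),
        Se_pos hu (a := c) (by simp), Se_neg hg (a := c) (by simp)] at hv
      linear_combination (norm := module) -hv)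
  exact ⟨x, y, u, hu, by simp_all⟩

/-- the vectors negated by a sign change. -/
lemma DA.neg (h : DA P e σ) {c : Fin 3} {v : H} (hv : P.ε c v = -v) :
    ∃ z : ℂ, ∃ g ∈ Se P Finset.univ, v = z • e c + g := by
  obtain ⟨a, b, d⟩ := D3.ex' c
  obtain ⟨x, y, z, u, hu, g, hg, rfl⟩ := h.dec d v
  have := h.uniq d (x := 2 * x) (y := 2 * y) (z := 0) (Submodule.smul_mem _ (2 : ℂ) hu)
    (Submodule.zero_mem _) (by
      simp only [map_add, map_smul, Se_pos (h.2.1 a).2 (a := c) (by simpa using d.2.1),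
        Se_pos (h.2.1 b).2 (a := c) (by simpa using d.2.2), Se_neg (h.2.1 c).2 (a := c) (by simp),
        Se_pos hu (a := c) (by simp), Se_neg hg (a := c) (by simp)] at hv
      linear_combination (norm := module) hv)
  exact ⟨z, g, hg, by simp_all⟩

/-- seven vectors are dependent. -/
lemma seven [FiniteDimensional ℂ H] (h : finrank ℂ H ≤ 6) (x : Fin 7 → H) :
    ∃ c : Fin 7 → ℂ, ∑ i, c i • x i = 0 ∧ ∃ i, c i ≠ 0 :=
  Fintype.not_linearIndependent_iff.1 fun k => by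
    have := k.fintype_card_le_finrank
    simp only [Fintype.card_fin] at this
    omega

end lin

end Pool.Agent.MP_3ce0a0_al.H79.Y
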