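import Pool.Agent.MP_3ce0a0_al.H79.Y3B

/-
The twist, the inverse transpose, the system of an embedding, and the assembly.
-/

namespace Pool.Agent.MP_3ce0a0_al.H79.Y

open Equiv Module Pool.Agent.MP_3ce0a0_al.H79.X

section tw
variable {W : Type} [Group W]

/-- twist by a central involution. -/
def twist (N : NS (Fin 3) W) (z : W) (hz : z * z = 1) (hc : ∀ g, z * g = g * z)
    (χ : Perm (Fin 3) →* W) (h1 : ∀ p g, χ p * g = g * χ p) (h2 : ∀ a b, a ≠ b → χ (swap a b) = z) :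
    NS (Fin 3) W :=
  have k : ∀ x g y, z * x * g * (z * y) = x * g * y := fun x g y => by
    rw [mul_assoc z, hc, mul_assoc, ← mul_assoc z, hz, one_mul]
  { ε := fun a => z * N.ε a
    π := { toFun := fun p => χ p * N.π p
           map_one' := by simp
           map_mul' := fun p q => by
             rw [map_mul, map_mul, mul_assoc, mul_assoc, ← mul_assoc (χ q), h1 q, mul_assoc] }
    ρ := N.ρ
    lam := N.lam
    ε_sq := fun a => by simpa [N.ε_sq] using k (N.ε a) 1 (N.ε a)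
    ε_comm := fun a b => by
      simpa [N.ε_comm a b] using (k (N.ε a) 1 (N.ε b)).trans ((k (N.ε b) 1 (N.ε a)).trans
        (by simp [N.ε_comm a b])).symm
    π_ε := fun p a => by
      change χ p * N.π p * (z * N.ε a) = z * N.ε (p a) * (χ p * N.π p)
      rw [← mul_assoc, ← hc, mul_assoc z, mul_assoc z, mul_assoc, N.π_ε, ← mul_assoc (χ p),
        h1 p (N.ε (p a)), mul_assoc]
    π_ρ := fun p a b h => by
      change χ p * N.π p * _ = _ * (χ p * N.π p)
      rw [mul_assoc, N.π_ρ p a b h, ← mul_assoc, h1, mul_assoc]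
    π_lam := fun p a b h => by
      change χ p * N.π p * _ = _ * (χ p * N.π p)
      rw [mul_assoc, N.π_lam p a b h, ← mul_assoc, h1, mul_assoc]
    ε_right := fun a b h => (k _ _ _).trans (N.ε_right a b h)
    ε_left := fun a b h => (k _ _ _).trans (N.ε_left a b h)
    ε_other := fun a b c h h' h'' => Commute.mul_left (hc _) (N.ε_other a b c h h' h'')
    ρ_ρ := N.ρ_ρ
    ρ_lam := N.ρ_lam
    lam_lam := N.lam_lam
    conj_lam := N.conj_lam
    conj_ρ := N.conj_ρ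
    gersten := fun a b h => by
      change _ = χ _ * N.π _ * (z * N.ε b)
      rw [N.gersten a b h, h2 a b h]
      simpa using (k (N.π (swap a b)) 1 (N.ε b)).symm }

/-- the inverse transpose. -/
def flip (N : NS (Fin 3) W) (hN : Cen N) : NS (Fin 3) W :=
  have c : ∀ a b c e, a ≠ b → c ≠ e → a ≠ e → c ≠ b → Commute (N.ρ b a)⁻¹ (N.ρ e c)⁻¹ :=
    fun a b c e h1 h2 h3 h4 => by
      rw [← hN e c h2.symm]
      exact (N.ρ_lam b a e c h1.symm h2.symm h4.symm h3.symm).inv_inv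
  have s : ∀ a b c, a ≠ b → c ≠ a → c ≠ b →
      N.ρ a c * (N.ρ b a)⁻¹ * (N.ρ a c)⁻¹ = (N.ρ b a)⁻¹ * (N.ρ b c)⁻¹ := fun a b c h1 h2 h3 => by
    have e1 := stein N (a := a) (b := c) (c := b) ⟨h2.symm, h1.symm, h3.symm⟩
    have e2 := (ρ_ρ_col N (a := a) (b := c) (c := b) ⟨h2.symm, h1.symm, h3.symm⟩).eq
    have e3 := (ρ_lam_same N h1.symm h3.symm).eq
    rw [hN b c h3.symm] at e3
    rw [← inv_inj]
    simp only [mul_inv_rev, inv_inv]
    rw [← mul_assoc, e1, mul_assoc (N.ρ b a), e2, ← e3]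
    group
  { toWS := N.toWS
    ρ := fun a b => (N.ρ b a)⁻¹
    lam := fun a b => (N.ρ b a)⁻¹
    π_ρ := fun p a b h => by
      rw [eq_inv_mul_iff_mul_eq, ← mul_assoc, ← N.π_ρ p b a h.symm]
      simp
    π_lam := fun p a b h => by
      rw [eq_inv_mul_iff_mul_eq, ← mul_assoc, ← N.π_ρ p b a h.symm]
      simp
    ε_right := fun a b h => by
      rw [← inv_inj, ← hN b a h.symm, inv_inv, hN b a h.symm]
      simpa [mul_assoc, ε_inv N.toWS, hN b a h.symm] using N.ε_left b a h.symm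
    ε_left := fun a b h => by
      rw [← inv_inj]
      simpa [mul_assoc, ε_inv N.toWS] using N.ε_right b a h.symm
    ε_other := fun a b c h h' h'' => (N.ε_other b a c h.symm h'' h').inv_right
    ρ_ρ := fun a b c' e h1 h2 _ h3 h4 => c a b c' e h1 h2 h3 h4
    ρ_lam := c
    lam_lam := fun a b c' e h1 h2 _ h3 h4 => c a b c' e h1 h2 h3 h4
    conj_lam := fun a b c' h1 h2 h3 => by
      have e2 := (ρ_ρ_col N (a := a) (b := c') (c := b) ⟨h2.symm, h1.symm, h3.symm⟩)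
      have := s a b c' h1 h2 h3
      rw [mul_inv_eq_iff_eq_mul, mul_assoc, e2.symm.inv_left.eq] at this
      rw [inv_inv, inv_inv, mul_assoc, inv_mul_eq_iff_eq_mul, ← mul_assoc, this]
      group
    conj_ρ := fun a b c' h1 h2 h3 => by rw [inv_inv, s a b c' h1 h2 h3]
    gersten := fun a b h => by
      have := N.gersten b a h.symm
      rw [hN b a h.symm, swap_comm, N.π_ε, swap_apply_left] at this
      rw [← inv_inj]
      simp only [mul_inv_rev, inv_inv, ε_inv N.toWS]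
      rw [← mul_assoc, this, inv_eq_of_mul_eq_one_right (π_swap_sq N.toWS a b)] }

end tw

lemma Stb.inv {H : Type} [AddCommGroup H] [Module ℂ H] {g : GH H} {Q : Submodule ℂ H}
    (h : Stb g Q) : Stb g⁻¹ Q := fun v => by rw [h (g⁻¹ v), ginv]

theorem sfl : SFl := by
  intro H _ _ _ N hN
  refine ⟨flip N hN, ⟨rfl, fun _ _ _ => rfl, fun _ _ _ => rfl⟩,
    ⟨rfl, hN, fun a b _ => (inv_inv _).symm⟩, ?_⟩
  rintro ⟨K, E, _, _, p, j, i, t, hp, hj, he, h⟩
  refine ⟨K, E, _, _, p, j, i, t, hp, hj, he, fun a b c d => ?_⟩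
  obtain ⟨h1, h2, h3, h4, h5, h6, h7, h8⟩ := h a b c d
  refine ⟨h1, h2, h3, h4, ?_, ?_, ?_, ?_⟩
  · simpa [flip, hN b a d.1.symm] using h6.inv
  · simpa [flip, hN a b d.1] using h5.inv
  · have := h8.inv
    rw [hN b c d.2.2.symm, (ρ_ρ_col N d.perm.2.1).eq, mul_inv_rev] at this
    exact this
  · have := h7.inv
    rw [← (ρ_lam_same N d.2.2 d.2.1).eq, hN c a d.2.1, mul_inv_rev] at this
    exact this

theorem stw : STw := by
  intro H _ _ _ N
  let z : GH H := LinearEquiv.neg ℂ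
  have hz : z * z = 1 := LinearEquiv.ext fun v => neg_neg v
  have hc : ∀ g : GH H, z * g = g * z := fun g => LinearEquiv.ext fun v => (map_neg g v).symm
  let χ : Perm (Fin 3) →* GH H :=
    { toFun := fun p => if Perm.sign p = 1 then 1 else z
      map_one' := by simp
      map_mul' := fun p q => by
        rcases Int.units_eq_one_or (Perm.sign p) with k | k <;>
          rcases Int.units_eq_one_or (Perm.sign q) with l | l <;> simp [k, l, hz] }
  have h1 : ∀ p g, χ p * g = g * χ p := fun p g => by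
    change (if _ then 1 else z) * g = g * (if _ then 1 else z)
    split_ifs
    · simp
    · exact hc g
  have h2 : ∀ a b, a ≠ b → χ (swap a b) = z := fun a b h => by
    change (if _ then 1 else z) = z
    rw [if_neg (by simp [Perm.sign_swap h])]
  have ht : ∀ a b, a ≠ b → tp (twist N z hz hc χ h1 h2).toWS a b = tp N.toWS a b :=
    fun a b h => LinearEquiv.ext fun v => by
      change χ _ (N.π _ (-N.ε 0 (-N.ε 1 (-N.ε 2 v)))) = N.π _ (N.ε 0 (N.ε 1 (N.ε 2 v)))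
      rw [h2 a b h]
      simp [z]
  have hv : ∀ a b c, a ≠ b → vv (twist N z hz hc χ h1 h2) a b c = vv N a b c :=
    fun a b c h => LinearEquiv.ext fun v => by
      change χ _ (N.π _ (-N.ε c _)) = N.π _ (N.ε c _)
      rw [h2 a b h]
      simp [z]
      rfl
  refine ⟨twist N z hz hc χ h1 h2, ⟨fun _ _ => rfl, fun p v => ?_⟩, rfl, rfl, id, ?_, ?_⟩
  · change (if _ then (1 : GH H) else z) (N.π p v) = _
    unfold sg
    split_ifs <;> simp [z, gone]
  · rw [TT, TT, ht 0 1 (by decide), hv 1 2 0 (by decide), hv 0 2 1 (by decide)]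
  · rintro ⟨K, E, _, _, p, j, i, t, hp, hj, he, h⟩
    refine ⟨K, E, _, _, p, j, i, t, hp, hj, he, fun a b c d => ?_⟩
    obtain ⟨k1, k2, k3⟩ := h a b c d
    refine ⟨k1.trans (LinearEquiv.ext fun v => ?_), k2.trans (ht a b d.1).symm, k3⟩
    change N.ε a (N.ε b v) = -N.ε a (-N.ε b v)
    simp

theorem ssys (hE : SEd) (hK : SK1) (hW : SWd) : SSys := by
  intro m h4 h6 φ hφ
  obtain ⟨π, Φ, E⟩ := hE m (by omega)
  let ψ : A (Fin 3) →* Out (FG m) := φ.comp (QuotientGroup.mk' _)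
  have hψ : ψ.ker = Inn (FreeGroup (Fin 3)) := by
    rw [← MonoidHom.comap_ker, (MonoidHom.ker_eq_bot_iff φ).2 hφ, MonoidHom.comap_bot,
      QuotientGroup.ker_mk']
  obtain ⟨h1, h2, ⟨K, hKf, k1, k2⟩, h3, h5⟩ := hW _ ψ hψ _ rfl
  set N := (H62.Inst.N0 (Fin 3)).map ψ
  obtain ⟨a1, a2, a3, a4, a5, ⟨y, a6, a7⟩, a8, a9⟩ := h5 _ _ _ rfl rfl rfl
  have hm : finrank ℂ (HV m) = m := by simp
  obtain ⟨b1, b2⟩ := hK _ _ π Φ E (by omega) (by omega) _ _ _ y a1 a2 a3 a4 a5 a6 a7 a8 a9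
  have fo : ∀ g : K, IsOfFinOrder (g : Out (FG m)) := fun g =>
    K.subtype.isOfFinOrder (isOfFinOrder_of_finite g)
  have inj : Function.Injective ((toG π).comp K.subtype) :=
    (injective_iff_map_eq_one _).2 fun g hg =>
      Subtype.ext (E.faith g (fo g) (congrArg LinearEquiv.toLinearMap hg))
  have ht : ∀ a b, tp (N.map (toG π)).toWS a b = toG π (tp N.toWS a b) := fun a b => by
    simp [tp, DD, NS.map, WS.map]
  have hv : ∀ a b c, vv (N.map (toG π)) a b c = toG π (vv N a b c) := fun a b c => by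
    simp [vv, NS.map, WS.map]
  refine ⟨N.map (toG π), fun a b c d => ?_, fun h => h2 ?_, ?_, ?_, ?_⟩
  · simpa [KK, NS.map] using congrArg (toG π) (h1 a b c d)
  · exact congrArg Subtype.val (inj (a₁ := ⟨_, K.mul_mem (k1 0) (k1 1)⟩) (a₂ := 1)
      (by simpa [NS.map, WS.map] using h))
  · rw [ht]
    exact b1
  · rw [TT, ht, hv, hv]
    exact b2
  obtain ⟨Ed, _, j, hj, he, hΦ⟩ := E.edge K hKf
  have st : ∀ (x : Out (FG m)) (g : K), Commute x g → Stb (toG π x) (Fx j g) := fun x g c v => by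
    rw [← hΦ]
    refine ⟨fun h => ?_, fun h => ?_⟩
    · simpa [c.eq, toG_apply] using E.conj x g v h
    · have := E.conj x⁻¹ g _ h
      rw [c.inv_left.eq, ← toG_apply, map_inv, ginv'] at this
      simpa using this
  have ct : ∀ g : K, tr ((toG π).comp K.subtype g) = 2 → 2 ≤ finrank ℂ (Fx j g) := fun g h => by
    rw [← hΦ]
    exact E.cnt g 2 (fo g) le_rfl h
  refine ⟨K, Ed, inferInstance, inferInstance, (toG π).comp K.subtype, j,
    fun a b => ⟨_, K.mul_mem (k1 a) (k1 b)⟩,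
    fun a b => ⟨tp N.toWS a b, K.mul_mem (k2 _) (K.mul_mem (K.mul_mem (k1 0) (k1 1)) (k1 2))⟩,
    inj, hj, he, fun a b c d => ?_⟩
  obtain ⟨c1, c2, c3, c4⟩ := h3 a b c d
  refine ⟨map_mul (toG π) _ _, (ht a b).symm, ct _, ct _, ?_, ?_, ?_, ?_⟩
  · exact map_mul (toG π) _ _ ▸ st _ ⟨_, _⟩ c1
  · exact map_mul (toG π) _ _ ▸ st _ ⟨_, _⟩ c2
  · exact map_mul (toG π) _ _ ▸ st _ ⟨_, _⟩ c3
  · exact map_mul (toG π) _ _ ▸ st _ ⟨_, _⟩ c4

section fin
variable (hKill : SKill) (hDg : SDg) (hCnt : SCnt) (hNrm : SNrm) (hB : SB) (hC : SC)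
  (hA1 : SA1) (hA0 : SA0) (hG1 : SG1) (hG2 : SG2) (hNt : SNt)
variable {H : Type} [AddCommGroup H] [Module ℂ H] [FiniteDimensional ℂ H]

include hG1 hG2 hNt in
lemma core (N : NS (Fin 3) (GH H)) {e σ} (h6 : finrank ℂ H ≤ 6) (hN : Cen N) (hA : DA N.toWS e σ)
    (hT : LinearMap.trace ℂ H (TT N) ≠ 0) :
    ∃ N' : NS (Fin 3) (GH H), N'.toWS = N.toWS ∧ Cen N' ∧ (Gr N → Gr N') ∧ S2 N' := by
  obtain ⟨N', f1, f2, f3⟩ := sfl H N hN
  by_cases k : ∃ a b, a ≠ b ∧ N.ρ a b (e a) ∉ ℂ ∙ e a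
  · obtain ⟨g, hg⟩ := hG1 H N e σ hN hA k
    rcases hG2 H N e g σ h6 hN hA hg with l | l
    · exact absurd (by rw [(hNt H N l).1, map_zero]) hT
    · exact ⟨N, rfl, hN, id, l⟩
  have hA' : DA N'.toWS e σ := f1.1 ▸ hA
  by_cases k' : ∃ a b, a ≠ b ∧ N'.ρ a b (e a) ∉ ℂ ∙ e a
  · obtain ⟨g, hg⟩ := hG1 H N' e σ f1.2.1 hA' k'
    rcases hG2 H N' e g σ h6 f1.2.1 hA' hg with l | l
    · exact absurd (by rw [(hNt H N' l).2 N f2, map_zero]) hT
    · exact ⟨N', f1.1, f1.2.1, f3, l⟩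
  push Not at k k'
  have h01 : (0 : Fin 3) ≠ 1 := by decide
  obtain ⟨x, hx⟩ := Submodule.mem_span_singleton.1 (k 0 1 h01)
  obtain ⟨y, hy⟩ := Submodule.mem_span_singleton.1 (k' 0 1 h01)
  have := gap (N.gersten 0 1 h01) (e 0)
  rw [hN 0 1 h01, ← f1.2.2 0 1 h01, gmul, gmul, gmul, ← hx, map_smul, ← hy, map_smul, map_smul,
    ← hx, Se_pos (hA.2.1 0).2 (by decide), hA.2.2.1, sg_swap _ h01, swap_apply_left] at this
  have u := hA.uniq (a := 0) (b := 1) (c := 2) (by unfold D3; decide) (x := x * y * x) (y := -σ)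
    (z := 0) (Submodule.zero_mem _) (Submodule.zero_mem _)
    (by linear_combination (norm := module) this)
  have := hA.sq
  rw [neg_eq_zero.1 u.2.1] at this
  simp at this

include hKill hDg hA1 hA0 hG1 hG2 hNt in
lemma caseA (N : NS (Fin 3) (GH H)) {e σ} (h6 : finrank ℂ H ≤ 6) (hN : In3 N)
    (hA : DA N.toWS e σ) (hT : LinearMap.trace ℂ H (TT N) ≠ 0) (hG : Gr N) : False := by
  rcases hA1 H N e σ hN hA with k | k
  swap
  · exact hA0 H N e σ h6 hA k
  obtain ⟨N1, w1, c1, t1⟩ := hDg H N k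
  obtain ⟨N2, w2, -, -, e', g, -, sp, s1, s2, -⟩ :=
    core hG1 hG2 hNt N1 h6 c1 (w1 ▸ hA) (t1 ▸ hT)
  rw [w2, w1] at s1 s2
  have hD : ∀ v, DD N.toWS v = -v := fun v => by
    induction sp (Submodule.mem_top (x := v)) using Submodule.span_induction with
    | mem x hx =>
      obtain ⟨i | i, rfl⟩ := hx
      exacts [DD_one (s1 i), DD_univ (s2 i)]
    | zero => simp
    | add x y _ _ hx hy => rw [map_add, hx, hy, neg_add]
    | smul c x _ hx => rw [map_smul, hx, smul_neg]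
  have hc : Cen N := fun a b h => LinearEquiv.ext fun v => by
    rw [lam_eq N h, gmul, gmul, hD, hD, map_neg, neg_neg]
  obtain ⟨N3, -, c3, g3, s3⟩ := core hG1 hG2 hNt N h6 hc hA hT
  exact hKill H N3 c3 s3 (g3 hG)

include hB in
lemma caseC (N : NS (Fin 3) (GH H)) {e : Fin 3 → H} (h1 : ∀ i, e i ≠ 0 ∧ e i ∈ Se N.toWS {i})
    (h2 : ∀ p i, N.π p (e i) = sg (-1) p • e (p i))
    (h3 : ∀ a b, a ≠ b → ∀ i, N.ρ a b (e i) ∈ Submodule.span ℂ (Set.range e)) : False := by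
  have m : ∀ i, e i ∈ Submodule.span ℂ (Set.range e) := fun i => Submodule.subset_span ⟨i, rfl⟩
  have k : ∀ g : GH H, (∀ i, g (e i) ∈ Submodule.span ℂ (Set.range e)) →
      ∀ v ∈ Submodule.span ℂ (Set.range e), g v ∈ Submodule.span ℂ (Set.range e) :=
    fun g hg v hv => (Submodule.span_le (p := Submodule.comap g.toLinearMap
      (Submodule.span ℂ (Set.range e)))).2 (by rintro _ ⟨i, rfl⟩; exact hg i) hv
  have := hB H N (Submodule.span ℂ (Set.range e)) ⟨?_, ?_⟩ (fun a => k _ fun i => ?_)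
    (fun p => k _ fun i => ?_) fun a b h => k _ (h3 a b h)
  · exact (h1 0).1 (by simpa [this] using m 0)
  · exact Submodule.span_le.2 (by rintro _ ⟨i, rfl⟩; exact Submodule.mem_iSup_of_mem i (h1 i).2)
  · rintro a b c d v ⟨hv, hc⟩
    obtain ⟨x, rfl⟩ := (Submodule.mem_span_range_iff_exists_fun ℂ).1 hv
    have q := pr_of (I := {c}) hc
    rw [d.sum] at q ⊢
    simp only [map_add, map_smul, pr_of (h1 _).2, Finset.singleton_inj, d.2.1, d.2.2, if_false,
      if_true, smul_zero, zero_add] at q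
    rw [← q, map_smul, h2, sg_swap _ d.1, swap_apply_of_ne_of_ne d.2.1 d.2.2]
    simp
  · rw [mem_Se.1 (h1 i).2]
    split_ifs
    exacts [neg_mem (m i), m i]
  · rw [h2]
    exact Submodule.smul_mem _ _ (m _)

include hKill hDg hCnt hNrm hB hC hA1 hA0 hG1 hG2 hNt in
theorem noEmb (hS : SSys) (m : ℕ) (h4 : 4 ≤ m) (h6 : m ≤ 6)
    (φ : Out (FreeGroup (Fin 3)) →* Out (FreeGroup (Fin m))) : ¬ Function.Injective φ := by
  intro hφ
  obtain ⟨N, h1, h2, h3, h5, h7⟩ := hS m h4 h6 φ hφ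
  have hm : finrank ℂ (HV m) ≤ 6 := by simpa using h6
  obtain ⟨N', t1, t2, -, t4, t5, t6⟩ := stw _ N
  rcases hNrm _ _ _ t1 (hCnt _ _ hm h2 h3) with ⟨e, σ, k⟩ | ⟨e, σ, k⟩ | ⟨e, f, k⟩ | ⟨n, k | k⟩
  · exact caseA hKill hDg hA1 hA0 hG1 hG2 hNt N hm h1 k h5 h7
  · exact caseA hKill hDg hA1 hA0 hG1 hG2 hNt N' hm (t4 h1) k (t5 ▸ h5) (t6 h7)
  · rcases hC _ N e f h1 k with l | l
    · exact caseC hB N k.1 k.2.2.1 l
    · refine caseC hB N' (fun i => ⟨(k.2.1 i).1, mem_Se.2 fun a => ?_⟩) (fun p i => ?_) (t2 ▸ l)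
      · rw [t1.1, mem_Se.1 (k.2.1 i).2]
        by_cases h : a = i <;> simp [h]
      · rw [t1.2, k.2.2.2.1]
  · exact n (hB _ N ⊤ k (by simp) (by simp) (by simp))
  · exact n (hB _ N' ⊤ k (by simp) (by simp) (by simp))

end fin

end Pool.Agent.MP_3ce0a0_al.H79.Y
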