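import Pool.Agent.MP_3ce0a0_al.H79.Y3B

/-
Normal forms of the sectors.
-/

namespace Pool.Agent.MP_3ce0a0_al.H79.Y

open Equiv Module Pool.Agent.MP_3ce0a0_al.H79.X

namespace Nrm
variable {H : Type} [AddCommGroup H] [Module ℂ H] [FiniteDimensional ℂ H]
  {P P' : WS (Fin 3) (GH H)}

/-- a three cycle sending `0` to `i`. -/
def rr (i : Fin 3) : Perm (Fin 3) := finRotate 3 ^ i.1

lemma split (p : Perm (Fin 3)) (i : Fin 3) : (Perm.sign p = 1 ∧ p * rr i = rr (p i)) ∨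
    (Perm.sign p ≠ 1 ∧ p * rr i = rr (p i) * swap 1 2) := by
  revert p i
  decide

omit [FiniteDimensional ℂ H] in
lemma line (F : Fin 3 → Finset (Fin 3)) (hF : ∀ (p : Perm (Fin 3)) i,
    (F i).map p.toEmbedding = F (p i)) (h : finrank ℂ (Se P (F 0)) = 1) :
    ∃ (e : Fin 3 → H) (σ : ℂ), (σ = 1 ∨ σ = -1) ∧ (∀ i, e i ≠ 0 ∧ e i ∈ Se P (F i)) ∧
      (∀ p i, P.π p (e i) = sg σ p • e (p i)) ∧ ∀ i, ∀ v ∈ Se P (F i), ∃ c : ℂ, v = c • e i := by
  obtain ⟨⟨x, hx⟩, h0, hs⟩ := finrank_eq_one_iff'.1 h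
  have h0' : x ≠ 0 := fun k => h0 (Subtype.ext k)
  have hs' : ∀ v ∈ Se P (F 0), ∃ c : ℂ, v = c • x := fun v hv =>
    (hs ⟨v, hv⟩).imp fun c hc => (congrArg Subtype.val hc).symm
  have r0 : ∀ i, rr i 0 = i := by decide
  obtain ⟨σ, hσ⟩ := hs' (P.π (swap 1 2) x) (by
    have := π_Se (swap 1 2) hx
    rwa [hF, swap_apply_of_ne_of_ne (by decide) (by decide)] at this)
  have sq : σ * σ = 1 := by
    have := gap (π_swap_sq P 1 2) x
    rw [gmul, hσ, map_smul, hσ, smul_smul, gone] at this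
    exact smul_left_injective ℂ h0' (this.trans (one_smul ℂ x).symm)
  refine ⟨fun i => P.π (rr i) x, σ, mul_self_eq_one_iff.1 sq, fun i => ⟨by simpa using h0', ?_⟩,
    fun p i => ?_, fun i v hv => ?_⟩
  · simpa [hF, r0] using π_Se (rr i) hx
  · rw [← gmul, ← map_mul]
    rcases split p i with ⟨k, l⟩ | ⟨k, l⟩
    · simp [sg, k, l]
    · rw [l, map_mul, gmul, hσ, map_smul, sg, if_neg k]
  · have := π_Se (rr i)⁻¹ hv
    rw [hF, Perm.inv_eq_iff_eq.2 (r0 i).symm] at this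
    obtain ⟨c, hc⟩ := hs' _ this
    exact ⟨c, by rw [← map_smul, ← hc, map_inv, ginv]⟩

lemma zero (F : Fin 3 → Finset (Fin 3)) (hF : ∀ (p : Perm (Fin 3)) i,
    (F i).map p.toEmbedding = F (p i)) (h : finrank ℂ (Se P (F 0)) = 0) (i : Fin 3) :
    ∀ v ∈ Se P (F i), v = 0 := fun v hv => by
  have := π_Se (swap 0 i) hv
  rw [hF, swap_apply_right, Submodule.finrank_eq_zero.1 h] at this
  simpa using this

lemma h1 (p : Perm (Fin 3)) (i : Fin 3) : ({i} : Finset (Fin 3)).map p.toEmbedding = {p i} := by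
  revert p i
  decide

lemma h2 (p : Perm (Fin 3)) (i : Fin 3) :
    ({i}ᶜ : Finset (Fin 3)).map p.toEmbedding = {p i}ᶜ := by
  revert p i
  decide

omit [FiniteDimensional ℂ H] in
lemma dec (v : H) : v = ∑ i, pr P {i} v + ∑ i, pr P {i}ᶜ v + pr P ∅ v + pr P Finset.univ v := by
  have : (Finset.univ : Finset (Finset (Fin 3))) =
    {{0}, {1}, {2}, {0}ᶜ, {1}ᶜ, {2}ᶜ, ∅, Finset.univ} := by decide
  conv_lhs => rw [← pr_sum (P := P) v, this]
  repeat rw [Finset.sum_insert (by decide)]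
  simp only [Finset.sum_singleton, Fin.sum_univ_three]
  abel

omit [FiniteDimensional ℂ H] in
lemma tpv {e : Fin 3 → H} {σ : ℂ} (h : ∀ p i, P.π p (e i) = sg σ p • e (p i)) {a b c : Fin 3}
    (d : D3 a b c) : P.π (swap a b) (e c) = σ • e c := by
  rw [h, sg_swap _ d.1, swap_apply_of_ne_of_ne d.2.1 d.2.2]

lemma main (h : Cnt P) (k : finrank ℂ (Se P {0}ᶜ) = 0) :
    (∃ e σ, DA P e σ) ∨ ((⊤ : Submodule ℂ H) ≠ ⊥ ∧ DB P ⊤) := by
  have z := fun i v => zero (P := P) _ h2 k i _ (pr_mem {i}ᶜ v)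
  rcases h with ⟨k1, k2⟩ | ⟨k1, k2, k3, k4⟩
  · obtain ⟨e, σ, a1, a2, a3, a4⟩ := line (P := P) _ h1 (by omega)
    refine .inl ⟨e, σ, a1, a2, a3, fun v => ?_, fun s a b hab => ?_⟩
    · choose c hc using fun i => a4 i _ (pr_mem {i} v)
      exact ⟨c, _, pr_mem ∅ v, _, pr_mem _ v, by simpa [z, hc] using dec (P := P) v⟩
    · obtain ⟨c, d⟩ := D3.ex hab
      refine (k2 a b c d).resolve_left fun l => (a2 c).1 (half ?_)
      have := l _ (Submodule.mem_sup_left (a2 c).2)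
      rw [tp, gmul, DD_one (a2 c).2, map_neg, tpv a3 d, s, one_smul] at this
      exact this.symm
  · refine .inr ⟨fun t => ?_, fun v _ => ?_, fun a b c d v hv => ?_⟩
    · have : Se P {0} = ⊥ := eq_bot_iff.2 (t ▸ le_top)
      rw [k, this] at k1
      simp at k1
    · have q := dec (P := P) v
      have q1 : pr P ∅ v = 0 := by simpa [k2] using pr_mem (P := P) ∅ v
      have q2 : pr P Finset.univ v = 0 := by simpa [k3] using pr_mem (P := P) Finset.univ v
      simp only [z, q1, q2, Finset.sum_const_zero, add_zero] at q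
      rw [q]
      exact Submodule.sum_mem _ fun i _ => Submodule.mem_iSup_of_mem i (pr_mem _ v)
    · have := k4 a b c d v (Submodule.mem_sup_left hv.2)
      rw [tp, gmul, DD_one hv.2, map_neg] at this
      exact neg_eq_iff_eq_neg.1 this

omit [FiniteDimensional ℂ H] in
lemma tw_Se (t : Tw P P') (I : Finset (Fin 3)) : Se P' I = Se P Iᶜ := by
  ext v
  simp only [mem_Se, t.1, Finset.mem_compl]
  refine forall_congr' fun a => ?_
  by_cases k : a ∈ I <;> simp [k, neg_eq_iff_eq_neg]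

omit [FiniteDimensional ℂ H] in
lemma tw_Cnt (t : Tw P P') (h : Cnt P) : Cnt P' := by
  have e : ∀ a b, a ≠ b → tp P' a b = tp P a b := fun a b k => LinearEquiv.ext fun v => by
    simp [tp, DD, gmul, t.1, t.2, sg_swap _ k]
  unfold Cnt at h ⊢
  rw [tw_Se t {0}, tw_Se t {0}ᶜ, compl_compl]
  simp only [tw_Se t, compl_compl, Finset.compl_empty, Finset.compl_univ]
  rcases h with ⟨k1, k2⟩ | ⟨k1, k2, k3, k4⟩
  · exact .inl ⟨by omega, fun a b c d => by
      rw [e a b d.1, sup_comm, sup_comm (Se P Finset.univ)]; exact k2 a b c d⟩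
  · exact .inr ⟨by omega, k3, k2, fun a b c d => by rw [e a b d.1, sup_comm]; exact k4 a b c d⟩

end Nrm

open Nrm in
theorem snrm' : SNrm := by
  intro H _ _ _ P P' t h
  by_cases k : finrank ℂ (Se P {0}ᶜ) = 0
  · rcases main h k with l | l
    exacts [.inl l, .inr (.inr (.inr ⟨l.1, .inl l.2⟩))]
  by_cases k' : finrank ℂ (Se P {0}) = 0
  · rcases main (tw_Cnt t h) (by rwa [tw_Se t, compl_compl]) with l | l
    exacts [.inr (.inl l), .inr (.inr (.inr ⟨l.1, .inr l.2⟩))]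
  rcases h with ⟨k1, -⟩ | ⟨k1, k2, k3, k4⟩
  · omega
  obtain ⟨e, σ, -, a2, a3, a4⟩ := line (P := P) _ h1 (by omega)
  obtain ⟨f, τ, -, b2, b3, b4⟩ := line (P := P) _ h2 (by omega)
  have d : D3 0 1 2 := by unfold D3; decide
  have s1 : σ = -1 := by
    have := k4 0 1 2 d _ (Submodule.mem_sup_left (a2 2).2)
    rw [tp, gmul, DD_one (a2 2).2, map_neg, tpv a3 d, ← neg_smul] at this
    exact neg_eq_iff_eq_neg.1 (smul_left_injective ℂ (a2 2).1 (this.trans (one_smul ℂ _).symm))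
  have s2 : τ = 1 := by
    have := k4 0 1 2 d _ (Submodule.mem_sup_right (b2 2).2)
    rw [tp, gmul, DD_two (b2 2).2, tpv b3 d] at this
    exact smul_left_injective ℂ (b2 2).1 (this.trans (one_smul ℂ _).symm)
  subst s1 s2
  refine .inr (.inr (.inl ⟨e, f, a2, b2, a3, fun p i => by simpa [sg] using b3 p i, fun v => ?_⟩))
  choose c hc using fun i => a4 i _ (pr_mem {i} v)
  choose c' hc' using fun i => b4 i _ (pr_mem {i}ᶜ v)
  have q1 : pr P ∅ v = 0 := by simpa [k2] using pr_mem (P := P) ∅ v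
  have q2 : pr P Finset.univ v = 0 := by simpa [k3] using pr_mem (P := P) Finset.univ v
  exact ⟨c, c', by simpa [hc, hc', q1, q2] using dec (P := P) v⟩

end Pool.Agent.MP_3ce0a0_al.H79.Y
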