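import Pool.Agent.MP_3ce0a0_al.H79.Y3C
import Pool.Agent.MP_3ce0a0_al.H79.CT7
import Pool.Agent.MP_3ce0a0_al.H19.YEd
import Pool.Agent.MP_3ce0a0_al.H16.YK1
import Pool.Agent.MP_3ce0a0_al.H59.YWd
import Pool.Agent.MP_3ce0a0_al.H86.YKill
import Pool.Agent.MP_3ce0a0_al.H97.YDg
import Pool.Agent.MP_3ce0a0_al.H6.YCnt
import Pool.Agent.MP_3ce0a0_al.H79.YNrm2
import Pool.Agent.MP_3ce0a0_al.H96.YB
import Pool.Agent.MP_3ce0a0_al.H70.YC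
import Pool.Agent.MP_3ce0a0_al.H22.YA1
import Pool.Agent.MP_3ce0a0_al.H1.YA0
import Pool.Agent.MP_3ce0a0_al.H73.YG1
import Pool.Agent.MP_3ce0a0_al.H85.YG2
import Pool.Agent.MP_3ce0a0_al.H11.YNt

namespace Pool.Agent.MP_3ce0a0_al.H79.Y

theorem leastThree : IsLeast {m : ℕ | 3 < m ∧
    ∃ φ : Out (FreeGroup (Fin 3)) →* Out (FreeGroup (Fin m)), Function.Injective φ} 7 :=
  ⟨⟨by decide, H15.C.emb7⟩, fun m ⟨h, φ, hφ⟩ => not_lt.1 fun k =>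
    noEmb skill sdg scnt snrm' sb sc sa1 sa0 sg1 sg2 snt (ssys sed sk1 swd) m h (by omega) φ hφ⟩

end Pool.Agent.MP_3ce0a0_al.H79.Y
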